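import Mathlib

/-!
Basic objects: the lattice, pieces (finite subgraphs of the lattice all of whose vertices inside a
region have degree two), families of pieces and their weights, gluing and symmetries.
-/

set_option autoImplicit false
open Classical Set

namespace Pool.Agent.P.MP_86995c_pr

abbrev Pt (d : ℕ) := Fin d → ℤ

variable {d : ℕ}

/-- nearest neighbour graph of the hypercubic lattice -/
def lat (d : ℕ) : SimpleGraph (Pt d) where
  Adj x y := ∃ i, (y i = x i + 1 ∨ x i = y i + 1) ∧ ∀ k, k ≠ i → y k = x k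
  symm := ⟨fun x y ⟨i, h1, h2⟩ => ⟨i, h1.symm, fun k hk => (h2 k hk).symm⟩⟩
  loopless := ⟨fun x ⟨i, h1, _⟩ => by omega⟩

theorem lat_adj {x y : Pt d} :
    (lat d).Adj x y ↔ ∃ i, (y i = x i + 1 ∨ x i = y i + 1) ∧ ∀ k, k ≠ i → y k = x k := Iff.rfl

theorem lat_adj_update (x : Pt d) (i : Fin d) (t : ℤ) (h : t = x i + 1 ∨ x i = t + 1) :
    (lat d).Adj x (Function.update x i t) :=
  ⟨i, by simpa using h, fun k hk => Function.update_of_ne hk _ _⟩

theorem eq_update_of {x y : Pt d} {i : Fin d} (h : ∀ k, k ≠ i → y k = x k) :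
    y = Function.update x i (y i) := by
  funext k
  by_cases hk : k = i
  · subst hk; simp
  · rw [Function.update_of_ne hk, h k hk]

theorem lat_adj_coord {x y : Pt d} (h : (lat d).Adj x y) (k : Fin d) :
    y k = x k ∨ y k = x k + 1 ∨ x k = y k + 1 := by
  obtain ⟨i, h1, h2⟩ := h
  by_cases hk : k = i
  · subst hk; tauto
  · exact Or.inl (h2 k hk)

theorem lat_adj_other {x y : Pt d} (h : (lat d).Adj x y) {i : Fin d} (hi : y i ≠ x i) :
    ∀ k, k ≠ i → y k = x k := by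
  obtain ⟨j, h1, h2⟩ := h
  intro k hk
  by_cases hj : i = j
  · subst hj; exact h2 k hk
  · exact absurd (h2 i hj) hi

/-- ordered adjacent pairs with first point in S -/
def outPairs (S : Set (Pt d)) : Set (Pt d × Pt d) := {p | p.1 ∈ S ∧ (lat d).Adj p.1 p.2}

theorem outPairs_subset (S : Set (Pt d)) : outPairs S ⊆
    (fun q : Pt d × (Fin d × Bool) =>
      (q.1, Function.update q.1 q.2.1 (if q.2.2 then q.1 q.2.1 + 1 else q.1 q.2.1 - 1))) ''
      (S ×ˢ (univ : Set (Fin d × Bool))) := by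
  rintro ⟨x, y⟩ ⟨hx, i, h1, h2⟩
  simp only at hx h1 h2
  have e := eq_update_of h2
  rcases h1 with h1 | h1
  · refine ⟨(x, (i, true)), ⟨hx, trivial⟩, ?_⟩
    simp only [if_true, Prod.mk.injEq, true_and]
    rw [← h1]; exact e.symm
  · refine ⟨(x, (i, false)), ⟨hx, trivial⟩, ?_⟩
    simp only [Bool.false_eq_true, if_false, Prod.mk.injEq, true_and]
    rw [show x i - 1 = y i by omega]; exact e.symm

theorem outPairs_finite {S : Set (Pt d)} (hS : S.Finite) : (outPairs S).Finite :=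
  ((hS.prod finite_univ).image _).subset (outPairs_subset S)

theorem outPairs_ncard {S : Set (Pt d)} (hS : S.Finite) :
    (outPairs S).ncard ≤ 2 * d * S.ncard := by
  refine (ncard_le_ncard (outPairs_subset S) ((hS.prod finite_univ).image _)).trans ?_
  refine (ncard_image_le (hS.prod finite_univ)).trans ?_
  rw [ncard_prod, ncard_univ]
  simp only [Nat.card_eq_fintype_card, Fintype.card_prod, Fintype.card_fin, Fintype.card_bool]
  exact le_of_eq (by ring)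

/-- ordered adjacent pairs inside S -/
def bondSet (S : Set (Pt d)) : Set (Pt d × Pt d) :=
  {p | p.1 ∈ S ∧ p.2 ∈ S ∧ (lat d).Adj p.1 p.2}

noncomputable def bonds (S : Set (Pt d)) : ℕ := (bondSet S).ncard

theorem bondSet_finite {S : Set (Pt d)} (hS : S.Finite) : (bondSet S).Finite :=
  (outPairs_finite hS).subset (fun _ h => ⟨h.1, h.2.2⟩)

theorem bonds_le {S : Set (Pt d)} (hS : S.Finite) : bonds S ≤ 2 * d * S.ncard :=
  (ncard_le_ncard (show bondSet S ⊆ outPairs S from fun _ h => ⟨h.1, h.2.2⟩)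
    (outPairs_finite hS)).trans (outPairs_ncard hS)

theorem bonds_mono {S T : Set (Pt d)} (h : S ⊆ T) (hT : T.Finite) : bonds S ≤ bonds T :=
  ncard_le_ncard (fun _ hp => ⟨h hp.1, h hp.2.1, hp.2.2⟩) (bondSet_finite hT)

theorem bonds_union {S T : Set (Pt d)} (h : Disjoint S T) (hS : S.Finite) (hT : T.Finite) :
    bonds S + bonds T ≤ bonds (S ∪ T) := by
  unfold bonds
  rw [← ncard_union_eq _ (bondSet_finite hS) (bondSet_finite hT)]
  · refine ncard_le_ncard ?_ (bondSet_finite (hS.union hT))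
    rintro p (hp | hp)
    · exact ⟨Or.inl hp.1, Or.inl hp.2.1, hp.2.2⟩
    · exact ⟨Or.inr hp.1, Or.inr hp.2.1, hp.2.2⟩
  · exact disjoint_left.2 fun p hp hq => disjoint_left.1 h hp.1 hq.1

/-- lattice automorphisms, as bijections preserving adjacency -/
structure IsAut (σ : Pt d → Pt d) : Prop where
  bij : Function.Bijective σ
  adj : ∀ x y, (lat d).Adj (σ x) (σ y) ↔ (lat d).Adj x y

theorem ncard_preimage_bij {α β : Type*} {f : α → β} (hf : Function.Bijective f) (S : Set β) :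
    (f ⁻¹' S).ncard = S.ncard := by
  unfold Set.ncard
  rw [encard_preimage_of_bijective hf]

theorem IsAut.bonds_preimage {σ : Pt d → Pt d} (h : IsAut σ) (S : Set (Pt d)) :
    bonds (σ ⁻¹' S) = bonds S := by
  have : bondSet (σ ⁻¹' S) = Prod.map σ σ ⁻¹' bondSet S := by
    ext ⟨x, y⟩
    simp [bondSet, h.adj]
  unfold bonds
  rw [this, ncard_preimage_bij (h.bij.prodMap h.bij)]

/-- the vertex v has exactly two neighbours -/
def Two {V : Type*} (G : SimpleGraph V) (v : V) : Prop :=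
  ∃ a b, a ≠ b ∧ ∀ w, G.Adj v w ↔ w = a ∨ w = b

structure Piece (R : Set (Pt d)) (G : SimpleGraph (Pt d)) : Prop where
  le : G ≤ lat d
  fin : G.support.Finite
  two : ∀ v ∈ R, v ∈ G.support → Two G v
  inR : ∀ v w, G.Adj v w → v ∈ R ∨ w ∈ R

def cross (R : Set (Pt d)) (G : SimpleGraph (Pt d)) : Set (Pt d × Pt d) :=
  {p | G.Adj p.1 p.2 ∧ p.2 ∉ R}

def Anch {V : Type*} (X : Set V) (G : SimpleGraph V) : Prop :=
  ∀ v ∈ G.support, ∃ x ∈ X, G.Reachable v x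

structure Fam (R : Set (Pt d)) (T : Set (Pt d × Pt d)) (N : ℕ) (X : Set (Pt d))
    (F : Finset (SimpleGraph (Pt d))) : Prop where
  piece : ∀ G ∈ F, Piece R G
  cr : ∀ G ∈ F, cross R G = T
  mass : ∀ G ∈ F, (G.support ∩ R).ncard = N
  anch : ∀ G ∈ F, Anch X G

noncomputable def W (γ : ℝ) (R : Set (Pt d)) (F : Finset (SimpleGraph (Pt d))) : ℝ :=
  ∑ G ∈ F, Real.exp (γ * bonds (G.support ∩ R))

theorem W_nonneg (γ : ℝ) (R : Set (Pt d)) (F : Finset (SimpleGraph (Pt d))) : 0 ≤ W γ R F :=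
  Finset.sum_nonneg fun _ _ => (Real.exp_pos _).le

theorem one_le_W {γ : ℝ} (hγ : 0 ≤ γ) (R : Set (Pt d)) {F : Finset (SimpleGraph (Pt d))}
    (hF : F.Nonempty) : 1 ≤ W γ R F := by
  obtain ⟨G, hG⟩ := hF
  refine le_trans ?_ (Finset.single_le_sum (f := fun G : SimpleGraph (Pt d) =>
    Real.exp (γ * bonds (G.support ∩ R))) (fun _ _ => (Real.exp_pos _).le) hG)
  exact Real.one_le_exp (by positivity)

theorem mem_supp {V : Type*} {G : SimpleGraph V} {v : V} : v ∈ G.support ↔ ∃ w, G.Adj v w :=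
  SimpleGraph.mem_support G

theorem Piece.cross_finite {R : Set (Pt d)} {G : SimpleGraph (Pt d)} (h : Piece R G) :
    (cross R G).Finite :=
  (h.fin.prod h.fin).subset fun _ hp => ⟨mem_supp.2 ⟨_, hp.1⟩, mem_supp.2 ⟨_, hp.1.symm⟩⟩

/-! ### Gluing -/

section glue
variable {R₁ R₂ : Set (Pt d)} {G₁ G₂ : SimpleGraph (Pt d)}

theorem glue_adj (hd : Disjoint R₁ R₂) (h₂ : Piece R₂ G₂)
    (hc : ∀ v ∈ R₁, ∀ w ∈ R₂, G₂.Adj v w → G₁.Adj v w) {v : Pt d} (hv : v ∈ R₁) (w : Pt d) :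
    (G₁ ⊔ G₂).Adj v w ↔ G₁.Adj v w := by
  rw [SimpleGraph.sup_adj]
  refine ⟨?_, Or.inl⟩
  rintro (h | h)
  · exact h
  · rcases h₂.inR v w h with h' | h'
    · exact absurd h' (disjoint_left.1 hd hv)
    · exact hc v hv w h' h

theorem glue_adj' (hd : Disjoint R₁ R₂) (h₁ : Piece R₁ G₁)
    (hc : ∀ v ∈ R₁, ∀ w ∈ R₂, G₁.Adj v w → G₂.Adj v w) {v : Pt d} (hv : v ∈ R₂) (w : Pt d) :
    (G₁ ⊔ G₂).Adj v w ↔ G₂.Adj v w := by
  rw [sup_comm]
  exact glue_adj hd.symm h₁ (fun v hv w hw h => (hc w hw v hv h.symm).symm) hv w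

theorem supp_sup {V : Type*} (G₁ G₂ : SimpleGraph V) :
    (G₁ ⊔ G₂).support = G₁.support ∪ G₂.support := by
  ext v
  simp only [mem_supp, SimpleGraph.sup_adj, mem_union, exists_or]

theorem glue_piece (hd : Disjoint R₁ R₂) (h₁ : Piece R₁ G₁) (h₂ : Piece R₂ G₂)
    (hc : ∀ v ∈ R₁, ∀ w ∈ R₂, G₁.Adj v w ↔ G₂.Adj v w) : Piece (R₁ ∪ R₂) (G₁ ⊔ G₂) where
  le := sup_le h₁.le h₂.le
  fin := by rw [supp_sup]; exact h₁.fin.union h₂.fin
  two := by
    rintro v (hv | hv) hs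
    · have e := glue_adj hd h₂ (fun v hv w hw => (hc v hv w hw).2) hv
      obtain ⟨w, hw⟩ := mem_supp.1 hs
      obtain ⟨a, b, hab, h⟩ := h₁.two v hv (mem_supp.2 ⟨w, (e w).1 hw⟩)
      exact ⟨a, b, hab, fun w => (e w).trans (h w)⟩
    · have e := glue_adj' hd h₁ (fun v hv w hw => (hc v hv w hw).1) hv
      obtain ⟨w, hw⟩ := mem_supp.1 hs
      obtain ⟨a, b, hab, h⟩ := h₂.two v hv (mem_supp.2 ⟨w, (e w).1 hw⟩)
      exact ⟨a, b, hab, fun w => (e w).trans (h w)⟩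
  inR := by
    rintro v w (h | h)
    · rcases h₁.inR v w h with h | h
      · exact Or.inl (Or.inl h)
      · exact Or.inr (Or.inl h)
    · rcases h₂.inR v w h with h | h
      · exact Or.inl (Or.inr h)
      · exact Or.inr (Or.inr h)

theorem glue_supp (hd : Disjoint R₁ R₂) (h₁ : Piece R₁ G₁) (h₂ : Piece R₂ G₂)
    (hc : ∀ v ∈ R₁, ∀ w ∈ R₂, G₁.Adj v w ↔ G₂.Adj v w) :
    (G₁ ⊔ G₂).support ∩ (R₁ ∪ R₂) = (G₁.support ∩ R₁) ∪ (G₂.support ∩ R₂) := by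
  ext v
  simp only [mem_inter_iff, mem_union, mem_supp]
  constructor
  · rintro ⟨⟨w, hw⟩, hv | hv⟩
    · exact Or.inl ⟨⟨w, (glue_adj hd h₂ (fun v hv w hw => (hc v hv w hw).2) hv w).1 hw⟩, hv⟩
    · exact Or.inr ⟨⟨w, (glue_adj' hd h₁ (fun v hv w hw => (hc v hv w hw).1) hv w).1 hw⟩, hv⟩
  · rintro (⟨⟨w, hw⟩, hv⟩ | ⟨⟨w, hw⟩, hv⟩)
    · exact ⟨⟨w, Or.inl hw⟩, Or.inl hv⟩
    · exact ⟨⟨w, Or.inr hw⟩, Or.inr hv⟩

theorem glue_cross (G₁ G₂ : SimpleGraph (Pt d)) : cross (R₁ ∪ R₂) (G₁ ⊔ G₂) =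
    {p | p ∈ cross R₁ G₁ ∧ p.2 ∉ R₂} ∪ {p | p ∈ cross R₂ G₂ ∧ p.2 ∉ R₁} := by
  ext p
  simp only [cross, SimpleGraph.sup_adj, mem_union, mem_ofPred_eq]
  tauto

theorem Piece.eq_of_adj {R : Set (Pt d)} {G G' : SimpleGraph (Pt d)} (h : Piece R G)
    (h' : Piece R G') (e : ∀ v ∈ R, ∀ w, G.Adj v w ↔ G'.Adj v w) : G = G' := by
  ext v w
  constructor
  · intro hvw
    rcases h.inR v w hvw with hv | hw
    · exact (e v hv w).1 hvw
    · exact ((e w hw v).1 hvw.symm).symm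
  · intro hvw
    rcases h'.inR v w hvw with hv | hw
    · exact (e v hv w).2 hvw
    · exact ((e w hw v).2 hvw.symm).symm

theorem Anch.sup {V : Type*} {X₁ X₂ : Set V} {G₁ G₂ : SimpleGraph V} (h₁ : Anch X₁ G₁)
    (h₂ : Anch X₂ G₂) : Anch (X₁ ∪ X₂) (G₁ ⊔ G₂) := by
  intro v hv
  rw [supp_sup] at hv
  rcases hv with hv | hv
  · obtain ⟨x, hx, h⟩ := h₁ v hv
    exact ⟨x, Or.inl hx, h.mono le_sup_left⟩
  · obtain ⟨x, hx, h⟩ := h₂ v hv
    exact ⟨x, Or.inr hx, h.mono le_sup_right⟩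

theorem Anch.mono {V : Type*} {X Y : Set V} {G : SimpleGraph V} (h : Anch X G) (hXY : X ⊆ Y) :
    Anch Y G := fun v hv => by
  obtain ⟨x, hx, h⟩ := h v hv
  exact ⟨x, hXY hx, h⟩

end glue

noncomputable def glueF (F₁ F₂ : Finset (SimpleGraph (Pt d))) : Finset (SimpleGraph (Pt d)) :=
  (F₁ ×ˢ F₂).image (fun p => p.1 ⊔ p.2)

theorem mem_glueF {F₁ F₂ : Finset (SimpleGraph (Pt d))} {G : SimpleGraph (Pt d)} :
    G ∈ glueF F₁ F₂ ↔ ∃ G₁ ∈ F₁, ∃ G₂ ∈ F₂, G = G₁ ⊔ G₂ := by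
  simp only [glueF, Finset.mem_image, Finset.mem_product, Prod.exists]
  constructor
  · rintro ⟨a, b, ⟨ha, hb⟩, rfl⟩; exact ⟨a, ha, b, hb, rfl⟩
  · rintro ⟨a, ha, b, hb, rfl⟩; exact ⟨a, b, ⟨ha, hb⟩, rfl⟩

theorem glue_W {γ : ℝ} (hγ : 0 ≤ γ) {R₁ R₂ : Set (Pt d)} {F₁ F₂ : Finset (SimpleGraph (Pt d))}
    (hd : Disjoint R₁ R₂) (h₁ : ∀ G ∈ F₁, Piece R₁ G) (h₂ : ∀ G ∈ F₂, Piece R₂ G)
    (hc : ∀ G₁ ∈ F₁, ∀ G₂ ∈ F₂, ∀ v ∈ R₁, ∀ w ∈ R₂, G₁.Adj v w ↔ G₂.Adj v w) :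
    W γ R₁ F₁ * W γ R₂ F₂ ≤ W γ (R₁ ∪ R₂) (glueF F₁ F₂) := by
  unfold W glueF
  rw [Finset.sum_image, Finset.sum_product, Finset.sum_mul_sum]
  · refine Finset.sum_le_sum fun G₁ hG₁ => Finset.sum_le_sum fun G₂ hG₂ => ?_
    rw [← Real.exp_add, Real.exp_le_exp, ← mul_add]
    refine mul_le_mul_of_nonneg_left ?_ hγ
    simp only
    rw [glue_supp hd (h₁ _ hG₁) (h₂ _ hG₂) (hc _ hG₁ _ hG₂)]
    exact_mod_cast bonds_union (hd.mono inter_subset_right inter_subset_right)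
      ((h₁ _ hG₁).fin.inter_of_left _) ((h₂ _ hG₂).fin.inter_of_left _)
  · rintro ⟨G₁, G₂⟩ hG ⟨G₁', G₂'⟩ hG' e
    simp only [Finset.coe_product, mem_prod, Finset.mem_coe] at hG hG'
    simp only at e
    refine Prod.ext ?_ ?_
    · refine (h₁ _ hG.1).eq_of_adj (h₁ _ hG'.1) fun v hv w => ?_
      rw [← glue_adj hd (h₂ _ hG.2) (fun v hv w hw => (hc _ hG.1 _ hG.2 v hv w hw).2) hv w, e,
        glue_adj hd (h₂ _ hG'.2) (fun v hv w hw => (hc _ hG'.1 _ hG'.2 v hv w hw).2) hv w]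
    · refine (h₂ _ hG.2).eq_of_adj (h₂ _ hG'.2) fun v hv w => ?_
      rw [← glue_adj' hd (h₁ _ hG.1) (fun v hv w hw => (hc _ hG.1 _ hG.2 v hv w hw).1) hv w, e,
        glue_adj' hd (h₁ _ hG'.1) (fun v hv w hw => (hc _ hG'.1 _ hG'.2 v hv w hw).1) hv w]

theorem glue_fam {R₁ R₂ : Set (Pt d)} {T₁ T₂ : Set (Pt d × Pt d)} {N₁ N₂ : ℕ}
    {X₁ X₂ X : Set (Pt d)} {F₁ F₂ : Finset (SimpleGraph (Pt d))}
    (hd : Disjoint R₁ R₂) (h₁ : Fam R₁ T₁ N₁ X₁ F₁) (h₂ : Fam R₂ T₂ N₂ X₂ F₂)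
    (hc : ∀ G₁ ∈ F₁, ∀ G₂ ∈ F₂, ∀ v ∈ R₁, ∀ w ∈ R₂, G₁.Adj v w ↔ G₂.Adj v w)
    (hX : ∀ G₁ ∈ F₁, ∀ G₂ ∈ F₂, Anch X (G₁ ⊔ G₂)) :
    Fam (R₁ ∪ R₂) ({p | p ∈ T₁ ∧ p.2 ∉ R₂} ∪ {p | p ∈ T₂ ∧ p.2 ∉ R₁}) (N₁ + N₂) X
      (glueF F₁ F₂) where
  piece := by
    intro G hG
    obtain ⟨G₁, hG₁, G₂, hG₂, rfl⟩ := mem_glueF.1 hG
    exact glue_piece hd (h₁.piece _ hG₁) (h₂.piece _ hG₂) (hc _ hG₁ _ hG₂)
  cr := by
    intro G hG
    obtain ⟨G₁, hG₁, G₂, hG₂, rfl⟩ := mem_glueF.1 hG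
    rw [glue_cross, h₁.cr _ hG₁, h₂.cr _ hG₂]
  mass := by
    intro G hG
    obtain ⟨G₁, hG₁, G₂, hG₂, rfl⟩ := mem_glueF.1 hG
    rw [glue_supp hd (h₁.piece _ hG₁) (h₂.piece _ hG₂) (hc _ hG₁ _ hG₂),
      ncard_union_eq (hd.mono inter_subset_right inter_subset_right)
        ((h₁.piece _ hG₁).fin.inter_of_left _) ((h₂.piece _ hG₂).fin.inter_of_left _),
      h₁.mass _ hG₁, h₂.mass _ hG₂]
  anch := by
    intro G hG
    obtain ⟨G₁, hG₁, G₂, hG₂, rfl⟩ := mem_glueF.1 hG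
    exact hX _ hG₁ _ hG₂

/-! ### Symmetries -/

theorem supp_comap {σ : Pt d → Pt d} (h : IsAut σ) (G : SimpleGraph (Pt d)) :
    (G.comap σ).support = σ ⁻¹' G.support := by
  ext v
  simp only [mem_supp, SimpleGraph.comap_adj, mem_preimage]
  constructor
  · rintro ⟨w, hw⟩; exact ⟨_, hw⟩
  · rintro ⟨w, hw⟩
    obtain ⟨w', rfl⟩ := h.bij.2 w
    exact ⟨w', hw⟩

theorem Piece.comap {σ : Pt d → Pt d} (h : IsAut σ) {R : Set (Pt d)} {G : SimpleGraph (Pt d)}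
    (hG : Piece R G) : Piece (σ ⁻¹' R) (G.comap σ) where
  le := fun x y hxy => (h.adj x y).1 (hG.le hxy)
  fin := by rw [supp_comap h]; exact hG.fin.preimage h.bij.1.injOn
  two := by
    intro v hv hs
    rw [supp_comap h] at hs
    obtain ⟨a, b, hab, e⟩ := hG.two _ hv hs
    obtain ⟨a, rfl⟩ := h.bij.2 a
    obtain ⟨b, rfl⟩ := h.bij.2 b
    refine ⟨a, b, fun e => hab (e ▸ rfl), fun w => ?_⟩
    rw [SimpleGraph.comap_adj, e, h.bij.1.eq_iff, h.bij.1.eq_iff]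
  inR := fun v w hvw => hG.inR _ _ hvw

theorem reach_comap {σ : Pt d → Pt d} (h : IsAut σ) {G : SimpleGraph (Pt d)} {u v : Pt d}
    (hr : G.Reachable (σ u) (σ v)) : (G.comap σ).Reachable u v := by
  have key : ∀ x y, G.Reachable x y → ∀ u v, σ u = x → σ v = y → (G.comap σ).Reachable u v := by
    intro x y hxy
    rw [SimpleGraph.reachable_iff_reflTransGen] at hxy
    induction hxy with
    | refl => intro u v hu hv; rw [h.bij.1 (hu.trans hv.symm)]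
    | tail _ hbc ih =>
      intro u v hu hv
      obtain ⟨b', hb'⟩ := h.bij.2 _
      refine (ih u b' hu hb').trans (SimpleGraph.Adj.reachable ?_)
      rw [SimpleGraph.comap_adj, hb', hv]; exact hbc
  exact key _ _ hr u v rfl rfl

theorem Anch.comap {σ : Pt d → Pt d} (h : IsAut σ) {X : Set (Pt d)} {G : SimpleGraph (Pt d)}
    (hG : Anch X G) : Anch (σ ⁻¹' X) (G.comap σ) := by
  intro v hv
  rw [supp_comap h] at hv
  obtain ⟨x, hx, hr⟩ := hG _ hv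
  obtain ⟨x, rfl⟩ := h.bij.2 x
  exact ⟨x, hx, reach_comap h hr⟩

noncomputable def comapF (σ : Pt d → Pt d) (F : Finset (SimpleGraph (Pt d))) :
    Finset (SimpleGraph (Pt d)) := F.image (fun G => G.comap σ)

theorem mem_comapF {σ : Pt d → Pt d} {F : Finset (SimpleGraph (Pt d))} {G : SimpleGraph (Pt d)} :
    G ∈ comapF σ F ↔ ∃ G₁ ∈ F, G = G₁.comap σ := by
  simp only [comapF, Finset.mem_image]
  constructor
  · rintro ⟨a, ha, rfl⟩; exact ⟨a, ha, rfl⟩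
  · rintro ⟨a, ha, rfl⟩; exact ⟨a, ha, rfl⟩

theorem Fam.comap {σ : Pt d → Pt d} (h : IsAut σ) {R : Set (Pt d)} {T : Set (Pt d × Pt d)}
    {N : ℕ} {X : Set (Pt d)} {F : Finset (SimpleGraph (Pt d))} (hF : Fam R T N X F) :
    Fam (σ ⁻¹' R) (Prod.map σ σ ⁻¹' T) N (σ ⁻¹' X) (comapF σ F) where
  piece := by
    intro G' hG'
    obtain ⟨G, hG, rfl⟩ := mem_comapF.1 hG'
    exact (hF.piece _ hG).comap h
  cr := by
    intro G' hG'
    obtain ⟨G, hG, rfl⟩ := mem_comapF.1 hG'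
    rw [← hF.cr _ hG]; rfl
  mass := by
    intro G' hG'
    obtain ⟨G, hG, rfl⟩ := mem_comapF.1 hG'
    rw [supp_comap h, ← preimage_inter, ncard_preimage_bij h.bij, hF.mass _ hG]
  anch := by
    intro G' hG'
    obtain ⟨G, hG, rfl⟩ := mem_comapF.1 hG'
    exact (hF.anch _ hG).comap h

theorem W_comap {σ : Pt d → Pt d} (h : IsAut σ) (γ : ℝ) (R : Set (Pt d))
    (F : Finset (SimpleGraph (Pt d))) : W γ (σ ⁻¹' R) (comapF σ F) = W γ R F := by
  unfold W comapF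
  rw [Finset.sum_image]
  · refine Finset.sum_congr rfl fun G _ => ?_
    rw [supp_comap h, ← preimage_inter, h.bonds_preimage]
  · intro G _ G' _ e
    ext v w
    obtain ⟨v, rfl⟩ := h.bij.2 v
    obtain ⟨w, rfl⟩ := h.bij.2 w
    simp only at e
    rw [← SimpleGraph.comap_adj, e, SimpleGraph.comap_adj]

/-- reflection of coordinate i: t goes to c - t -/
def refl (i : Fin d) (c : ℤ) (x : Pt d) : Pt d := Function.update x i (c - x i)

@[simp] theorem refl_self (i : Fin d) (c : ℤ) (x : Pt d) : refl i c x i = c - x i := by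
  simp [refl]

theorem refl_ne {i k : Fin d} (c : ℤ) (x : Pt d) (h : k ≠ i) : refl i c x k = x k := by
  simp [refl, Function.update_of_ne h]

theorem refl_refl (i : Fin d) (c : ℤ) (x : Pt d) : refl i c (refl i c x) = x := by
  funext k
  by_cases hk : k = i
  · subst hk; simp
  · rw [refl_ne _ _ hk, refl_ne _ _ hk]

theorem refl_adj (i : Fin d) (c : ℤ) {x y : Pt d} (h : (lat d).Adj x y) :
    (lat d).Adj (refl i c x) (refl i c y) := by
  obtain ⟨j, h1, h2⟩ := h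
  refine ⟨j, ?_, fun k hk => ?_⟩
  · by_cases hj : j = i
    · subst hj; simp only [refl_self]; omega
    · rw [refl_ne _ _ hj, refl_ne _ _ hj]; exact h1
  · by_cases hi : k = i
    · subst hi; simp only [refl_self]; rw [h2 k hk]
    · rw [refl_ne _ _ hi, refl_ne _ _ hi]; exact h2 k hk

theorem refl_aut (i : Fin d) (c : ℤ) : IsAut (refl i c : Pt d → Pt d) where
  bij := (Function.Involutive.bijective (refl_refl i c))
  adj := fun x y => ⟨fun h => by simpa [refl_refl] using refl_adj i c h, refl_adj i c⟩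

/-- adjacent points on the two sides of a wall are mirror images -/
theorem refl_eq_of_adj {i : Fin d} {h : ℤ} {v w : Pt d} (hvw : (lat d).Adj v w)
    (hv : v i ≤ h) (hw : h < w i) : refl i (2 * h + 1) v = w ∧ refl i (2 * h + 1) w = v := by
  have h1 := lat_adj_coord hvw i
  have h2 := lat_adj_other hvw (i := i) (by omega)
  have : refl i (2 * h + 1) v = w := by
    funext k
    by_cases hk : k = i
    · subst hk; simp only [refl_self]; omega
    · rw [refl_ne _ _ hk, h2 k hk]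
  exact ⟨this, by rw [← this, refl_refl]⟩

/-! ### Shrinking the region -/

theorem Fam.shrink {R R' : Set (Pt d)} {T : Set (Pt d × Pt d)} {N : ℕ} {X : Set (Pt d)}
    {F : Finset (SimpleGraph (Pt d))} (hF : Fam R T N X F) (hR : R' ⊆ R)
    (hs : ∀ G ∈ F, G.support ∩ R ⊆ R') : Fam R' T N X F ∧ ∀ γ, W γ R' F = W γ R F := by
  have e : ∀ G ∈ F, G.support ∩ R' = G.support ∩ R := fun G hG =>
    Subset.antisymm (inter_subset_inter_right _ hR) fun v hv => ⟨hv.1, hs G hG hv⟩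
  refine ⟨⟨fun G hG => ⟨(hF.piece G hG).le, (hF.piece G hG).fin,
    fun v hv => (hF.piece G hG).two v (hR hv), fun v w hvw => ?_⟩, fun G hG => ?_,
    fun G hG => by rw [e G hG, hF.mass G hG], hF.anch⟩, fun γ => ?_⟩
  · rcases (hF.piece G hG).inR v w hvw with h | h
    · exact Or.inl (hs G hG ⟨mem_supp.2 ⟨w, hvw⟩, h⟩)
    · exact Or.inr (hs G hG ⟨mem_supp.2 ⟨v, hvw.symm⟩, h⟩)
  · rw [← hF.cr G hG]
    ext p
    exact ⟨fun hp => ⟨hp.1, fun h => hp.2 (hs G hG ⟨mem_supp.2 ⟨_, hp.1.symm⟩, h⟩)⟩,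
      fun hp => ⟨hp.1, fun h => hp.2 (hR h)⟩⟩
  · exact Finset.sum_congr rfl fun G hG => by rw [e G hG]

end Pool.Agent.P.MP_86995c_pr
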