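import Pool.Agent.P.MP_86995c_pr.Basic

/-!
Doubling a family across a wall and chaining mirror images of a slab family.
-/

set_option autoImplicit false
open Classical Set

namespace Pool.Agent.P.MP_86995c_pr

variable {d : ℕ}

theorem mirror_compat {i : Fin d} {h : ℤ} {G₁ G₂ : SimpleGraph (Pt d)} (l₁ : G₁ ≤ lat d)
    (l₂ : G₂ ≤ lat d) {v w : Pt d} (hv : v i ≤ h) (hw : h < w i)
    (e : G₁.Adj v w ↔ G₂.Adj v w) :
    G₁.Adj v w ↔ (G₂.comap (refl i (2 * h + 1))).Adj v w := by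
  rw [SimpleGraph.comap_adj]
  constructor
  · intro h1
    obtain ⟨e1, e2⟩ := refl_eq_of_adj (l₁ h1) hv hw
    rw [e1, e2]; exact (e.1 h1).symm
  · intro h1
    obtain ⟨e1, e2⟩ := refl_eq_of_adj (((refl_aut i _).adj v w).1 (l₂ h1)) hv hw
    rw [e1, e2] at h1; exact e.2 h1.symm

theorem Fam.adj_iff {R : Set (Pt d)} {T : Set (Pt d × Pt d)} {N : ℕ} {X : Set (Pt d)}
    {F : Finset (SimpleGraph (Pt d))} (hF : Fam R T N X F) {G : SimpleGraph (Pt d)} (hG : G ∈ F)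
    (v : Pt d) {w : Pt d} (hw : w ∉ R) : G.Adj v w ↔ (v, w) ∈ T := by
  rw [← hF.cr G hG]
  exact ⟨fun h => ⟨h, hw⟩, fun h => h.1⟩

theorem double_fam {γ : ℝ} (hγ : 0 ≤ γ) {i : Fin d} {h : ℤ} {H : Set (Pt d)}
    (hH : ∀ x, refl i (2 * h + 1) x ∈ H ↔ x ∈ H) {T : Set (Pt d × Pt d)} {N : ℕ}
    {X : Set (Pt d)} {F : Finset (SimpleGraph (Pt d))}
    (hF : Fam (H ∩ {x | x i ≤ h}) T N X F) :
    ∃ T' F', Fam H T' (N + N) (X ∪ refl i (2 * h + 1) ⁻¹' X) F' ∧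
      W γ (H ∩ {x | x i ≤ h}) F ^ 2 ≤ W γ H F' := by
  set r := refl i (2 * h + 1) with hr
  have hF' := hF.comap (refl_aut i (2 * h + 1))
  have hW := W_comap (refl_aut i (2 * h + 1)) γ (H ∩ {x | x i ≤ h}) F
  rw [← hr] at hF' hW
  have eR : r ⁻¹' (H ∩ {x | x i ≤ h}) = H ∩ {x | h < x i} := by
    ext x
    simp only [mem_preimage, mem_inter_iff, mem_ofPred_eq, hH]
    simp only [hr, refl_self]
    constructor <;> rintro ⟨a, b⟩ <;> exact ⟨a, by omega⟩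
  rw [eR] at hF' hW
  have hd : Disjoint (H ∩ {x | x i ≤ h}) (H ∩ {x | h < x i}) :=
    disjoint_left.2 fun x h1 h2 => by
      have a := h1.2; have b := h2.2; simp only [mem_ofPred_eq] at a b; omega
  have hU : (H ∩ {x | x i ≤ h}) ∪ (H ∩ {x | h < x i}) = H := by
    ext x
    simp only [mem_union, mem_inter_iff, mem_ofPred_eq]
    constructor
    · rintro (h | h) <;> exact h.1
    · intro hx; rcases le_or_gt (x i) h with h' | h'
      · exact Or.inl ⟨hx, h'⟩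
      · exact Or.inr ⟨hx, h'⟩
  have hc : ∀ G₁ ∈ F, ∀ G₂ ∈ comapF r F, ∀ v ∈ H ∩ {x | x i ≤ h}, ∀ w ∈ H ∩ {x | h < x i},
      G₁.Adj v w ↔ G₂.Adj v w := by
    intro G₁ hG₁ G₂ hG₂ v hv w hw
    obtain ⟨G₂, hG₂', rfl⟩ := mem_comapF.1 hG₂
    have hw' : w ∉ H ∩ {x | x i ≤ h} := fun h' => disjoint_left.1 hd h' hw
    exact mirror_compat (hF.piece _ hG₁).le (hF.piece _ hG₂').le hv.2 hw.2
      ((hF.adj_iff hG₁ v hw').trans (hF.adj_iff hG₂' v hw').symm)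
  have h1 := glue_fam hd hF hF' hc (fun G₁ hG₁ G₂ hG₂ => (hF.anch _ hG₁).sup (hF'.anch _ hG₂))
  have h2 := glue_W hγ hd hF.piece hF'.piece hc
  rw [hU] at h1 h2
  exact ⟨_, _, h1, by rw [sq]; rw [hW] at h2; exact h2⟩

/-- uniform exponential bound for all families on the region R -/
def Bd (γ K g C : ℝ) (R : Set (Pt d)) : Prop :=
  ∀ (T : Set (Pt d × Pt d)) (N : ℕ) (X : Set (Pt d)) (F : Finset (SimpleGraph (Pt d))),
    X.Finite → Fam R T N X F → W γ R F ≤ K * Real.exp (g * N + C * X.ncard)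

theorem Bd.half_le {γ K g C : ℝ} (hγ : 0 ≤ γ) (hK : 1 ≤ K) (hC : 0 ≤ C) {i : Fin d} {h : ℤ}
    {H : Set (Pt d)} (hH : ∀ x, refl i (2 * h + 1) x ∈ H ↔ x ∈ H) (hB : Bd γ K g C H) :
    Bd γ K g C (H ∩ {x | x i ≤ h}) := by
  intro T N X F hX hF
  obtain ⟨T', F', h1, h2⟩ := double_fam hγ hH hF
  have hX' : (refl i (2 * h + 1) ⁻¹' X).Finite := hX.preimage (refl_aut i _).bij.1.injOn
  have h3 := hB _ _ _ _ (hX.union hX') h1
  have h4 : ((X ∪ refl i (2 * h + 1) ⁻¹' X).ncard : ℝ) ≤ 2 * X.ncard := by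
    have := ncard_union_le X (refl i (2 * h + 1) ⁻¹' X)
    rw [ncard_preimage_bij (refl_aut i _).bij] at this
    have : (X ∪ refl i (2 * h + 1) ⁻¹' X).ncard ≤ 2 * X.ncard := by omega
    exact_mod_cast this
  refine le_of_sq_le_sq ?_ (by positivity)
  refine h2.trans (h3.trans ?_)
  rw [mul_pow, ← Real.exp_nat_mul]
  refine mul_le_mul (by nlinarith) (Real.exp_le_exp.2 ?_) (Real.exp_pos _).le (by positivity)
  push_cast
  nlinarith

theorem Bd.comap {γ K g C : ℝ} {σ : Pt d → Pt d} (h : IsAut σ) {R : Set (Pt d)}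
    (hB : Bd γ K g C (σ ⁻¹' R)) : Bd γ K g C R := by
  intro T N X F hX hF
  have := hB _ _ _ _ (hX.preimage h.bij.1.injOn) (hF.comap h)
  rwa [W_comap h, ncard_preimage_bij h.bij] at this

theorem Bd.half_gt {γ K g C : ℝ} (hγ : 0 ≤ γ) (hK : 1 ≤ K) (hC : 0 ≤ C) {i : Fin d} {h : ℤ}
    {H : Set (Pt d)} (hH : ∀ x, refl i (2 * h + 1) x ∈ H ↔ x ∈ H) (hB : Bd γ K g C H) :
    Bd γ K g C (H ∩ {x | h < x i}) := by
  refine Bd.comap (refl_aut i (2 * h + 1)) ?_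
  have eR : refl i (2 * h + 1) ⁻¹' (H ∩ {x | h < x i}) = H ∩ {x | x i ≤ h} := by
    ext x
    simp only [mem_preimage, mem_inter_iff, mem_ofPred_eq, hH, refl_self]
    constructor <;> rintro ⟨a, b⟩ <;> exact ⟨a, by omega⟩
  rw [eR]
  exact hB.half_le hγ hK hC hH

def slab (H : Set (Pt d)) (i : Fin d) (a b : ℤ) : Set (Pt d) := H ∩ {x | a ≤ x i ∧ x i < b}
def lft (H : Set (Pt d)) (i : Fin d) (a : ℤ) : Set (Pt d) := H ∩ {x | x i < a}
def lends (T : Set (Pt d × Pt d)) (i : Fin d) (a : ℤ) : Set (Pt d) :=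
  {w | ∃ v, (v, w) ∈ T ∧ w i < a}
def rends (T : Set (Pt d × Pt d)) (i : Fin d) (b : ℤ) : Set (Pt d) :=
  {w | ∃ v, (v, w) ∈ T ∧ b ≤ w i}

structure SlabFam (H : Set (Pt d)) (i : Fin d) (a b : ℤ) (T : Set (Pt d × Pt d)) (N : ℕ)
    (X : Set (Pt d)) (F : Finset (SimpleGraph (Pt d))) : Prop where
  lt : a < b
  fam : Fam (slab H i a b) T N (X ∪ lends T i a) F
  anchR : ∀ G ∈ F, Anch (X ∪ rends T i b) G
  inH : ∀ p ∈ T, p.2 ∈ H

theorem SlabFam.mirror {H : Set (Pt d)} {i : Fin d} (hH : ∀ c x, refl i c x ∈ H ↔ x ∈ H)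
    {a b : ℤ} {T : Set (Pt d × Pt d)} {N : ℕ} {X : Set (Pt d)}
    {F : Finset (SimpleGraph (Pt d))} (h : SlabFam H i a b T N X F) :
    refl i (2 * (b - 1) + 1) ⁻¹' slab H i a b = slab H i b (b + (b - a)) ∧
    refl i (2 * (b - 1) + 1) ⁻¹' rends T i b =
      lends (Prod.map (refl i (2 * (b - 1) + 1)) (refl i (2 * (b - 1) + 1)) ⁻¹' T) i b ∧
    refl i (2 * (b - 1) + 1) ⁻¹' lends T i a =
      rends (Prod.map (refl i (2 * (b - 1) + 1)) (refl i (2 * (b - 1) + 1)) ⁻¹' T) i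
        (b + (b - a)) ∧
    SlabFam H i b (b + (b - a))
      (Prod.map (refl i (2 * (b - 1) + 1)) (refl i (2 * (b - 1) + 1)) ⁻¹' T) N
      (refl i (2 * (b - 1) + 1) ⁻¹' X) (comapF (refl i (2 * (b - 1) + 1)) F) := by
  set r := refl i (2 * (b - 1) + 1) with hr
  have ha : IsAut r := refl_aut i _
  have e1 : r ⁻¹' slab H i a b = slab H i b (b + (b - a)) := by
    ext x
    simp only [slab, mem_preimage, mem_inter_iff, mem_ofPred_eq, hr, hH, refl_self]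
    constructor <;> rintro ⟨a, b⟩ <;> exact ⟨a, by omega⟩
  have e2 : r ⁻¹' rends T i b = lends (Prod.map r r ⁻¹' T) i b := by
    ext w
    simp only [rends, lends, mem_preimage, mem_ofPred_eq, Prod.map_apply]
    constructor
    · rintro ⟨v, hv, hw⟩
      obtain ⟨v, rfl⟩ := ha.bij.2 v
      exact ⟨v, hv, by simp only [hr, refl_self] at hw; omega⟩
    · rintro ⟨v, hv, hw⟩
      exact ⟨_, hv, by simp only [hr, refl_self]; omega⟩
  have e3 : r ⁻¹' lends T i a = rends (Prod.map r r ⁻¹' T) i (b + (b - a)) := by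
    ext w
    simp only [rends, lends, mem_preimage, mem_ofPred_eq, Prod.map_apply]
    constructor
    · rintro ⟨v, hv, hw⟩
      obtain ⟨v, rfl⟩ := ha.bij.2 v
      exact ⟨v, hv, by simp only [hr, refl_self] at hw; omega⟩
    · rintro ⟨v, hv, hw⟩
      exact ⟨_, hv, by simp only [hr, refl_self]; omega⟩
  refine ⟨e1, e2, e3, ?_, ?_, ?_, ?_⟩
  · have := h.lt; omega
  · have h1 := h.fam.comap ha
    rw [e1] at h1
    refine ⟨h1.piece, h1.cr, h1.mass, fun G hG => ?_⟩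
    obtain ⟨G', hG', rfl⟩ := mem_comapF.1 hG
    have := (h.anchR _ hG').comap ha
    rwa [preimage_union, e2] at this
  · intro G hG
    obtain ⟨G', hG', rfl⟩ := mem_comapF.1 hG
    have := (h.fam.anch _ hG').comap ha
    rwa [preimage_union, e3] at this
  · intro p hp
    exact (hH _ _).1 (h.inH _ hp)

theorem lft_disj (H : Set (Pt d)) (i : Fin d) (a b : ℤ) : Disjoint (lft H i a) (slab H i a b) :=
  disjoint_left.2 fun x h1 h2 => by
    have a := h1.2; have b := h2.2; simp only [mem_ofPred_eq] at a b; omega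

theorem lft_union (H : Set (Pt d)) (i : Fin d) {a b : ℤ} (hab : a < b) :
    lft H i a ∪ slab H i a b = lft H i b := by
  ext x
  simp only [lft, slab, mem_union, mem_inter_iff, mem_ofPred_eq]
  constructor
  · rintro (h | h) <;> exact ⟨h.1, by omega⟩
  · rintro ⟨hx, h⟩; rcases lt_or_ge (x i) a with h' | h'
    · exact Or.inl ⟨hx, h'⟩
    · exact Or.inr ⟨hx, h', h⟩

theorem chain {γ : ℝ} (hγ : 0 ≤ γ) {H : Set (Pt d)} {i : Fin d}
    (hH : ∀ c x, refl i c x ∈ H ↔ x ∈ H) {a b : ℤ} {T TK : Set (Pt d × Pt d)} {N c : ℕ}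
    {X XK : Set (Pt d)} {F FK : Finset (SimpleGraph (Pt d))} (hX : X.Finite) (hXK : XK.Finite)
    (hF : SlabFam H i a b T N X F) (hK : Fam (lft H i a) TK c XK FK)
    (hc : ∀ G₁ ∈ FK, ∀ G₂ ∈ F, ∀ v ∈ lft H i a, ∀ w ∈ slab H i a b, G₁.Adj v w ↔ G₂.Adj v w)
    (k : ℕ) :
    ∃ (a' b' : ℤ) (T' TG : Set (Pt d × Pt d)) (X' XG : Set (Pt d))
      (F' FG : Finset (SimpleGraph (Pt d))),
      SlabFam H i a' b' T' N X' F' ∧ X'.Finite ∧ X'.ncard = X.ncard ∧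
      W γ (slab H i a' b') F' = W γ (slab H i a b) F ∧
      ((F.Nonempty ∧ (lends T i a).Nonempty ∧ (rends T i b).Nonempty) →
        (F'.Nonempty ∧ (lends T' i a').Nonempty ∧ (rends T' i b').Nonempty)) ∧
      Fam (lft H i a') TG (c + k * N) XG FG ∧ XG.Finite ∧ XG.ncard ≤ XK.ncard + k * X.ncard ∧
      (X = ∅ → XG = XK) ∧ (X = ∅ → X' = ∅) ∧
      (∀ G₁ ∈ FG, ∀ G₂ ∈ F', ∀ v ∈ lft H i a', ∀ w ∈ slab H i a' b', G₁.Adj v w ↔ G₂.Adj v w) ∧
      W γ (lft H i a) FK * W γ (slab H i a b) F ^ k ≤ W γ (lft H i a') FG := by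
  induction k with
  | zero =>
    exact ⟨a, b, T, TK, X, XK, F, FK, hF, hX, rfl, rfl, id, by simpa using hK, hXK, by simp,
      fun _ => rfl, id, hc, by simp⟩
  | succ k ih =>
    obtain ⟨a', b', T', TG, X', XG, F', FG, s1, s2, s3, s4, s5, s6, s7, s8, s9, s9', s10, s11⟩ := ih
    obtain ⟨m1, m2, m3, m4⟩ := s1.mirror hH
    set r := refl i (2 * (b' - 1) + 1) with hr
    have ha : IsAut r := refl_aut i _
    have hd := lft_disj H i a' b'
    have hU := lft_union H i s1.lt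
    have hA : ∀ G₁ ∈ FG, ∀ G₂ ∈ F', Anch (XG ∪ X') (G₁ ⊔ G₂) := by
      intro G₁ hG₁ G₂ hG₂ v hv
      have left : ∀ u ∈ G₁.support, ∃ x ∈ XG ∪ X', (G₁ ⊔ G₂).Reachable u x := fun u hu => by
        obtain ⟨x, hx, hr⟩ := s6.anch _ hG₁ u hu
        exact ⟨x, Or.inl hx, hr.mono le_sup_left⟩
      rw [supp_sup] at hv
      rcases hv with hv | hv
      · exact left v hv
      · obtain ⟨x, hx, hr⟩ := s1.fam.anch _ hG₂ v hv
        rcases hx with hx | ⟨u, hu, hx⟩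
        · exact ⟨x, Or.inr hx, hr.mono le_sup_right⟩
        · have hu' := hu
          rw [← s1.fam.cr _ hG₂] at hu'
          have huS : u ∈ slab H i a' b' :=
            ((s1.fam.piece _ hG₂).inR _ _ hu'.1).resolve_right hu'.2
          have : G₁.Adj x u := (s10 _ hG₁ _ hG₂ x ⟨s1.inH _ hu, hx⟩ u huS).2 hu'.1.symm
          obtain ⟨y, hy, hr'⟩ := left x (mem_supp.2 ⟨u, this⟩)
          exact ⟨y, hy, (hr.mono le_sup_right).trans hr'⟩
    have g1 := glue_fam hd s6 s1.fam s10 hA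
    have g2 := glue_W hγ hd s6.piece s1.fam.piece s10
    rw [hU] at g1 g2
    rw [show c + k * N + N = c + (k + 1) * N by ring] at g1
    refine ⟨b', b' + (b' - a'), _, _, r ⁻¹' X', XG ∪ X', comapF r F', glueF FG F', m4,
      s2.preimage ha.bij.1.injOn, by rw [ncard_preimage_bij ha.bij, s3], ?_, ?_, g1,
      s7.union s2, ?_, ?_, ?_, ?_, ?_⟩
    · rw [← m1, W_comap ha, s4]
    · intro hne
      obtain ⟨⟨G, hG⟩, ⟨x, hx⟩, ⟨y, hy⟩⟩ := s5 hne
      obtain ⟨x, rfl⟩ := ha.bij.2 x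
      obtain ⟨y, rfl⟩ := ha.bij.2 y
      exact ⟨⟨_, mem_comapF.2 ⟨G, hG, rfl⟩⟩, ⟨y, m2 ▸ hy⟩, ⟨x, m3 ▸ hx⟩⟩
    · have := ncard_union_le XG X'
      rw [add_mul]; omega
    · intro h; rw [s9 h, s9' h, union_empty]
    · intro h; rw [s9' h, preimage_empty]
    · intro G hG G₃ hG₃ v hv w hw
      obtain ⟨G₁, hG₁, G₂, hG₂, rfl⟩ := mem_glueF.1 hG
      obtain ⟨G₃, hG₃', rfl⟩ := mem_comapF.1 hG₃
      have hv2 : v i < b' := hv.2
      have hw2 : b' ≤ w i := hw.2.1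
      have hw' : w ∉ slab H i a' b' := fun h' => by have := h'.2.2; omega
      have lG := (g1.piece _ hG).le
      refine mirror_compat lG (s1.fam.piece _ hG₃').le (by omega) (by omega) ?_
      have key : (lat d).Adj v w → v ∈ slab H i a' b' := fun h => by
        have := lat_adj_coord h i
        have := s1.lt
        exact ⟨hv.1, by omega, hv2⟩
      have e : v ∈ slab H i a' b' → ((G₁ ⊔ G₂).Adj v w ↔ G₃.Adj v w) := fun hvS => by
        rw [glue_adj' hd (s6.piece _ hG₁) (fun v hv w hw => (s10 _ hG₁ _ hG₂ v hv w hw).1) hvS w,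
          s1.fam.adj_iff hG₂ v hw', s1.fam.adj_iff hG₃' v hw']
      exact ⟨fun h => (e (key (lG h))).1 h,
        fun h => (e (key ((s1.fam.piece _ hG₃').le h))).2 h⟩
    · rw [pow_succ, ← mul_assoc]
      refine le_trans ?_ g2
      rw [s4]
      exact mul_le_mul_of_nonneg_right s11 (W_nonneg _ _ _)

end Pool.Agent.P.MP_86995c_pr
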