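import Pool.Agent.P.MP_86995c_pr.Poly

/-!
Families of loops, counting only the bonds inside each loop.
-/

set_option autoImplicit false
open Classical Set Filter

namespace Pool.Agent.P.MP_86995c_pr

variable {d : ℕ}

def inSet (H : SimpleGraph (Pt d)) : Set (Pt d × Pt d) :=
  {p | p.1 ∈ H.support ∧ (lat d).Adj p.1 p.2 ∧ H.Reachable p.1 p.2}

theorem inSet_finite {H : SimpleGraph (Pt d)} (h : H.support.Finite) : (inSet H).Finite :=
  (outPairs_finite h).subset fun _ hp => ⟨hp.1, hp.2.1⟩

def comp {V : Type*} (H : SimpleGraph V) (x : V) : SimpleGraph V where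
  Adj y z := H.Adj y z ∧ H.Reachable x y
  symm := ⟨fun _ _ h => ⟨h.1.symm, h.2.trans h.1.reachable⟩⟩
  loopless := ⟨fun _ h => h.1.ne rfl⟩

def rest {V : Type*} (H : SimpleGraph V) (x : V) : SimpleGraph V where
  Adj y z := H.Adj y z ∧ ¬ H.Reachable x y
  symm := ⟨fun _ _ h => ⟨h.1.symm, fun h' => h.2 (h'.trans h.1.symm.reachable)⟩⟩
  loopless := ⟨fun _ h => h.1.ne rfl⟩

theorem comp_sup_rest {V : Type*} (H : SimpleGraph V) (x : V) : H = comp H x ⊔ rest H x := by
  ext y z
  simp only [SimpleGraph.sup_adj, comp, rest]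
  tauto

theorem supp_comp {V : Type*} (H : SimpleGraph V) (x : V) :
    (comp H x).support = H.support ∩ {y | H.Reachable x y} := by
  ext y
  simp only [mem_supp, comp, mem_inter_iff, mem_ofPred_eq, exists_and_right]

theorem supp_rest {V : Type*} (H : SimpleGraph V) (x : V) :
    (rest H x).support = H.support \ {y | H.Reachable x y} := by
  ext y
  simp only [mem_supp, rest, Set.mem_sdiff, mem_ofPred_eq, exists_and_right]

theorem comp_piece {H : SimpleGraph (Pt d)} (hH : Piece univ H) (x : Pt d) :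
    Piece univ (comp H x) ∧ Anch {x} (comp H x) := by
  refine ⟨⟨fun _ _ h => hH.le h.1, ?_, fun v _ hv => ?_, fun _ _ _ => Or.inl trivial⟩, ?_⟩
  · rw [supp_comp]; exact hH.fin.inter_of_left _
  · rw [supp_comp] at hv
    obtain ⟨a, b, hab, e⟩ := hH.two v trivial hv.1
    exact ⟨a, b, hab, fun w => (and_iff_left hv.2).trans (e w)⟩
  · intro v hv
    rw [supp_comp] at hv
    exact ⟨x, rfl, (reach_of_local (G' := comp H x) hv.2
      fun b c hb hbc => SimpleGraph.Adj.reachable ⟨hbc, hb⟩).symm⟩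

theorem rest_reach {V : Type*} {H : SimpleGraph V} {x y z : V} (hy : ¬ H.Reachable x y)
    (h : H.Reachable y z) : (rest H x).Reachable y z :=
  reach_of_local h fun _ _ hb hbc =>
    SimpleGraph.Adj.reachable ⟨hbc, fun h' => hy (h'.trans hb.symm)⟩

theorem rest_piece {H : SimpleGraph (Pt d)} (hH : Piece univ H) {x : Pt d} {X : Set (Pt d)}
    (hA : Anch (insert x X) H) : Piece univ (rest H x) ∧ Anch X (rest H x) := by
  refine ⟨⟨fun _ _ h => hH.le h.1, ?_, fun v _ hv => ?_, fun _ _ _ => Or.inl trivial⟩, ?_⟩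
  · rw [supp_rest]; exact hH.fin.subset sdiff_subset
  · rw [supp_rest] at hv
    obtain ⟨a, b, hab, e⟩ := hH.two v trivial hv.1
    exact ⟨a, b, hab, fun w => (and_iff_left hv.2).trans (e w)⟩
  · intro v hv
    rw [supp_rest] at hv
    obtain ⟨y, hy, h⟩ := hA v hv.1
    rcases hy with rfl | hy
    · exact absurd h.symm hv.2
    · exact ⟨y, hy, rest_reach hv.2 h⟩

theorem inSet_split {H : SimpleGraph (Pt d)} (hH : Piece univ H) (x : Pt d) :
    (inSet H).ncard ≤ bonds (comp H x).support + (inSet (rest H x)).ncard ∧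
    H.support.ncard = (comp H x).support.ncard + (rest H x).support.ncard := by
  have f1 := (comp_piece hH x).1.fin
  have f2 : (rest H x).support.Finite := by rw [supp_rest]; exact hH.fin.subset sdiff_subset
  constructor
  · refine le_trans (ncard_le_ncard ?_ ((bondSet_finite f1).union (inSet_finite f2)))
      (ncard_union_le _ _)
    rintro ⟨y, z⟩ ⟨h1, h2, h3⟩
    by_cases hy : H.Reachable x y
    · refine Or.inl ⟨?_, ?_, h2⟩
      · rw [supp_comp]; exact ⟨h1, hy⟩
      · rw [supp_comp]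
        exact ⟨SimpleGraph.mem_support_of_reachable h2.ne.symm h3.symm, hy.trans h3⟩
    · refine Or.inr ⟨?_, h2, rest_reach hy h3⟩
      rw [supp_rest]; exact ⟨h1, hy⟩
  · rw [supp_comp, supp_rest, ncard_inter_add_ncard_sdiff_eq_ncard _ _ hH.fin]

theorem single_bound {γ δ : ℝ} (hγ : 0 ≤ γ) (hδ : 0 < δ) (i : Fin d) :
    ∃ C : ℝ, 1 ≤ C ∧ ∀ (x : Pt d) (F : Finset (SimpleGraph (Pt d))),
      (∀ G ∈ F, Piece univ G ∧ Anch {x} G) →
      ∑ G ∈ F, Real.exp (γ * bonds G.support - (rate d γ + δ) * G.support.ncard) ≤ C := by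
  let a : ℕ → ℝ := fun m => (2 * m + 1 : ℝ) ^ (4 * d) * Real.exp (-δ) ^ m
  have ha0 : ∀ m, 0 ≤ a m := fun m => by positivity
  have hr : ‖Real.exp (-δ)‖ < 1 := by
    rw [Real.norm_eq_abs, abs_of_pos (Real.exp_pos _)]
    exact Real.exp_lt_one_iff.2 (by linarith)
  have hs : Summable a := by
    refine Summable.of_nonneg_of_le ha0 (fun m => ?_)
      (((summable_pow_mul_geometric_of_norm_lt_one (4 * d) hr).mul_left (3 ^ (4 * d))).add
        (summable_geometric_of_norm_lt_one hr))
    have h1 : (2 * m + 1 : ℝ) ^ (4 * d) ≤ 3 ^ (4 * d) * (m : ℝ) ^ (4 * d) + 1 := by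
      rcases Nat.eq_zero_or_pos m with rfl | hm
      · simp
      · rw [← mul_pow]
        have : (1 : ℝ) ≤ m := by exact_mod_cast hm
        exact (pow_le_pow_left₀ (by positivity) (show (2 * m + 1 : ℝ) ≤ 3 * m by linarith) _).trans
          (by linarith)
    have h2 : 0 ≤ Real.exp (-δ) ^ m := by positivity
    simp only [a]
    nlinarith
  refine ⟨∑' m, a m, ?_, fun x F hF => ?_⟩
  · have := hs.sum_le_tsum {0} (fun m _ => ha0 m)
    simpa [a] using this
  rw [← Finset.sum_fiberwise_of_maps_to (g := fun G : SimpleGraph (Pt d) => G.support.ncard)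
    (t := F.image fun G => G.support.ncard) fun G hG => Finset.mem_image_of_mem _ hG]
  refine le_trans (Finset.sum_le_sum fun m _ => ?_) (hs.sum_le_tsum _ fun m _ => ha0 m)
  have hfam : Fam univ ∅ m {x} (F.filter fun G => G.support.ncard = m) := by
    refine ⟨fun G hG => (hF G (Finset.mem_filter.1 hG).1).1, fun G _ => ?_, fun G hG => ?_,
      fun G hG => (hF G (Finset.mem_filter.1 hG).1).2⟩
    · ext p; simp [cross]
    · rw [inter_univ]; exact (Finset.mem_filter.1 hG).2
  have h1 := poly_bound hγ i hfam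
  have h2 : ∑ G ∈ F.filter (fun G => G.support.ncard = m),
      Real.exp (γ * bonds G.support - (rate d γ + δ) * G.support.ncard) =
      W γ univ (F.filter fun G => G.support.ncard = m) * Real.exp (-((rate d γ + δ) * m)) := by
    rw [W, Finset.sum_mul]
    refine Finset.sum_congr rfl fun G hG => ?_
    rw [(Finset.mem_filter.1 hG).2, inter_univ, ← Real.exp_add, sub_eq_add_neg]
  rw [h2]
  refine (mul_le_mul_of_nonneg_right h1 (Real.exp_pos _).le).trans (le_of_eq ?_)
  simp only [a]
  rw [mul_assoc, ← Real.exp_add, ← Real.exp_nat_mul]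
  congr 2
  ring

theorem loops_bound {γ δ : ℝ} (hγ : 0 ≤ γ) (hδ : 0 < δ) (i : Fin d) :
    ∃ C : ℝ, 1 ≤ C ∧ ∀ (X : Finset (Pt d)) (F : Finset (SimpleGraph (Pt d))),
      (∀ G ∈ F, Piece univ G ∧ Anch (X : Set (Pt d)) G) →
      ∑ G ∈ F, Real.exp (γ * (inSet G).ncard - (rate d γ + δ) * G.support.ncard) ≤ C ^ X.card := by
  obtain ⟨C, hC, hs⟩ := single_bound hγ hδ i
  refine ⟨C, hC, fun X => ?_⟩
  induction X using Finset.induction_on with
  | empty =>
    intro F hF
    have : F ⊆ {⊥} := fun G hG => by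
      rw [Finset.mem_singleton]
      ext v w
      refine ⟨fun hvw => ?_, fun h => h.elim⟩
      obtain ⟨x, hx, _⟩ := (hF G hG).2 v (mem_supp.2 ⟨w, hvw⟩)
      simp at hx
    refine (Finset.sum_le_sum_of_subset_of_nonneg this fun _ _ _ => (Real.exp_pos _).le).trans ?_
    simp [inSet]
  | insert x X hx ih =>
    intro F hF
    have h1 := hs x (F.image fun H => comp H x) fun G hG => by
      obtain ⟨H, hH, rfl⟩ := Finset.mem_image.1 hG
      exact comp_piece (hF H hH).1 x
    have h2 := ih (F.image fun H => rest H x) fun G hG => by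
      obtain ⟨H, hH, rfl⟩ := Finset.mem_image.1 hG
      exact rest_piece (hF H hH).1 (by simpa using (hF H hH).2)
    rw [Finset.card_insert_of_notMem hx, pow_succ']
    refine le_trans ?_ (mul_le_mul h1 h2 (Finset.sum_nonneg fun _ _ => (Real.exp_pos _).le)
      (by linarith))
    rw [Finset.sum_mul_sum, ← Finset.sum_product']
    refine sum_le_of_rel _ _ _ _ (fun H p => H = p.1 ⊔ p.2) (fun _ _ => by positivity) ?_
      (fun _ _ _ _ _ e e' => e.trans e'.symm)
    intro H hH
    refine ⟨(comp H x, rest H x), Finset.mem_product.2 ⟨Finset.mem_image_of_mem _ hH,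
      Finset.mem_image_of_mem _ hH⟩, comp_sup_rest H x, ?_⟩
    obtain ⟨e1, e2⟩ := inSet_split (hF H hH).1 x
    rw [← Real.exp_add, Real.exp_le_exp, e2]
    have : ((inSet H).ncard : ℝ) ≤ bonds (comp H x).support + (inSet (rest H x)).ncard := by
      exact_mod_cast e1
    push_cast
    nlinarith

end Pool.Agent.P.MP_86995c_pr
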