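import Pool.Agent.P.MP_86995c_pr.Shell
import Pool.Agent.P.MP_86995c_pr.Loops

/-!
The bound for families of closed configurations (unions of few loops).
-/

set_option autoImplicit false
open Classical Set

namespace Pool.Agent.P.MP_86995c_pr

variable {d : ℕ}

noncomputable def nc {V : Type*} (H : SimpleGraph V) (X : Set V) : ℕ :=
  (H.connectedComponentMk '' X).ncard

theorem nc_lt {V : Type*} {H H' : SimpleGraph V} {X : Set V} (hX : X.Finite)
    (hle : ∀ x y, H.Reachable x y → H'.Reachable x y) {u u' : V} (hu : u ∈ X) (hu' : u' ∈ X)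
    (h1 : ¬ H.Reachable u u') (h2 : H'.Reachable u u') : nc H' X < nc H X := by
  let φ : H.ConnectedComponent → H'.ConnectedComponent :=
    Quot.lift H'.connectedComponentMk fun x y h => SimpleGraph.ConnectedComponent.sound (hle x y h)
  have e : H'.connectedComponentMk '' X = φ '' (H.connectedComponentMk '' X) := by
    rw [image_image]; rfl
  unfold nc
  rw [e]
  refine lt_of_le_of_ne (ncard_image_le (hX.image _)) fun h => h1 ?_
  have := injOn_of_ncard_image_eq h (hX.image _)
  exact SimpleGraph.ConnectedComponent.exact (this (mem_image_of_mem _ hu) (mem_image_of_mem _ hu')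
    (SimpleGraph.ConnectedComponent.sound h2))

namespace Grid
variable (g : Grid)

structure Inv (G : SimpleGraph (Pt d)) (X : Set (Pt d)) (H : SimpleGraph (Pt d))
    (U : Finset (Pt d)) : Prop where
  piece : Piece univ H
  anch : Anch X H
  cnt : nc H X + U.card ≤ X.ncard
  adj : ∀ y, (∀ q ∈ U, y ∉ g.shell q) → ∀ y', H.Adj y y' ↔ (g.str G).Adj y y'
  sup : H.support ⊆ (g.str G).support ∪ ⋃ q ∈ U, g.shell q
  reach : ∀ y y', (g.str G).Reachable y y' → H.Reachable y y'

theorem process (hd : 2 ≤ d) {G : SimpleGraph (Pt d)} (hG : G ≤ lat d) {X : Set (Pt d)}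
    (hX : X.Finite) (m : ℕ) : ∀ H U, g.Inv G X H U → nc H X ≤ m → ∃ H' U', g.Inv G X H' U' ∧
      ∀ q ∉ U', ∀ x a x' a', g.Exit G q x a → g.Exit G q x' a' →
        H'.Reachable (g.Ph x) (g.Ph x') := by
  induction m using Nat.strong_induction_on with
  | _ m ih =>
    intro H U hI hm
    by_cases hT : ∀ q ∉ U, ∀ x a x' a', g.Exit G q x a → g.Exit G q x' a' →
        H.Reachable (g.Ph x) (g.Ph x')
    · exact ⟨H, U, hI, hT⟩
    push Not at hT
    obtain ⟨q, hq, x, a, x', a', e, e', hn⟩ := hT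
    obtain ⟨H', k1, k2, ⟨p, hp, p', hp', k3, k3'⟩, k4, k5, k6, k7⟩ := g.shell_merge hd hG hI.piece
      (fun y hy => hI.adj y fun q' hq' h => hq (by rw [g.ext_eq hy h.1]; exact hq')) e e' hn
    obtain ⟨u, hu, r⟩ := hI.anch p hp
    obtain ⟨u', hu', r'⟩ := hI.anch p' hp'
    have hlt : nc H' X < nc H X := nc_lt hX k2 hu hu' (fun h => k3 (r.trans (h.trans r'.symm)))
      ((k2 _ _ r).symm.trans (k3'.trans (k2 _ _ r')))
    refine ih (nc H' X) (by omega) H' (insert q U) ⟨k1, fun v hv => ?_, ?_, fun y hy y' => ?_,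
      fun v hv => ?_, fun y y' h => k2 _ _ (hI.reach _ _ h)⟩ le_rfl
    · obtain ⟨w, hw, h⟩ := k7 v hv
      obtain ⟨z, hz, h'⟩ := hI.anch w hw
      exact ⟨z, hz, h.trans (k2 _ _ h')⟩
    · have := hI.cnt
      rw [Finset.card_insert_of_notMem hq]; omega
    · rw [k6 y y' (hy q (Finset.mem_insert_self _ _)),
        hI.adj y fun q' hq' => hy q' (Finset.mem_insert_of_mem hq')]
    · rcases k5 hv with h | h
      · rcases hI.sup h with h | h
        · exact Or.inl h
        · obtain ⟨q', hq', h⟩ := mem_iUnion₂.1 h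
          exact Or.inr (mem_iUnion₂.2 ⟨q', Finset.mem_insert_of_mem hq', h⟩)
      · exact Or.inr (mem_iUnion₂.2 ⟨q, Finset.mem_insert_self _ _, h⟩)

theorem Ph_adj {x y : Pt d} (h : (lat d).Adj x y) (e : g.box x = g.box y) :
    (lat d).Adj (g.Ph x) (g.Ph y) := by
  obtain ⟨i, h1, h2⟩ := h
  refine ⟨i, ?_, fun k hk => by simp only [Ph, h2 k hk]⟩
  have := congrFun e i
  simp only [box] at this
  simp only [Ph, ph]; omega

theorem box_card (B : Finset (Pt d)) : {x : Pt d | g.box x ∈ B}.Finite ∧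
    {x : Pt d | g.box x ∈ B}.ncard ≤ B.card * (g.l + 4).toNat ^ d := by
  have hf : (⋃ q ∈ B, g.ext 2 q).Finite := B.finite_toSet.biUnion fun q _ => (g.ext_card q).1
  have hm : ∀ x ∈ {x : Pt d | g.box x ∈ B}, g.Ph x ∈ ⋃ q ∈ B, g.ext 2 q := fun x hx =>
    mem_iUnion₂.2 ⟨_, hx, g.ext_mono (by norm_num) _ (g.Ph_mem x)⟩
  refine ⟨(hf.preimage g.Ph_inj.injOn).subset hm, ?_⟩
  refine (ncard_le_ncard_of_injOn g.Ph hm g.Ph_inj.injOn hf).trans
    ((Finset.set_ncard_biUnion_le B _).trans (le_of_eq ?_))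
  simp [(g.ext_card _).2]

theorem exists_merged (hd : 2 ≤ d) {G : SimpleGraph (Pt d)} (hG : Piece univ G) {X : Set (Pt d)}
    (hX : X.Finite) (hA : Anch X G) :
    ∃ H : SimpleGraph (Pt d), Piece univ H ∧ Anch (g.Ph '' X) H ∧
      (∀ x y', H.Adj (g.Ph x) y' ↔ (g.str G).Adj (g.Ph x) y') ∧
      H.support.ncard ≤ G.support.ncard + 4 * (g.crs G.support).ncard +
        X.ncard * (g.l + 4).toNat ^ d ∧
      bonds G.support ≤ (inSet H).ncard + (g.crs G.support).ncard +
        2 * d * (2 * X.ncard * (g.l + 4).toNat ^ d) := by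
  obtain ⟨s1, s2⟩ := g.str_piece hG
  have hX' := hX.image g.Ph
  obtain ⟨H, U, hI, hT⟩ := g.process hd hG.le hX' _ (g.str G) ∅ ⟨s1, g.str_anch hG.le hA,
    by simpa [nc] using ncard_image_le hX', fun _ _ _ => Iff.rfl, subset_union_left,
    fun _ _ h => h⟩ le_rfl
  have hU : U.card ≤ X.ncard := by
    have := hI.cnt
    have := ncard_image_le (f := g.Ph) hX
    omega
  have hadj : ∀ x y', H.Adj (g.Ph x) y' ↔ (g.str G).Adj (g.Ph x) y' := fun x =>
    hI.adj _ fun q _ => g.Ph_not_shell x q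
  refine ⟨H, hI.piece, hI.anch, hadj, ?_, ?_⟩
  · have hf : (⋃ q ∈ U, g.shell q).Finite :=
      U.finite_toSet.biUnion fun q _ => (g.ext_card q).1.subset sdiff_subset
    refine (ncard_le_ncard hI.sup (s1.fin.union hf)).trans ((ncard_union_le _ _).trans
      (add_le_add s2 ((Finset.set_ncard_biUnion_le U _).trans ?_)))
    refine (Finset.sum_le_card_nsmul _ _ ((g.l + 4).toNat ^ d) fun q _ => ?_).trans ?_
    · rw [← (g.ext_card q).2]
      exact ncard_le_ncard sdiff_subset (g.ext_card q).1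
    · exact Nat.mul_le_mul_right _ hU
  · set B := U ∪ hX.toFinset.image g.box with hB
    have cB : B.card ≤ 2 * X.ncard := by
      have h1 : B.card ≤ U.card + (hX.toFinset.image g.box).card := Finset.card_union_le _ _
      have h2 := Finset.card_image_le (s := hX.toFinset) (f := g.box)
      rw [← ncard_eq_toFinset_card _ hX] at h2
      omega
    obtain ⟨b1, b2⟩ := g.box_card B
    have inj : Function.Injective (Prod.map g.Ph g.Ph : Pt d × Pt d → Pt d × Pt d) :=
      g.Ph_inj.prodMap g.Ph_inj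
    have f1 := (inSet_finite hI.piece.fin).preimage inj.injOn
    have exit : ∀ x ∈ G.support, g.box x ∉ B →
        ∃ x' a', g.Exit G (g.box x) x' a' ∧ G.Reachable x x' := by
      intro x hx hxB
      obtain ⟨u, hu, r⟩ := hA x hx
      refine (reach_induction r (Q := fun y => g.box y = g.box x ∨
        ∃ x' a', g.Exit G (g.box x) x' a' ∧ G.Reachable x x') (Or.inl rfl) ?_).resolve_left
        fun e => hxB (Finset.mem_union_right _ (Finset.mem_image.2 ⟨u, by simpa using hu, e⟩))
      rintro b c hb (h | h) hbc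
      · by_cases hc : g.box c = g.box x
        · exact Or.inl hc
        · exact Or.inr ⟨b, c, ⟨hbc, h, hc⟩, hb⟩
      · exact Or.inr h
    have sub : bondSet G.support ⊆ (Prod.map g.Ph g.Ph ⁻¹' inSet H ∪ g.crs G.support) ∪
        outPairs {x : Pt d | g.box x ∈ B} := by
      rintro ⟨x, y⟩ hp
      by_cases h1 : g.box x = g.box y
      swap
      · exact Or.inl (Or.inr ⟨hp, h1⟩)
      by_cases h2 : g.box x ∈ B
      · exact Or.inr ⟨h2, hp.2.2⟩
      obtain ⟨x', a', e, r⟩ := exit x hp.1 h2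
      obtain ⟨y', b', e', r'⟩ := exit y hp.2.1 (h1 ▸ h2)
      refine Or.inl (Or.inl ⟨?_, g.Ph_adj hp.2.2 h1, ?_⟩)
      · obtain ⟨w, hw⟩ := mem_supp.1 hp.1
        exact mem_supp.2 ⟨_, (hadj x _).2 ((g.str_adj_node hG.le x _).2 ⟨w, hw, rfl⟩)⟩
      · exact (hI.reach _ _ (g.str_reach hG.le r)).trans ((hT _ (fun h => h2
          (Finset.mem_union_left _ h)) _ _ _ _ e (h1 ▸ e')).trans
          (hI.reach _ _ (g.str_reach hG.le r')).symm)
    refine (ncard_le_ncard sub ((f1.union (g.crs_finite hG.fin)).union (outPairs_finite b1))).trans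
      ((ncard_union_le _ _).trans (add_le_add ((ncard_union_le _ _).trans (add_le_add ?_ le_rfl))
        ((outPairs_ncard b1).trans (Nat.mul_le_mul_left _ (b2.trans
          (Nat.mul_le_mul_right _ cB))))))
    exact ncard_le_ncard_of_injOn _ (fun _ h => h) inj.injOn (inSet_finite hI.piece.fin)

end Grid

theorem closed_bound (hd : 2 ≤ d) {γ δ : ℝ} (hγ : 0 ≤ γ) (hδ : 0 < δ) :
    ∃ K C : ℝ, 1 ≤ K ∧ 0 ≤ C ∧ Bd γ K (rate d γ + δ) C (univ : Set (Pt d)) := by
  let i : Fin d := ⟨0, by omega⟩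
  obtain ⟨C₀, hC₀, hL⟩ := loops_bound hγ (half_pos hδ) i
  set g₀ := rate d γ + δ / 2 with hg₀
  have hg : 0 ≤ g₀ := by have := rate_nonneg hγ i; linarith
  obtain ⟨l, hl⟩ := exists_nat_gt ((γ + 4 * g₀) * (2 * d) / (δ / 2))
  have hl0 : 0 < l := by
    have : (0 : ℝ) < l := lt_of_le_of_lt (by positivity) hl
    exact_mod_cast this
  have hl1 : (1 : ℝ) ≤ l := by exact_mod_cast hl0
  rw [div_lt_iff₀ (half_pos hδ)] at hl
  have hl' : (0 : ℤ) < l := by exact_mod_cast hl0
  set M : ℕ := ((l : ℤ) + 4).toNat ^ d with hM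
  have hlog : 0 ≤ Real.log C₀ := Real.log_nonneg hC₀
  refine ⟨l, (4 * d * γ + g₀) * M + Real.log C₀, hl1, by positivity, fun T N X F hX hF => ?_⟩
  have := sum_le_of_fibers F (Finset.range l) (fun G => Real.exp (γ * bonds (G.support ∩ univ)))
    (fun G z => l * ((Grid.mk l z hl').crs G.support).ncard ≤ bonds G.support)
    (fun G hG => exists_grid l hl0 (hF.piece G hG).fin)
    (Real.exp ((rate d γ + δ) * N + ((4 * d * γ + g₀) * M + Real.log C₀) * X.ncard)) ?_
  · simpa [W] using this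
  intro z _ S hS hz
  set g := Grid.mk l z hl' with hgr
  have hex := fun G (hG : G ∈ S) => g.exists_merged hd (hF.piece G (hS hG)) hX (hF.anch G (hS hG))
  choose! φ hφ using hex
  have h1 := hL (hX.image g.Ph).toFinset (S.image φ) fun H hH => by
    obtain ⟨G, hG, rfl⟩ := Finset.mem_image.1 hH
    exact ⟨(hφ G hG).1, by simpa using (hφ G hG).2.1⟩
  have h2 := sum_le_of_rel S (S.image φ) (fun G => Real.exp (γ * bonds (G.support ∩ univ)))
    (fun H => Real.exp (γ * (inSet H).ncard - g₀ * H.support.ncard) *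
      Real.exp ((rate d γ + δ) * N + ((4 * d * γ + g₀) * M) * X.ncard))
    (fun G H => H = φ G) (fun _ _ => by positivity) ?_ ?_
  · refine h2.trans ?_
    rw [← Finset.sum_mul]
    refine (mul_le_mul_of_nonneg_right h1 (Real.exp_pos _).le).trans ?_
    have h3 : (hX.image g.Ph).toFinset.card ≤ X.ncard := by
      rw [← ncard_eq_toFinset_card _ (hX.image g.Ph)]; exact ncard_image_le hX
    refine (mul_le_mul_of_nonneg_right (pow_le_pow_right₀ hC₀ h3) (Real.exp_pos _).le).trans ?_
    rw [← Real.exp_log (show 0 < C₀ by linarith), ← Real.exp_nat_mul, ← Real.exp_add,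
      Real.log_exp]
    exact le_of_eq (by congr 1; ring)
  · intro G hG
    refine ⟨φ G, Finset.mem_image_of_mem _ hG, rfl, ?_⟩
    obtain ⟨-, -, -, m1, m2⟩ := hφ G hG
    have hN : G.support.ncard = N := by simpa using hF.mass G (hS hG)
    have m3 := (hz G hG).trans (bonds_le (hF.piece G (hS hG)).fin)
    rw [hN] at m1 m3
    rw [inter_univ, ← Real.exp_add, Real.exp_le_exp]
    set c := (g.crs G.support).ncard
    have m1' : (((φ G).support.ncard : ℕ) : ℝ) ≤ N + 4 * c + X.ncard * M := by exact_mod_cast m1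
    have m2' : (bonds G.support : ℝ) ≤ (inSet (φ G)).ncard + c + 2 * d * (2 * X.ncard * M) := by
      exact_mod_cast m2
    have m3' : (l : ℝ) * c ≤ 2 * d * N := by exact_mod_cast m3
    have m4 : (γ + 4 * g₀) * c ≤ δ / 2 * N := by
      refine le_of_mul_le_mul_left (a := (l : ℝ)) ?_ (by linarith)
      have a1 : (γ + 4 * g₀) * (l * c) ≤ (γ + 4 * g₀) * (2 * d * N) :=
        mul_le_mul_of_nonneg_left m3' (by positivity)
      have a2 : (γ + 4 * g₀) * (2 * d) * N ≤ l * (δ / 2) * N :=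
        mul_le_mul_of_nonneg_right hl.le (Nat.cast_nonneg _)
      nlinarith
    have a1 := mul_le_mul_of_nonneg_left m1' hg
    have a2 := mul_le_mul_of_nonneg_left m2' hγ
    have a3 : rate d γ + δ = g₀ + δ / 2 := by rw [hg₀]; ring
    rw [a3]
    nlinarith
  · intro G hG G' hG' H e e'
    have key : ∀ G ∈ S, ∀ x a, G.Adj x a ↔ (φ G).Adj (g.Ph x) (g.Ph x + (a - x)) := by
      intro G hG x a
      rw [(hφ G hG).2.2.1, g.str_adj_node (hF.piece G (hS hG)).le]
      constructor
      · exact fun h => ⟨a, h, rfl⟩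
      · rintro ⟨a', h, e⟩
        obtain rfl : a = a' := by simpa using e
        exact h
    ext x a
    rw [key G hG, key G' hG', ← e, ← e']

end Pool.Agent.P.MP_86995c_pr
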