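import Pool.Agent.P.MP_86995c_pr.Chain

/-!
The bound for families on a slab, obtained by chaining mirror images and closing on the left by
a fixed family of bent paths.
-/

set_option autoImplicit false
open Classical Set

namespace Pool.Agent.P.MP_86995c_pr

variable {d : ℕ}

theorem le_of_pow_le {x y A : ℝ} (hy : 0 < y) (h : ∀ k : ℕ, x ^ k ≤ A * y ^ k) : x ≤ y := by
  by_contra hc
  push Not at hc
  obtain ⟨k, hk⟩ := pow_unbounded_of_one_lt A ((one_lt_div hy).2 hc)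
  rw [div_pow, lt_div_iff₀ (pow_pos hy k)] at hk
  exact absurd (h k) (not_le.2 hk)

def mk2 (v : Pt d) (i j : Fin d) (s t : ℤ) : Pt d := Function.update (Function.update v i s) j t

theorem eq_mk2 {v w : Pt d} {i j : Fin d} (hij : i ≠ j) {s t : ℤ} :
    w = mk2 v i j s t ↔ (∀ k, k ≠ i → k ≠ j → w k = v k) ∧ w i = s ∧ w j = t := by
  constructor
  · rintro rfl
    refine ⟨fun k h1 h2 => ?_, ?_, ?_⟩
    · simp [mk2, Function.update_of_ne h1, Function.update_of_ne h2]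
    · simp [mk2, Function.update_of_ne hij]
    · simp [mk2]
  · rintro ⟨h1, h2, h3⟩
    funext k
    by_cases hj : k = j
    · subst hj; simp [mk2, h3]
    · by_cases hi : k = i
      · subst hi; simp [mk2, Function.update_of_ne hj, h2]
      · simp [mk2, Function.update_of_ne hj, Function.update_of_ne hi, h1 k hi hj]

theorem adj2 {v w : Pt d} {i j : Fin d} (hij : i ≠ j) (h : ∀ k, k ≠ i → k ≠ j → w k = v k) :
    (lat d).Adj v w ↔ (w j = v j ∧ (w i = v i + 1 ∨ v i = w i + 1)) ∨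
      (w i = v i ∧ (w j = v j + 1 ∨ v j = w j + 1)) := by
  constructor
  · rintro ⟨k, h1, h2⟩
    by_cases hi : k = i
    · subst hi; exact Or.inl ⟨h2 j hij.symm, h1⟩
    · by_cases hj : k = j
      · subst hj; exact Or.inr ⟨h2 i hij, h1⟩
      · have := h k hi hj; omega
  · rintro (⟨h1, h2⟩ | ⟨h1, h2⟩)
    · refine ⟨i, h2, fun k hk => ?_⟩
      by_cases hj : k = j
      · rw [hj, h1]
      · exact h k hk hj
    · refine ⟨j, h2, fun k hk => ?_⟩
      by_cases hi : k = i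
      · rw [hi, h1]
      · exact h k hi hk

/-- the bent paths starting at the points of A -/
def bent (i j : Fin d) (a h : ℤ) (A : Set (Pt d)) : SimpleGraph (Pt d) where
  Adj x y := (lat d).Adj x y ∧ (x i ≤ a ∧ x j ≤ h + 1) ∧ (y i ≤ a ∧ y j ≤ h + 1) ∧
    ∃ w ∈ A, w = mk2 x i j a (min (x j) (x i - a + h + 1)) ∧
      w = mk2 y i j a (min (y j) (y i - a + h + 1))
  symm := ⟨fun _ _ ⟨h1, h2, h3, w, hw, h4, h5⟩ => ⟨h1.symm, h3, h2, w, hw, h5, h4⟩⟩
  loopless := ⟨fun _ h => h.1.ne rfl⟩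

theorem bent_piece {i j : Fin d} (hij : i ≠ j) {a h : ℤ} {A : Set (Pt d)} (hA : A.Finite)
    (hh : ∀ w ∈ A, w j ≤ h) : Piece (lft {x | x j ≤ h} i a) (bent i j a h A) where
  le := fun _ _ h => h.1
  fin := by
    refine (hA.biUnion fun w _ => ((finite_Icc (a - (h + 1 - w j)) a).prod
      (finite_Icc (w j) (h + 1))).image fun p : ℤ × ℤ => mk2 w i j p.1 p.2).subset ?_
    intro x hx
    obtain ⟨y, -, h2, -, w, hw, h4, -⟩ := mem_supp.1 hx
    obtain ⟨e1, e2, e3⟩ := (eq_mk2 hij).1 h4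
    refine mem_iUnion₂.2 ⟨w, hw, (x i, x j), ⟨⟨by omega, by omega⟩, ⟨by omega, by omega⟩⟩, ?_⟩
    exact ((eq_mk2 hij).2 ⟨fun k h1 h2 => (e1 k h1 h2).symm, rfl, rfl⟩).symm
  two := by
    intro v hv hs
    obtain ⟨y, -, -, -, w, hw, h4, -⟩ := mem_supp.1 hs
    obtain ⟨e1, e2, e3⟩ := (eq_mk2 hij).1 h4
    have v1 : v j ≤ h := hv.1
    have v2 : v i < a := hv.2
    have key : ∀ y, (bent i j a h A).Adj v y ↔ (∀ k, k ≠ i → k ≠ j → y k = v k) ∧
        ((y j = v j ∧ (y i = v i + 1 ∨ v i = y i + 1)) ∨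
        (y i = v i ∧ (y j = v j + 1 ∨ v j = y j + 1))) ∧
        min (y j) (y i - a + h + 1) = min (v j) (v i - a + h + 1) := by
      intro y
      constructor
      · rintro ⟨h1, -, -, w', -, h5, h6⟩
        obtain ⟨f1, -, f3⟩ := (eq_mk2 hij).1 h5
        obtain ⟨g1, -, g3⟩ := (eq_mk2 hij).1 h6
        have : ∀ k, k ≠ i → k ≠ j → y k = v k := fun k h1 h2 =>
          (g1 k h1 h2).symm.trans (f1 k h1 h2)
        exact ⟨this, (adj2 hij this).1 h1, g3.symm.trans f3⟩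
      · rintro ⟨h1, h2, h3⟩
        exact ⟨(adj2 hij h1).2 h2, ⟨by omega, by omega⟩, ⟨by omega, by omega⟩, w, hw, h4,
          (eq_mk2 hij).2 ⟨fun k a b => (e1 k a b).trans (h1 k a b).symm, e2, by omega⟩⟩
    refine ⟨mk2 v i j (if v j ≤ v i - a + h + 1 then v i + 1 else v i)
      (if v j ≤ v i - a + h + 1 then v j else v j - 1),
      mk2 v i j (if v i - a + h + 1 ≤ v j then v i else v i - 1)
      (if v i - a + h + 1 ≤ v j then v j + 1 else v j), fun e => ?_, fun y => ?_⟩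
    · obtain ⟨-, f2, f3⟩ := (eq_mk2 hij).1 e
      obtain ⟨-, g2, g3⟩ := (eq_mk2 hij).1 (rfl : mk2 v i j
        (if v j ≤ v i - a + h + 1 then v i + 1 else v i)
        (if v j ≤ v i - a + h + 1 then v j else v j - 1) = _)
      rw [g2] at f2
      rw [g3] at f3
      split_ifs at f2 f3 <;> omega
    · rw [key, eq_mk2 hij, eq_mk2 hij, ← and_or_left]
      refine and_congr_right fun _ => ?_
      split_ifs <;> omega
  inR := by
    rintro x y ⟨h1, h2, h3, w, hw, h4, h5⟩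
    obtain ⟨f1, -, f3⟩ := (eq_mk2 hij).1 h4
    obtain ⟨g1, -, g3⟩ := (eq_mk2 hij).1 h5
    have := (adj2 hij fun k h1 h2 => (g1 k h1 h2).symm.trans (f1 k h1 h2)).1 h1
    have := hh w hw
    simp only [lft, mem_inter_iff, mem_ofPred_eq]
    omega

theorem Bd.slab (hd : 2 ≤ d) {γ K g C : ℝ} (hγ : 0 ≤ γ) (hK : 1 ≤ K) (hg : 0 ≤ g) (hC : 0 ≤ C)
    (hB : Bd γ K g C (univ : Set (Pt d))) (i : Fin d) (a b : ℤ) :
    Bd γ K g C (slab univ i a b) := by
  intro T N X F hX hF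
  have one : 1 ≤ K * Real.exp (g * N + C * X.ncard) :=
    one_le_mul_of_one_le_of_one_le hK (Real.one_le_exp (by positivity))
  rcases F.eq_empty_or_nonempty with rfl | ⟨G₀, hG₀⟩
  · simp only [W, Finset.sum_empty]; linarith
  rcases le_or_gt b a with hab | hab
  · have e : P.MP_86995c_pr.slab (univ : Set (Pt d)) i a b = ∅ :=
      eq_empty_of_forall_notMem fun x hx => by have := hx.2; simp only [mem_ofPred_eq] at this; omega
    have : F = {G₀} := Finset.eq_singleton_iff_unique_mem.2 ⟨hG₀, fun G hG =>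
      (hF.piece G hG).eq_of_adj (hF.piece G₀ hG₀) fun v hv => by rw [e] at hv; exact hv.elim⟩
    rw [this, e]
    simpa [W, bonds, bondSet] using one
  obtain ⟨j, hj⟩ : ∃ j : Fin d, j ≠ i := by
    have : Nontrivial (Fin d) := Fin.nontrivial_iff_two_le.2 hd
    exact exists_ne i
  obtain ⟨h, hh⟩ : ∃ h : ℤ, ∀ G ∈ F, ∀ x ∈ G.support, x j ≤ h := by
    obtain ⟨h, hh⟩ := ((F.finite_toSet.biUnion fun G hG => (hF.piece G hG).fin).image
      fun x => x j).bddAbove
    exact ⟨h, fun G hG x hx => hh (mem_image_of_mem _ (mem_iUnion₂.2 ⟨G, hG, hx⟩))⟩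
  set H : Set (Pt d) := {x | x j ≤ h} with hH
  obtain ⟨hF', hW⟩ := hF.shrink (R' := P.MP_86995c_pr.slab H i a b) (fun x hx => ⟨trivial, hx.2⟩)
    fun G hG x hx => ⟨hh G hG x hx.1, hx.2.2⟩
  have hT : ∀ p ∈ T, G₀.Adj p.1 p.2 := fun p hp => by rw [← hF.cr G₀ hG₀] at hp; exact hp.1
  have hS : SlabFam H i a b T N X F := ⟨hab, ⟨hF'.piece, hF'.cr, hF'.mass,
    fun G hG => (hF'.anch G hG).mono subset_union_left⟩,
    fun G hG => (hF'.anch G hG).mono subset_union_left,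
    fun p hp => hh G₀ hG₀ _ (mem_supp.2 ⟨_, (hT p hp).symm⟩)⟩
  set A : Set (Pt d) := {w | w i = a ∧ (w, Function.update w i (a - 1)) ∈ T} with hA
  have hAs : A ⊆ G₀.support := fun w hw => mem_supp.2 ⟨_, hT _ hw.2⟩
  have hP := bent_piece (a := a) hj.symm ((hF.piece G₀ hG₀).fin.subset hAs)
    fun w hw => hh G₀ hG₀ w (hAs hw)
  set B := bent i j a h A with hBt
  have hFK : Fam (lft H i a) (cross (lft H i a) B) (B.support ∩ lft H i a).ncard B.support {B} :=
    ⟨by simpa using hP, by simp, by simp, fun G hG v hv =>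
      ⟨v, Finset.mem_singleton.1 hG ▸ hv, SimpleGraph.Reachable.refl _⟩⟩
  have hrefl : ∀ c x, refl i c x ∈ H ↔ x ∈ H := fun c x => by
    simp only [hH, mem_ofPred_eq, refl_ne c x hj]
  have hc : ∀ G₁ ∈ ({B} : Finset (SimpleGraph (Pt d))), ∀ G₂ ∈ F, ∀ v ∈ lft H i a,
      ∀ w ∈ P.MP_86995c_pr.slab H i a b, G₁.Adj v w ↔ G₂.Adj v w := by
    intro G₁ hG₁ G hG v hv w hw
    obtain rfl := Finset.mem_singleton.1 hG₁
    have v1 : v j ≤ h := hv.1
    have v2 : v i < a := hv.2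
    have w1 : w j ≤ h := hw.1
    have w2 : a ≤ w i := hw.2.1
    have hv' : v ∉ P.MP_86995c_pr.slab H i a b := disjoint_left.1 (lft_disj H i a b) hv
    have geo : (lat d).Adj v w → w i = a ∧ v = Function.update w i (a - 1) ∧
        ∀ k, k ≠ i → w k = v k := fun h1 => by
      have h2 := lat_adj_coord h1 i
      have h3 := lat_adj_other h1 (i := i) (by omega)
      refine ⟨by omega, ?_, h3⟩
      rw [show a - 1 = v i by omega]
      exact eq_update_of fun k hk => (h3 k hk).symm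
    rw [SimpleGraph.adj_comm G, hF'.adj_iff hG w hv']
    constructor
    · rintro ⟨h1, -, -, u, hu, -, h5⟩
      obtain ⟨g1, g2, g3⟩ := geo h1
      obtain ⟨f1, f2, f3⟩ := (eq_mk2 hj.symm).1 h5
      have : u = w := (eq_mk2 hj.symm).2 ⟨f1, f2, (by omega : u j = w j)⟩ |>.trans
        ((eq_mk2 hj.symm).2 ⟨fun _ _ _ => rfl, g1, rfl⟩).symm
      subst this
      rw [g2]; exact hu.2
    · intro h1
      have h2 : (lat d).Adj v w := ((hF.piece G₀ hG₀).le (hT _ h1)).symm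
      obtain ⟨g1, g2, g3⟩ := geo h2
      have g4 := g3 j hj
      have g5 := lat_adj_coord h2 i
      refine ⟨h2, ⟨by omega, by omega⟩, ⟨by omega, by omega⟩, w, ⟨g1, g2 ▸ h1⟩,
        (eq_mk2 hj.symm).2 ⟨fun k h _ => g3 k h, g1, by omega⟩,
        (eq_mk2 hj.symm).2 ⟨fun _ _ _ => rfl, g1, by omega⟩⟩
  have hBH : Bd γ K g C H := by
    have := hB.half_le (i := j) (h := h) hγ hK hC fun _ => Iff.rfl
    rwa [univ_inter] at this
  rw [← hW]
  refine le_trans (le_of_pow_le (A := K * Real.exp (g * (B.support ∩ lft H i a).ncard +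
    C * B.support.ncard)) (Real.exp_pos (g * N + C * X.ncard)) fun k => ?_)
    (le_mul_of_one_le_left (Real.exp_pos _).le hK)
  obtain ⟨a', b', T', TG, X', XG, F', FG, -, -, -, -, -, s6, s7, s8, -, -, -, s11⟩ :=
    chain hγ hrefl hX hP.fin hS hFK hc k
  have hBL : Bd γ K g C (lft H i a') := by
    have := hBH.half_le (i := i) (h := a' - 1) hγ hK hC (hrefl _)
    rwa [show H ∩ {x | x i ≤ a' - 1} = lft H i a' from by
      ext x; simp only [lft, mem_inter_iff, mem_ofPred_eq, Int.le_sub_one_iff]] at this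
  have h1 := hBL _ _ _ _ s7 s6
  have h2 := one_le_W hγ (lft H i a) (Finset.singleton_nonempty B)
  have h3 : 0 ≤ W γ (P.MP_86995c_pr.slab H i a b) F ^ k := pow_nonneg (W_nonneg _ _ _) _
  refine (le_mul_of_one_le_left h3 h2).trans (s11.trans (h1.trans ?_))
  rw [mul_assoc, ← Real.exp_nat_mul, ← Real.exp_add]
  refine mul_le_mul_of_nonneg_left (Real.exp_le_exp.2 ?_) (by linarith)
  have h4 : (XG.ncard : ℝ) ≤ B.support.ncard + k * X.ncard := by exact_mod_cast s8
  have := mul_le_mul_of_nonneg_left h4 hC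
  push_cast
  nlinarith

end Pool.Agent.P.MP_86995c_pr
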