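import Pool.Agent.P.MP_86995c_pr.Closed
import Pool.Agent.P.MP_86995c_pr.Slab

/-!
Cutting a walk along two walls into four pieces.
-/

set_option autoImplicit false
open Classical Set

namespace Pool.Agent.P.MP_86995c_pr

variable {d : ℕ}

/-- the edges of P meeting S -/
def cutG {V : Type*} (P : SimpleGraph V) (S : Set V) : SimpleGraph V where
  Adj x y := P.Adj x y ∧ (x ∈ S ∨ y ∈ S)
  symm := ⟨fun _ _ h => ⟨h.1.symm, h.2.symm⟩⟩
  loopless := ⟨fun _ h => h.1.ne rfl⟩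

theorem cut_facts {P : SimpleGraph (Pt d)} {Co R : Set (Pt d)} (hP : P ≤ lat d)
    (hf : P.support.Finite) (h2 : ∀ v ∈ Co, Two P v)
    (hx : ∀ x ∈ R ∩ Co, ∀ y ∈ R, P.Adj x y → y ∈ Co)
    (hr : ∀ v ∈ Co, ∃ u ∉ Co, P.Reachable v u) :
    Piece R (cutG P (R ∩ Co)) ∧ (cutG P (R ∩ Co)).support ∩ R = R ∩ Co ∧
      Anch (Prod.snd '' cross R (cutG P (R ∩ Co))) (cutG P (R ∩ Co)) := by
  have e : (cutG P (R ∩ Co)).support ∩ R = R ∩ Co := by
    ext v
    constructor
    · rintro ⟨hs, hv⟩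
      obtain ⟨w, h1, h | h⟩ := mem_supp.1 hs
      · exact h
      · exact ⟨hv, hx w h v hv h1.symm⟩
    · intro hv
      obtain ⟨a, b, -, h⟩ := h2 v hv.2
      exact ⟨mem_supp.2 ⟨a, (h a).2 (Or.inl rfl), Or.inl hv⟩, hv.1⟩
  refine ⟨⟨fun _ _ h => hP h.1, hf.subset fun v hv => ?_, fun v hv hs => ?_,
    fun v w h => h.2.imp (fun h => h.1) fun h => h.1⟩, e, fun v hv => ?_⟩
  · obtain ⟨w, h⟩ := mem_supp.1 hv
    exact mem_supp.2 ⟨w, h.1⟩
  · have hv' : v ∈ R ∩ Co := e ▸ ⟨hs, hv⟩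
    obtain ⟨a, b, hab, h⟩ := h2 v hv'.2
    exact ⟨a, b, hab, fun w => (and_iff_left (Or.inl hv')).trans (h w)⟩
  · by_cases hR : v ∈ R
    · have hv' : v ∈ R ∩ Co := e ▸ ⟨hv, hR⟩
      obtain ⟨u, hu, r⟩ := hr v hv'.2
      refine (reach_induction r (Q := fun y => (y ∈ R ∩ Co ∧ (cutG P (R ∩ Co)).Reachable v y) ∨
        ∃ x ∈ Prod.snd '' cross R (cutG P (R ∩ Co)), (cutG P (R ∩ Co)).Reachable v x)
        (Or.inl ⟨hv', SimpleGraph.Reachable.refl _⟩) ?_).resolve_left fun h => hu h.1.2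
      rintro b c - (⟨h1, h3⟩ | h) hbc
      · have h4 : (cutG P (R ∩ Co)).Adj b c := ⟨hbc, Or.inl h1⟩
        by_cases hc : c ∈ R
        · exact Or.inl ⟨⟨hc, hx b h1 c hc hbc⟩, h3.trans h4.reachable⟩
        · exact Or.inr ⟨c, ⟨(b, c), ⟨h4, hc⟩, rfl⟩, h3.trans h4.reachable⟩
      · exact Or.inr h
    · obtain ⟨w, h⟩ := mem_supp.1 hv
      exact ⟨v, ⟨(w, v), ⟨h.symm, hR⟩, rfl⟩, SimpleGraph.Reachable.refl _⟩

/-- position of a point with respect to two walls -/
def reg (a b : Fin d × ℤ) (x : Pt d) : Bool × Bool :=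
  (decide (x a.1 ≤ a.2), decide (x b.1 ≤ b.2))

theorem bd_reg (hd : 2 ≤ d) {γ K g C : ℝ} (hγ : 0 ≤ γ) (hK : 1 ≤ K) (hg : 0 ≤ g) (hC : 0 ≤ C)
    (hB : Bd γ K g C (univ : Set (Pt d))) (a b : Fin d × ℤ) (r : Bool × Bool) :
    Bd γ K g C {x | reg a b x = r} := by
  obtain ⟨i, h⟩ := a
  obtain ⟨j, h'⟩ := b
  have l := fun c : ℤ => hB.half_le (i := i) (h := c) hγ hK hC fun _ => Iff.rfl
  have u := fun c : ℤ => hB.half_gt (i := i) (h := c) hγ hK hC fun _ => Iff.rfl
  have s := hB.slab hd hγ hK hg hC i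
  by_cases hij : i = j
  · subst hij
    rcases r with ⟨_ | _, _ | _⟩
    · convert u (max h h') using 1
      ext x; simp [reg]
    · convert s (h + 1) (h' + 1) using 1
      ext x; simp [reg, slab]
    · convert s (h' + 1) (h + 1) using 1
      ext x; simp [reg, slab]; omega
    · convert l (min h h') using 1
      ext x; simp [reg]
  · rcases r with ⟨_ | _, _ | _⟩
    · convert (u h).half_gt (i := j) (h := h') hγ hK hC (fun x => by simp [refl_ne _ _ hij])
        using 1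
      ext x; simp [reg]
    · convert (u h).half_le (i := j) (h := h') hγ hK hC (fun x => by simp [refl_ne _ _ hij])
        using 1
      ext x; simp [reg]
    · convert (l h).half_gt (i := j) (h := h') hγ hK hC (fun x => by simp [refl_ne _ _ hij])
        using 1
      ext x; simp [reg]
    · convert (l h).half_le (i := j) (h := h') hγ hK hC (fun x => by simp [refl_ne _ _ hij])
        using 1
      ext x; simp [reg]

theorem Grid.exists_wall (g : Grid) {x y : Pt d} (h : (lat d).Adj x y) (hb : g.box x ≠ g.box y) :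
    ∃ a : Fin d × ℤ, (a.2 = x a.1 ∨ a.2 = y a.1) ∧ ¬ (x a.1 ≤ a.2 ↔ y a.1 ≤ a.2) ∧
      ∀ u v : Pt d, g.box u = g.box v → (u a.1 ≤ a.2 ↔ v a.1 ≤ a.2) := by
  obtain ⟨i, h1, h2⟩ := h
  have hne : g.bq (x i) ≠ g.bq (y i) := fun e => hb (funext fun k => by
    by_cases hk : k = i
    · subst hk; exact e
    · simp only [Grid.box, h2 k hk])
  have key : ∀ t : ℤ, g.bq t ≠ g.bq (t + 1) → ∀ u v : Pt d, g.box u = g.box v →
      u i ≤ t → v i ≤ t := fun t ht u v e hu => by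
    by_contra hv
    have e1 : g.bq (u i) = g.bq (v i) := congrFun e i
    have := g.bq_mono hu
    have := g.bq_mono (show t + 1 ≤ v i by omega)
    have := g.bq_mono (show t ≤ t + 1 by omega)
    omega
  rcases h1 with h1 | h1
  · exact ⟨(i, x i), Or.inl rfl, by simp only; omega, fun u v e =>
      ⟨key _ (h1 ▸ hne) u v e, key _ (h1 ▸ hne) v u e.symm⟩⟩
  · exact ⟨(i, y i), Or.inr rfl, by simp only; omega, fun u v e =>
      ⟨key _ (h1 ▸ hne.symm) u v e, key _ (h1 ▸ hne.symm) v u e.symm⟩⟩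

theorem Grid.short (g : Grid) {ω : ℕ → Pt d} {s t : ℕ} (hi : InjOn ω (Icc s t))
    (h : ∀ k, s ≤ k → k < t → g.box (ω k) = g.box (ω (k + 1))) :
    t + 1 - s ≤ (g.l + 4).toNat ^ d := by
  have h1 : ∀ k, s ≤ k → k ≤ t → g.box (ω k) = g.box (ω s) := by
    intro k hk
    induction k, hk using Nat.le_induction with
    | base => exact fun _ => rfl
    | succ k hk ih => exact fun h' => (h k hk h').symm.trans (ih (by omega))
  obtain ⟨b1, b2⟩ := g.box_card {g.box (ω s)}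
  have := ncard_le_ncard (show ω '' Icc s t ⊆ _ from by
    rintro _ ⟨k, hk, rfl⟩
    exact Finset.mem_singleton.2 (h1 k hk.1 hk.2)) b1
  rw [hi.ncard_image, ncard_Icc_nat] at this
  simpa using this.trans b2

theorem exists_cut {n l m : ℕ} (hl : 0 < l) (hm : 2 * d * (n + 1) ≤ l * m)
    (hn : (l + 4) ^ d ≤ n) {w : Fin (n + 1) → Pt d} (hw : w ∈ saw d n) :
    ∃ (a b : Fin d × ℤ) (Co : Set (Pt d)), a.2 ∈ Finset.Icc (-(n : ℤ)) n ∧
      b.2 ∈ Finset.Icc (-(n : ℤ)) n ∧ Co ⊆ range w ∧ (∀ v ∈ Co, Two (pg (sq w) 0 n) v) ∧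
      (∀ x ∈ Co, ∀ y, (pg (sq w) 0 n).Adj x y → reg a b y = reg a b x → y ∈ Co) ∧
      (∀ v ∈ Co, ∃ u ∉ Co, (pg (sq w) 0 n).Reachable v u) ∧
      {p | p ∈ bondSet (range w) ∧ reg a b p.1 ≠ reg a b p.2}.ncard ≤ m ∧
      (range w \ Co).ncard ≤ 2 * (l + 4) ^ d := by
  obtain ⟨hi, hadj, hbox, hr⟩ := saw_seq hw
  set ω := sq w
  obtain ⟨z, -, hz⟩ := exists_grid l hl (finite_range w)
  set g := Grid.mk l z (by exact_mod_cast hl : (0 : ℤ) < l) with hg
  have hM : (g.l + 4).toNat = l + 4 := by simp only [hg]; omega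
  have hc : (g.crs (range w)).ncard ≤ m := by
    refine Nat.le_of_mul_le_mul_left (hz.trans ((bonds_le (finite_range w)).trans
      (le_trans ?_ hm))) hl
    exact Nat.mul_le_mul_left _ (ncard_range_le w)
  set I := (Finset.range n).filter fun k => g.box (ω k) ≠ g.box (ω (k + 1)) with hI
  have mI : ∀ k, k ∈ I ↔ k < n ∧ g.box (ω k) ≠ g.box (ω (k + 1)) := fun k => by simp [hI]
  have hne : I.Nonempty := by
    by_contra h
    have := g.short hi fun k _ hk => by
      by_contra h'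
      exact h ⟨k, (mI k).2 ⟨hk, h'⟩⟩
    rw [hM] at this; omega
  set s := I.min' hne
  set t := I.max' hne
  obtain ⟨s1, s2⟩ := (mI s).1 (I.min'_mem hne)
  obtain ⟨t1, t2⟩ := (mI t).1 (I.max'_mem hne)
  have hs := g.short (hi.mono (Icc_subset_Icc_right s1.le)) fun k _ hk => by
    by_contra h'
    have : s ≤ k := I.min'_le k ((mI k).2 ⟨by omega, h'⟩)
    omega
  have ht := g.short (s := t + 1) (hi.mono (Icc_subset_Icc_left (Nat.zero_le _)))
    fun k h1 hk => by
      by_contra h'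
      have : k ≤ t := I.le_max' k ((mI k).2 ⟨hk, h'⟩)
      omega
  rw [hM] at hs ht
  obtain ⟨a, a1, a2, a3⟩ := g.exists_wall (hadj s s1) s2
  obtain ⟨b, b1, b2, b3⟩ := g.exists_wall (hadj t t1) t2
  refine ⟨a, b, ω '' Icc (s + 1) t, ?_, ?_, ?_, ?_, ?_, ?_, ?_, ?_⟩
  · have := hbox s s1.le a.1
    have := hbox (s + 1) s1 a.1
    rw [Finset.mem_Icc]; omega
  · have := hbox t t1.le b.1
    have := hbox (t + 1) t1 b.1
    rw [Finset.mem_Icc]; omega
  · rw [hr]; exact image_mono (Icc_subset_Icc (Nat.zero_le _) t1.le)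
  · rintro _ ⟨k, hk, rfl⟩
    exact pg_two hi (by have := hk.1; omega) (by have := hk.2; omega)
  · rintro _ ⟨k, ⟨k1, k2⟩, rfl⟩ y hy e
    simp only [reg, Prod.mk.injEq, decide_eq_decide] at e
    rcases (pg_adj_at hi (Nat.zero_le _) (by omega)).1 hy with ⟨-, rfl⟩ | ⟨-, rfl⟩
    · refine ⟨k - 1, ⟨?_, by omega⟩, rfl⟩
      by_contra h
      obtain rfl : k = s + 1 := by omega
      exact a2 e.1
    · refine ⟨k + 1, ⟨by omega, ?_⟩, rfl⟩
      by_contra h
      obtain rfl : k = t := by omega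
      exact b2 e.2.symm
  · rintro _ ⟨k, ⟨k1, k2⟩, rfl⟩
    refine ⟨ω 0, ?_, (pg_reach hi (Nat.zero_le k) (by omega)).symm⟩
    rintro ⟨j, ⟨j1, j2⟩, e⟩
    have := hi ⟨Nat.zero_le _, by omega⟩ ⟨le_rfl, Nat.zero_le _⟩ e
    omega
  · refine (ncard_le_ncard ?_ (g.crs_finite (finite_range w))).trans hc
    rintro p ⟨h1, h2⟩
    refine ⟨h1, fun e => h2 ?_⟩
    simp only [reg, Prod.mk.injEq, decide_eq_decide]
    exact ⟨a3 _ _ e, b3 _ _ e⟩
  · have sub : range w \ ω '' Icc (s + 1) t ⊆ ω '' Icc 0 s ∪ ω '' Icc (t + 1) n := by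
      rw [hr]
      rintro _ ⟨⟨k, hk, rfl⟩, h⟩
      by_cases h1 : k ≤ s
      · exact Or.inl ⟨k, ⟨hk.1, h1⟩, rfl⟩
      · by_cases h2 : k ≤ t
        · exact absurd ⟨k, ⟨by omega, h2⟩, rfl⟩ h
        · exact Or.inr ⟨k, ⟨by omega, hk.2⟩, rfl⟩
    have h1 := ncard_le_ncard sub (((finite_Icc _ _).image _).union ((finite_Icc _ _).image _))
    have h2 := ncard_union_le (ω '' Icc 0 s) (ω '' Icc (t + 1) n)
    have h3 := ncard_image_le (f := ω) (finite_Icc 0 s)
    have h4 := ncard_image_le (f := ω) (finite_Icc (t + 1) n)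
    rw [ncard_Icc_nat] at h3 h4
    omega

theorem eq_of_pg_eq {n : ℕ} {w w' : Fin (n + 1) → Pt d} (hw : w ∈ saw d n) (hw' : w' ∈ saw d n)
    (e : pg (sq w) 0 n = pg (sq w') 0 n) : w = w' := by
  have h0 : ∀ w ∈ saw d n, sq w 0 = 0 := fun w hw => by
    simp only [saw, Finset.mem_filter] at hw
    exact (sq_val w 0).trans hw.2.1
  have hi := (saw_seq hw).1
  have hi' := (saw_seq hw').1
  have : ∀ k ≤ n, sq w k = sq w' k := by
    intro k
    induction k using Nat.strong_induction_on with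
    | _ k ih =>
      intro hk
      rcases k with _ | k
      · rw [h0 w hw, h0 w' hw']
      · have h1 := pg_step hi (Nat.zero_le k) hk
        rw [e, ih k (by omega) (by omega)] at h1
        rcases (pg_adj_at hi' (Nat.zero_le k) (by omega)).1 h1 with ⟨h2, h3⟩ | ⟨-, h3⟩
        · rw [← ih (k - 1) (by omega) (by omega)] at h3
          have := hi ⟨Nat.zero_le _, hk⟩ ⟨Nat.zero_le _, by omega⟩ h3
          omega
        · exact h3
  funext j
  rw [← sq_val w j, ← sq_val w' j, this j (Nat.lt_succ_iff.1 j.2)]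

/-- the subsets of B with at most m elements -/
noncomputable def small {α : Type*} (B : Finset α) (m : ℕ) : Finset (Finset α) :=
  B.powerset.filter fun s => s.card ≤ m

theorem mem_small {α : Type*} {B s : Finset α} {m : ℕ} : s ∈ small B m ↔ s ⊆ B ∧ s.card ≤ m := by
  simp [small]

theorem small_card {α : Type*} (B : Finset α) (m : ℕ) : (small B m).card ≤ (B.card + 1) ^ m := by
  induction m with
  | zero =>
    rw [pow_zero, Finset.card_le_one]
    intro a ha b hb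
    rw [Finset.card_eq_zero.1 (Nat.le_zero.1 (mem_small.1 ha).2),
      Finset.card_eq_zero.1 (Nat.le_zero.1 (mem_small.1 hb).2)]
  | succ m ih =>
    have sub : small B (m + 1) ⊆ small B m ∪ (B ×ˢ small B m).image fun p => insert p.1 p.2 := by
      intro s hs
      obtain ⟨h1, h2⟩ := mem_small.1 hs
      rcases s.eq_empty_or_nonempty with rfl | ⟨x, hx⟩
      · exact Finset.mem_union_left _ (mem_small.2 ⟨h1, by simp⟩)
      · refine Finset.mem_union_right _ (Finset.mem_image.2 ⟨(x, s.erase x), Finset.mem_product.2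
          ⟨h1 hx, mem_small.2 ⟨(Finset.erase_subset _ _).trans h1, ?_⟩⟩, Finset.insert_erase hx⟩)
        simp only [Finset.card_erase_of_mem hx]; omega
    refine (Finset.card_le_card sub).trans ((Finset.card_union_le _ _).trans
      ((add_le_add le_rfl Finset.card_image_le).trans ?_))
    rw [Finset.card_product, pow_succ]
    nlinarith

end Pool.Agent.P.MP_86995c_pr
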