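import Pool.Agent.P.MP_86995c_pr.Upper

/-!
Existence of the limit, and the relation between bonds and contacts.
-/

set_option autoImplicit false
open Classical Set Filter Topology

namespace Pool.Agent.P.MP_86995c_pr

variable {d : ℕ}

theorem exists_scales (d : ℕ) (hd : 1 ≤ d) {ε : ℝ} (hε : 0 < ε) :
    ∀ᶠ n : ℕ in atTop, ∃ l m : ℕ, 0 < l ∧ 2 * d * (n + 1) ≤ l * m ∧ (l + 4) ^ d ≤ n ∧
      4 * d * (l + 4) ^ d ≤ m ∧ m * Real.log n ≤ ε * n := by
  have hlog : Tendsto (fun n : ℕ => Real.log n) atTop atTop :=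
    Real.tendsto_log_atTop.comp tendsto_natCast_atTop_atTop
  have hc : 0 < min (ε / 2) 1 / (1 + 4 * d * 6 ^ d) := by positivity
  have h1 := tendsto_natCast_atTop_atTop.eventually
    ((Real.isLittleO_pow_log_id_atTop (n := 2 * d + 1)).bound hc)
  filter_upwards [h1, hlog.eventually_ge_atTop 1, hlog.eventually_ge_atTop (8 * d / ε),
    eventually_ge_atTop 1] with n a1 a2 a3 a4
  set L := Real.log n with hL
  have hn : (1 : ℝ) ≤ n := by exact_mod_cast a4
  have hd' : (1 : ℝ) ≤ d := by exact_mod_cast hd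
  rw [id, Real.norm_of_nonneg (by positivity), Real.norm_of_nonneg (by positivity),
    div_mul_eq_mul_div, le_div_iff₀ (by positivity)] at a1
  rw [div_le_iff₀ hε] at a3
  have b1 : (1 : ℝ) ≤ L ^ 2 := one_le_pow₀ a2
  set l := ⌈L ^ 2⌉₊ with hl
  have l1 : L ^ 2 ≤ l := Nat.le_ceil _
  have l2 : (l : ℝ) < L ^ 2 + 1 := Nat.ceil_lt_add_one (by positivity)
  have l3 : (((l + 4) ^ d : ℕ) : ℝ) ≤ 6 ^ d * L ^ (2 * d) := by
    rw [pow_mul, ← mul_pow]
    push_cast
    exact pow_le_pow_left₀ (by positivity) (by linarith) d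
  set m₁ := ⌈4 * d * n / L ^ 2⌉₊ with hm₁
  have m1 : 4 * d * n / L ^ 2 ≤ m₁ := Nat.le_ceil _
  have m2 : (m₁ : ℝ) < 4 * d * n / L ^ 2 + 1 := Nat.ceil_lt_add_one (by positivity)
  have p1 : (1 : ℝ) ≤ L ^ (2 * d) := one_le_pow₀ a2
  have p2 : (0 : ℝ) < 6 ^ d := by positivity
  have p3 : min (ε / 2) 1 * n ≤ ε / 2 * n :=
    mul_le_mul_of_nonneg_right (min_le_left _ _) (by positivity)
  have p4 : min (ε / 2) 1 * n ≤ 1 * n :=
    mul_le_mul_of_nonneg_right (min_le_right _ _) (by positivity)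
  rw [pow_succ] at a1
  set P := L ^ (2 * d)
  set Q := (6 : ℝ) ^ d
  refine ⟨l, m₁ + 4 * d * (l + 4) ^ d, ?_, ?_, ?_, Nat.le_add_left _ _, ?_⟩
  · have : (0 : ℝ) < l := by linarith
    exact_mod_cast this
  · refine le_trans ?_ (Nat.mul_le_mul_left l (Nat.le_add_right _ _))
    have : (2 * d * (n + 1) : ℝ) ≤ l * m₁ := by
      rw [div_le_iff₀ (by positivity)] at m1
      have := mul_le_mul_of_nonneg_left l1 (Nat.cast_nonneg (α := ℝ) m₁)
      nlinarith
    exact_mod_cast this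
  · have : (((l + 4) ^ d : ℕ) : ℝ) ≤ n := by
      refine l3.trans (le_trans ?_ (a1.trans (p4.trans (by linarith))))
      have h3 : P ≤ P * L := le_mul_of_one_le_right (by linarith) a2
      have h4 : Q ≤ 1 + 4 * d * Q := by nlinarith
      rw [mul_comm]
      exact mul_le_mul h3 h4 p2.le (by positivity)
    exact_mod_cast this
  · have h3 : 4 * d * n / L ^ 2 * L ≤ ε / 2 * n := by
      rw [div_mul_eq_mul_div, div_le_iff₀ (by positivity)]
      have : 4 * d * (n * L) ≤ L * ε / 2 * (n * L) :=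
        mul_le_mul_of_nonneg_right (by linarith) (by positivity)
      nlinarith
    have h4 : (m₁ : ℝ) * L ≤ (4 * d * n / L ^ 2 + 1) * L :=
      mul_le_mul_of_nonneg_right m2.le (by linarith)
    have h5 : (4 * d * ((l + 4) ^ d : ℕ) : ℝ) * L ≤ 4 * d * (Q * P) * L := by gcongr
    have h6 : L ≤ P * L := le_mul_of_one_le_left (by linarith) p1
    rw [Nat.cast_add, Nat.cast_mul, Nat.cast_mul, add_mul]
    push_cast at h5 ⊢
    nlinarith

theorem eventually_upper (hd : 2 ≤ d) {γ δ : ℝ} (hγ : 0 ≤ γ) (hδ : 0 < δ) :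
    ∀ᶠ n : ℕ in atTop, Z d γ n ≤ Real.exp ((rate d γ + δ) * n) := by
  obtain ⟨K, C, hK, hC, hB⟩ := closed_bound hd hγ (half_pos hδ)
  set g := rate d γ + δ / 2 with hg'
  have hg : 0 ≤ g := by have := rate_nonneg hγ (⟨0, by omega⟩ : Fin d); linarith
  have hlK : 0 ≤ Real.log K := Real.log_nonneg hK
  set c : ℝ := 14 + 5 * (4 * d + 1) + 4 * Real.log K + g + (4 * C + 3 * γ) with hc
  have hc0 : 0 < c := by positivity
  have hlog : Tendsto (fun n : ℕ => Real.log n) atTop atTop :=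
    Real.tendsto_log_atTop.comp tendsto_natCast_atTop_atTop
  filter_upwards [exists_scales d (by omega) (div_pos (half_pos hδ) hc0),
    hlog.eventually_ge_atTop 1, eventually_ge_atTop 3, eventually_ge_atTop d] with n h1 h2 h3 h4
  obtain ⟨l, m, a1, a2, a3, a4, a5⟩ := h1
  refine (Z_upper hd hγ hK hg hC hB a1 a2 a3 a4).trans ?_
  have hm : 1 ≤ m := le_trans (Nat.mul_pos (by omega) (by positivity)) a4
  have e1 : 2 * n + 1 ≤ n ^ 2 := by nlinarith
  have e2 : (d * (2 * n + 1)) ^ 2 * (((2 * n + 1) ^ d) ^ 2 + 1) ^ (5 * m) * (n + 2) ^ 4 ≤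
      n ^ (14 + (4 * d + 1) * (5 * m)) := by
    have f1 : d * (2 * n + 1) ≤ n ^ 3 := by
      rw [pow_succ' n 2]; exact Nat.mul_le_mul h4 e1
    have f2 : ((2 * n + 1) ^ d) ^ 2 + 1 ≤ n ^ (4 * d + 1) := by
      have g1 : ((2 * n + 1) ^ d) ^ 2 ≤ ((n ^ 2) ^ d) ^ 2 := by gcongr
      have g2 : 1 ≤ n ^ (4 * d) := Nat.one_le_pow _ _ (by omega)
      rw [← pow_mul, ← pow_mul, ← pow_mul n, show 2 * (d * 2) = 4 * d by ring] at g1
      rw [← pow_mul, pow_succ]
      nlinarith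
    have f3 : n + 2 ≤ n ^ 2 := by omega
    calc _ ≤ (n ^ 3) ^ 2 * (n ^ (4 * d + 1)) ^ (5 * m) * (n ^ 2) ^ 4 := by gcongr
      _ = _ := by rw [← pow_mul, ← pow_mul, ← pow_mul, ← pow_add, ← pow_add]; congr 1; ring
  have hn : (0 : ℝ) < n := by exact_mod_cast (show 0 < n by omega)
  have e3 : ((n ^ (14 + (4 * d + 1) * (5 * m)) : ℕ) : ℝ) =
      Real.exp ((14 + (4 * d + 1) * (5 * m) : ℕ) * Real.log n) := by
    rw [Real.exp_nat_mul, Real.exp_log hn, Nat.cast_pow]
  have e4 : K ^ 4 = Real.exp (4 * Real.log K) := by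
    rw [show (4 : ℝ) = (4 : ℕ) by norm_num, Real.exp_nat_mul, Real.exp_log (by linarith)]
  refine (mul_le_mul_of_nonneg_right (Nat.cast_le.2 e2) (by positivity)).trans ?_
  rw [e3, e4, ← Real.exp_add, ← Real.exp_add, Real.exp_le_exp]
  set L := Real.log n
  have hm' : (1 : ℝ) ≤ m := by exact_mod_cast hm
  rw [div_mul_eq_mul_div, le_div_iff₀ hc0] at a5
  have q1 : L ≤ m * L := le_mul_of_one_le_left (by linarith) hm'
  have q2 : (m : ℝ) ≤ m * L := le_mul_of_one_le_right (by linarith) h2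
  have q3 : 1 ≤ m * L := hm'.trans q2
  have q4 := mul_le_mul_of_nonneg_left q2 (show 0 ≤ 4 * C + 3 * γ by positivity)
  have q5 := mul_le_mul_of_nonneg_left q3 (show 0 ≤ 4 * Real.log K + g by positivity)
  have q6 : rate d γ + δ = g + δ / 2 := by rw [hg']; ring
  rw [q6]
  push_cast
  rw [hc] at a5
  nlinarith

theorem tendsto_rate (hd : 2 ≤ d) {γ : ℝ} (hγ : 0 ≤ γ) :
    Tendsto (fun n : ℕ => 1 / (n : ℝ) * Real.log (Z d γ n)) atTop (𝓝 (rate d γ)) := by
  let i : Fin d := ⟨0, by omega⟩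
  refine tendsto_order.2 ⟨fun r hr => ?_, fun r hr => ?_⟩
  · obtain ⟨r', h1, h2⟩ := exists_between hr
    filter_upwards [eventually_lower hγ i h2, eventually_gt_atTop 0] with n a1 a2
    have hn : (0 : ℝ) < n := by exact_mod_cast a2
    have := (Real.le_log_iff_exp_le (by linarith [one_le_Z hγ i n])).2 a1
    rw [one_div_mul_eq_div]
    exact h1.trans_le ((le_div_iff₀ hn).2 this)
  · obtain ⟨r', h1, h2⟩ := exists_between hr
    filter_upwards [eventually_upper hd hγ (sub_pos.2 h1), eventually_gt_atTop 0] with n a1 a2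
    have hn : (0 : ℝ) < n := by exact_mod_cast a2
    have := (Real.log_le_iff_le_exp (by linarith [one_le_Z hγ i n])).2 a1
    rw [one_div_mul_eq_div]
    refine lt_of_le_of_lt ((div_le_iff₀ hn).2 ?_) h2
    simpa using this

theorem bonds_eq {n : ℕ} {w : Fin (n + 1) → Pt d} (hw : w ∈ saw d n) :
    bonds (range w) = 2 * n + 2 * ((Finset.univ : Finset (Fin (n + 1) × Fin (n + 1))).filter
      (fun p : Fin (n + 1) × Fin (n + 1) =>
        p.1.val + 1 < p.2.val ∧ ∑ k : Fin d, |w p.1 k - w p.2 k| = 1)).card := by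
  simp only [saw, Finset.mem_filter] at hw
  obtain ⟨-, -, hi, hadj⟩ := hw
  have hinj : Function.Injective w := fun i j => hi i j
  set A := (Finset.univ : Finset (Fin (n + 1) × Fin (n + 1))).filter
      (fun p : Fin (n + 1) × Fin (n + 1) =>
        p.1.val + 1 < p.2.val ∧ ∑ k : Fin d, |w p.1 k - w p.2 k| = 1) with hA
  set B : Finset (Fin (n + 1) × Fin (n + 1)) :=
    Finset.univ.image fun i : Fin n => (i.castSucc, i.succ) with hB
  have mA : ∀ p, p ∈ A ↔ p.1.val + 1 < p.2.val ∧ (lat d).Adj (w p.1) (w p.2) := fun p => by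
    simp only [hA, Finset.mem_filter, Finset.mem_univ, true_and, sum_abs_eq_one]
    rw [SimpleGraph.adj_comm]
  have mB : ∀ p, p ∈ B ↔ p.1.val + 1 = p.2.val := fun p => by
    simp only [hB, Finset.mem_image, Finset.mem_univ, true_and]
    constructor
    · rintro ⟨i, rfl⟩; simp
    · intro h
      exact ⟨⟨p.1, by have := p.2.2; omega⟩, Prod.ext (Fin.ext rfl) (Fin.ext h)⟩
  have aB : ∀ p ∈ B, (lat d).Adj (w p.1) (w p.2) := fun p hp => by
    obtain ⟨i, -, rfl⟩ := Finset.mem_image.1 hp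
    exact sum_abs_eq_one.1 (hadj i)
  have cB : B.card = n := by
    rw [hB, Finset.card_image_of_injective _ fun i j e => Fin.succ_injective _ (congrArg Prod.snd e)]
    simp
  have d1 : Disjoint A B := Finset.disjoint_left.2 fun p h1 h2 => by
    have := ((mA p).1 h1).1; have := (mB p).1 h2; omega
  have mU : ∀ p, p ∈ A ∪ B ↔ p.1.val < p.2.val ∧ (lat d).Adj (w p.1) (w p.2) := fun p => by
    rw [Finset.mem_union]
    constructor
    · rintro (h | h)
      · exact ⟨by have := ((mA p).1 h).1; omega, ((mA p).1 h).2⟩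
      · exact ⟨by have := (mB p).1 h; omega, aB p h⟩
    · rintro ⟨h1, h2⟩
      by_cases h : p.1.val + 1 = p.2.val
      · exact Or.inr ((mB p).2 h)
      · exact Or.inl ((mA p).2 ⟨by omega, h2⟩)
  have mS : ∀ p, p ∈ (A ∪ B).image Prod.swap ↔ p.swap ∈ A ∪ B := fun p => by
    rw [Finset.mem_image]
    exact ⟨fun ⟨q, hq, e⟩ => by rw [← e]; exact hq, fun h => ⟨_, h, rfl⟩⟩
  have d2 : Disjoint (A ∪ B) ((A ∪ B).image Prod.swap) := Finset.disjoint_left.2 fun p h1 h2 => by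
    have := ((mU p).1 h1).1
    have := ((mU _).1 ((mS p).1 h2)).1
    simp only [Prod.fst_swap, Prod.snd_swap] at this
    omega
  have e : bondSet (range w) = Prod.map w w '' ↑((A ∪ B) ∪ (A ∪ B).image Prod.swap) := by
    ext ⟨x, y⟩
    constructor
    · rintro ⟨⟨i, rfl⟩, ⟨j, rfl⟩, h⟩
      refine ⟨(i, j), ?_, rfl⟩
      rw [Finset.mem_coe, Finset.mem_union, mS, mU, mU]
      have : i.val ≠ j.val := fun e => h.ne (by rw [Fin.ext e])
      rcases lt_or_gt_of_ne this with h' | h'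
      · exact Or.inl ⟨h', h⟩
      · exact Or.inr ⟨h', h.symm⟩
    · rintro ⟨⟨i, j⟩, h, e⟩
      rw [← e]
      rw [Finset.mem_coe, Finset.mem_union, mS, mU, mU] at h
      exact ⟨⟨i, rfl⟩, ⟨j, rfl⟩, h.elim (fun h => h.2) fun h => h.2.symm⟩
  rw [bonds, e, ncard_image_of_injective _ (hinj.prodMap hinj), ncard_coe_finset,
    Finset.card_union_of_disjoint d2, Finset.card_image_of_injective _ Prod.swap_injective,
    Finset.card_union_of_disjoint d1, cB]
  ring

theorem free_energy (hd : 2 ≤ d) {β : ℝ} (hβ : 0 ≤ β) :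
    Tendsto (fun n : ℕ => 1 / (n : ℝ) * Real.log (∑ w ∈ saw d n,
      Real.exp (β * ((((Finset.univ : Finset (Fin (n + 1) × Fin (n + 1))).filter
        (fun p : Fin (n + 1) × Fin (n + 1) =>
          p.1.val + 1 < p.2.val ∧ ∑ k : Fin d, |w p.1 k - w p.2 k| = 1)).card : ℕ) : ℝ))))
      atTop (𝓝 (rate d (β / 2) - β)) := by
  have hγ : 0 ≤ β / 2 := by positivity
  refine ((tendsto_rate hd hγ).sub_const β).congr' ?_
  filter_upwards [eventually_gt_atTop 0] with n hn
  have hn' : (n : ℝ) ≠ 0 := by exact_mod_cast hn.ne'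
  have h1 := one_le_Z hγ (⟨0, by omega⟩ : Fin d) n
  have e : ∑ w ∈ saw d n,
      Real.exp (β * ((((Finset.univ : Finset (Fin (n + 1) × Fin (n + 1))).filter
        (fun p : Fin (n + 1) × Fin (n + 1) =>
          p.1.val + 1 < p.2.val ∧ ∑ k : Fin d, |w p.1 k - w p.2 k| = 1)).card : ℕ) : ℝ)) =
      Z d (β / 2) n * Real.exp (-(β * n)) := by
    rw [Z, Finset.sum_mul]
    refine Finset.sum_congr rfl fun w hw => ?_
    rw [← Real.exp_add, bonds_eq hw]
    congr 1
    push_cast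
    ring
  rw [e, Real.log_mul (by linarith) (Real.exp_pos _).ne', Real.log_exp]
  field_simp
  ring

end Pool.Agent.P.MP_86995c_pr
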