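import Pool.Agent.P.MP_86995c_pr.Basic

/-!
Graph lemmas: path graphs, deleting an edge from a union of loops, merging two loops.
-/

set_option autoImplicit false
open Classical Set

namespace Pool.Agent.P.MP_86995c_pr

section general
variable {V : Type*}

theorem reach_of_local {G G' : SimpleGraph V} {u v : V} (h : G.Reachable u v)
    (hl : ∀ b c, G.Reachable u b → G.Adj b c → G'.Reachable b c) : G'.Reachable u v := by
  rw [SimpleGraph.reachable_iff_reflTransGen] at h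
  induction h with
  | refl => rfl
  | tail hab hbc ih =>
    exact ih.trans (hl _ _ ((SimpleGraph.reachable_iff_reflTransGen _ _).2 hab) hbc)

theorem reach_induction {G : SimpleGraph V} {u v : V} (h : G.Reachable u v) {Q : V → Prop}
    (h0 : Q u) (hl : ∀ b c, G.Reachable u b → Q b → G.Adj b c → Q c) : Q v := by
  rw [SimpleGraph.reachable_iff_reflTransGen] at h
  induction h with
  | refl => exact h0
  | tail hab hbc ih => exact hl _ _ ((SimpleGraph.reachable_iff_reflTransGen _ _).2 hab) ih hbc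

theorem Two.other {G : SimpleGraph V} {v u : V} (h : Two G v) (hu : G.Adj v u) :
    ∃ a, a ≠ u ∧ ∀ w, G.Adj v w ↔ w = u ∨ w = a := by
  obtain ⟨a, b, hab, e⟩ := h
  rcases (e u).1 hu with rfl | rfl
  · exact ⟨b, hab.symm, e⟩
  · exact ⟨a, hab, fun w => (e w).trans or_comm⟩

theorem del_reach {G : SimpleGraph V} (hf : G.support.Finite) (h2 : ∀ v ∈ G.support, Two G v)
    {p q : V} (hpq : G.Adj p q) : (G.deleteEdges {s(p, q)}).Reachable p q := by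
  have : Finite G.support := hf
  have hc : (G.induce G.support).IsCycles := by
    rintro ⟨v, hv⟩ _
    obtain ⟨a, b, hab, e⟩ := h2 v hv
    have ha : a ∈ G.support := mem_supp.2 ⟨v, ((e a).2 (Or.inl rfl)).symm⟩
    have hb : b ∈ G.support := mem_supp.2 ⟨v, ((e b).2 (Or.inr rfl)).symm⟩
    rw [Set.ncard_eq_two]
    refine ⟨⟨a, ha⟩, ⟨b, hb⟩, fun h => hab (congrArg Subtype.val h), ?_⟩
    ext ⟨w, hw⟩
    simp [SimpleGraph.mem_neighborSet, e]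
  have hp : p ∈ G.support := mem_supp.2 ⟨q, hpq⟩
  have hq : q ∈ G.support := mem_supp.2 ⟨p, hpq.symm⟩
  have h := hc.reachable_deleteEdges (v := ⟨p, hp⟩) (w := ⟨q, hq⟩) hpq
  refine reach_induction h (Q := fun x => (G.deleteEdges {s(p, q)}).Reachable p x.1)
    (SimpleGraph.Reachable.refl _) ?_
  rintro ⟨b, hb⟩ ⟨c, hc⟩ _ ih hbc
  refine ih.trans (SimpleGraph.Adj.reachable ?_)
  rw [SimpleGraph.deleteEdges_adj] at hbc ⊢
  refine ⟨hbc.1, fun h => hbc.2 ?_⟩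
  simp only [mem_singleton_iff, Sym2.eq_iff, Subtype.mk.injEq] at h ⊢
  exact h

/-- after deleting an edge every vertex reaching one end still reaches one of the two ends -/
theorem reach_del_ends {G : SimpleGraph V} {p q v : V} (h : G.Reachable v p) :
    (G.deleteEdges {s(p, q)}).Reachable v p ∨ (G.deleteEdges {s(p, q)}).Reachable v q := by
  refine reach_induction h.symm (Q := fun x => (G.deleteEdges {s(p, q)}).Reachable x p ∨
    (G.deleteEdges {s(p, q)}).Reachable x q) (Or.inl (SimpleGraph.Reachable.refl _)) ?_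
  intro b c _ ih hbc
  by_cases e : s(c, b) = s(p, q)
  · rcases Sym2.eq_iff.1 e with ⟨rfl, _⟩ | ⟨rfl, _⟩
    · exact Or.inl (SimpleGraph.Reachable.refl _)
    · exact Or.inr (SimpleGraph.Reachable.refl _)
  · have : (G.deleteEdges {s(p, q)}).Adj c b := by
      rw [SimpleGraph.deleteEdges_adj]; exact ⟨hbc.symm, e⟩
    exact ih.imp this.reachable.trans this.reachable.trans

/-- the graph of the steps s, ..., t - 1 of a sequence -/
def pg (ω : ℕ → V) (s t : ℕ) : SimpleGraph V :=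
  SimpleGraph.fromRel (fun x y => ∃ k, s ≤ k ∧ k < t ∧ x = ω k ∧ y = ω (k + 1))

theorem pg_adj {ω : ℕ → V} {s t : ℕ} (hi : InjOn ω (Icc s t)) {x y : V} :
    (pg ω s t).Adj x y ↔ ∃ k, s ≤ k ∧ k < t ∧
      ((x = ω k ∧ y = ω (k + 1)) ∨ (y = ω k ∧ x = ω (k + 1))) := by
  rw [pg, SimpleGraph.fromRel_adj]
  constructor
  · rintro ⟨_, ⟨k, h1, h2, h3⟩ | ⟨k, h1, h2, h3⟩⟩
    · exact ⟨k, h1, h2, Or.inl h3⟩
    · exact ⟨k, h1, h2, Or.inr h3⟩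
  · rintro ⟨k, h1, h2, h3⟩
    have hne : ω k ≠ ω (k + 1) := fun e => by
      have := hi ⟨h1, h2.le⟩ ⟨by omega, h2⟩ e; omega
    rcases h3 with ⟨rfl, rfl⟩ | ⟨rfl, rfl⟩
    · exact ⟨hne, Or.inl ⟨k, h1, h2, rfl, rfl⟩⟩
    · exact ⟨hne.symm, Or.inr ⟨k, h1, h2, rfl, rfl⟩⟩

theorem pg_adj_at {ω : ℕ → V} {s t : ℕ} (hi : InjOn ω (Icc s t)) {k : ℕ} (h1 : s ≤ k)
    (h2 : k ≤ t) {y : V} :
    (pg ω s t).Adj (ω k) y ↔ (s < k ∧ y = ω (k - 1)) ∨ (k < t ∧ y = ω (k + 1)) := by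
  rw [pg_adj hi]
  constructor
  · rintro ⟨j, a, b, ⟨c, rfl⟩ | ⟨rfl, c⟩⟩
    · obtain rfl : k = j := hi ⟨h1, h2⟩ ⟨a, b.le⟩ c
      exact Or.inr ⟨b, rfl⟩
    · obtain rfl : k = j + 1 := hi ⟨h1, h2⟩ ⟨by omega, b⟩ c
      exact Or.inl ⟨by omega, rfl⟩
  · rintro (⟨a, rfl⟩ | ⟨a, rfl⟩)
    · exact ⟨k - 1, by omega, by omega, Or.inr ⟨rfl, by rw [Nat.sub_add_cancel (by omega)]⟩⟩
    · exact ⟨k, h1, a, Or.inl ⟨rfl, rfl⟩⟩

theorem pg_mem {ω : ℕ → V} {s t : ℕ} (hi : InjOn ω (Icc s t)) {x y : V}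
    (h : (pg ω s t).Adj x y) : ∃ k, s ≤ k ∧ k ≤ t ∧ x = ω k := by
  obtain ⟨k, a, b, ⟨rfl, _⟩ | ⟨_, rfl⟩⟩ := (pg_adj hi).1 h
  · exact ⟨k, a, b.le, rfl⟩
  · exact ⟨k + 1, by omega, b, rfl⟩

theorem pg_step {ω : ℕ → V} {s t : ℕ} (hi : InjOn ω (Icc s t)) {k : ℕ} (h1 : s ≤ k)
    (h2 : k < t) : (pg ω s t).Adj (ω k) (ω (k + 1)) :=
  (pg_adj hi).2 ⟨k, h1, h2, Or.inl ⟨rfl, rfl⟩⟩

theorem pg_reach {ω : ℕ → V} {s t : ℕ} (hi : InjOn ω (Icc s t)) {k : ℕ} (h1 : s ≤ k)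
    (h2 : k ≤ t) : (pg ω s t).Reachable (ω s) (ω k) := by
  induction k, h1 using Nat.le_induction with
  | base => rfl
  | succ k hk ih => exact (ih (by omega)).trans (pg_step hi hk (by omega)).reachable

theorem pg_two {ω : ℕ → V} {s t : ℕ} (hi : InjOn ω (Icc s t)) {k : ℕ} (h1 : s < k)
    (h2 : k < t) : Two (pg ω s t) (ω k) := by
  refine ⟨ω (k - 1), ω (k + 1), fun e => ?_, fun w => ?_⟩
  · have := hi ⟨by omega, by omega⟩ ⟨by omega, by omega⟩ e; omega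
  · rw [pg_adj_at hi h1.le h2.le]; simp [h1, h2]

theorem exists_seq {G : SimpleGraph V} {a b : V} (h : G.Reachable a b) :
    ∃ (n : ℕ) (ω : ℕ → V), ω 0 = a ∧ ω n = b ∧ InjOn ω (Icc 0 n) ∧
      ∀ k < n, G.Adj (ω k) (ω (k + 1)) := by
  obtain ⟨p, hp⟩ := h.exists_isPath
  exact ⟨p.length, p.getVert, p.getVert_zero, p.getVert_length,
    fun i hi j hj e => hp.getVert_injOn hi.2 hj.2 e, fun k hk => p.adj_getVert_succ hk⟩

end general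

variable {d : ℕ}

/-- the lattice restricted to a set -/
def latOn (S : Set (Pt d)) : SimpleGraph (Pt d) where
  Adj x y := (lat d).Adj x y ∧ x ∈ S ∧ y ∈ S
  symm := ⟨fun _ _ h => ⟨h.1.symm, h.2.2, h.2.1⟩⟩
  loopless := ⟨fun _ h => h.1.ne rfl⟩

theorem add_path {A : SimpleGraph (Pt d)} {S : Set (Pt d)} {a b a' b' : Pt d} (hab : a ≠ b)
    (hr : (latOn S).Reachable a b) (hs : S ∩ A.support ⊆ {a, b})
    (ha : ∀ w, A.Adj a w ↔ w = a') (ha' : a' ∉ S) (hb : ∀ w, A.Adj b w ↔ w = b') (hb' : b' ∉ S) :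
    ∃ B : SimpleGraph (Pt d), B ≤ lat d ∧ B.support.Finite ∧ B.support ⊆ S ∧
      (∀ v ∈ B.support, B.Reachable a v) ∧ B.Reachable a b ∧ a ∈ S ∧ b ∈ S ∧
      (∀ v ∈ S, v ∈ (A ⊔ B).support → Two (A ⊔ B) v) := by
  obtain ⟨n, ω, h0, hn, hi, hadj⟩ := exists_seq hr
  have hn0 : 0 < n := Nat.pos_of_ne_zero fun e => hab (by rw [← h0, ← hn, e])
  have hS : ∀ k ≤ n, ω k ∈ S := by
    intro k hk
    rcases Nat.eq_zero_or_pos k with rfl | hk0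
    · exact (hadj 0 hn0).2.1
    · have := (hadj (k - 1) (by omega)).2.2
      rwa [Nat.sub_add_cancel hk0] at this
  have hsupp : (pg ω 0 n).support ⊆ ω '' Icc 0 n := by
    intro v hv
    obtain ⟨w, hw⟩ := mem_supp.1 hv
    obtain ⟨k, h1, h2, rfl⟩ := pg_mem hi hw
    exact ⟨k, ⟨h1, h2⟩, rfl⟩
  refine ⟨pg ω 0 n, ?_, ((finite_Icc 0 n).image ω).subset hsupp, ?_, ?_, ?_, h0 ▸ hS 0 hn0.le,
    hn ▸ hS n le_rfl, ?_⟩
  · intro x y hxy
    obtain ⟨k, _, h2, ⟨rfl, rfl⟩ | ⟨rfl, rfl⟩⟩ := (pg_adj hi).1 hxy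
    · exact (hadj k h2).1
    · exact (hadj k h2).1.symm
  · intro v hv
    obtain ⟨k, hk, rfl⟩ := hsupp hv
    exact hS k hk.2
  · intro v hv
    obtain ⟨k, hk, rfl⟩ := hsupp hv
    exact h0 ▸ pg_reach hi hk.1 hk.2
  · exact h0 ▸ hn ▸ pg_reach hi (Nat.zero_le _) le_rfl
  · intro v hv hsv
    by_cases hva : v = a
    · subst hva
      refine ⟨a', ω 1, fun e => ha' (e ▸ hS 1 hn0), fun w => ?_⟩
      rw [SimpleGraph.sup_adj, ha, ← h0, pg_adj_at hi le_rfl hn0.le]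
      simp [hn0]
    by_cases hvb : v = b
    · subst hvb
      refine ⟨b', ω (n - 1), fun e => hb' (e ▸ hS (n - 1) (by omega)), fun w => ?_⟩
      rw [SimpleGraph.sup_adj, hb, ← hn, pg_adj_at hi hn0.le le_rfl]
      simp [hn0]
    have hA : v ∉ A.support := fun h => by
      rcases hs ⟨hv, h⟩ with h | h
      · exact hva h
      · exact hvb h
    rw [supp_sup] at hsv
    obtain ⟨k, hk, rfl⟩ := hsupp (hsv.resolve_left hA)
    have hk0 : 0 < k := Nat.pos_of_ne_zero fun e => hva (by rw [e, h0])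
    have hkn : k < n := lt_of_le_of_ne hk.2 fun e => hvb (by rw [e, hn])
    obtain ⟨x, y, hxy, e⟩ := pg_two hi hk0 hkn
    refine ⟨x, y, hxy, fun w => ?_⟩
    rw [SimpleGraph.sup_adj, e]
    exact or_iff_right fun h => hA (mem_supp.2 ⟨w, h⟩)

theorem merge {H : SimpleGraph (Pt d)} (hH : Piece univ H) {p₁ p₂ q₁ q₂ : Pt d}
    (hp : H.Adj p₁ p₂) (hq : H.Adj q₁ q₂) (hn : ¬ H.Reachable p₁ q₁) {S₁ S₂ : Set (Pt d)}
    (hd : Disjoint S₁ S₂) (h1 : (latOn S₁).Reachable p₁ q₁) (h2 : (latOn S₂).Reachable p₂ q₂)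
    (hs1 : S₁ ∩ H.support ⊆ {p₁, q₁}) (hs2 : S₂ ∩ H.support ⊆ {p₂, q₂}) :
    ∃ H' : SimpleGraph (Pt d), Piece univ H' ∧ (∀ x y, H.Reachable x y → H'.Reachable x y) ∧
      H'.Reachable p₁ q₁ ∧ H.support ⊆ H'.support ∧ H'.support ⊆ H.support ∪ (S₁ ∪ S₂) ∧
      (∀ x y, x ∉ S₁ ∪ S₂ → (H'.Adj x y ↔ H.Adj x y)) ∧
      (∀ v ∈ H'.support, ∃ u ∈ H.support, H'.Reachable v u) := by
  have two : ∀ v ∈ H.support, Two H v := fun v hv => hH.two v trivial hv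
  have n11 : p₁ ≠ q₁ := fun e => hn (e ▸ SimpleGraph.Reachable.refl _)
  have n12 : p₁ ≠ q₂ := fun e => hn (e ▸ hq.symm.reachable)
  have n21 : p₂ ≠ q₁ := fun e => hn (e ▸ hp.reachable)
  have n22 : p₂ ≠ q₂ := fun e => hn (hp.reachable.trans (e ▸ hq.symm.reachable))
  have hn2 : ¬ H.Reachable p₂ q₂ := fun h => hn (hp.reachable.trans (h.trans hq.symm.reachable))
  set A := H.deleteEdges {s(p₁, p₂), s(q₁, q₂)} with hA
  have Aadj : ∀ x y, A.Adj x y ↔ H.Adj x y ∧ s(x, y) ≠ s(p₁, p₂) ∧ s(x, y) ≠ s(q₁, q₂) := by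
    intro x y
    rw [hA, SimpleGraph.deleteEdges_adj]
    simp only [mem_insert_iff, mem_singleton_iff, not_or, ne_eq]
  have AH : A ≤ H := fun x y h => ((Aadj x y).1 h).1
  have Asupp : A.support ⊆ H.support := SimpleGraph.support_mono AH
  obtain ⟨a₁, ha₁, e₁⟩ := (two p₁ (mem_supp.2 ⟨_, hp⟩)).other hp
  obtain ⟨a₂, ha₂, e₂⟩ := (two p₂ (mem_supp.2 ⟨_, hp.symm⟩)).other hp.symm
  obtain ⟨b₁, hb₁, f₁⟩ := (two q₁ (mem_supp.2 ⟨_, hq⟩)).other hq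
  obtain ⟨b₂, hb₂, f₂⟩ := (two q₂ (mem_supp.2 ⟨_, hq.symm⟩)).other hq.symm
  have hpne := hp.ne
  have hqne := hq.ne
  have A1 : ∀ w, A.Adj p₁ w ↔ w = a₁ := fun w => by
    rw [Aadj, e₁]; simp only [ne_eq, Sym2.eq_iff]; grind
  have A2 : ∀ w, A.Adj p₂ w ↔ w = a₂ := fun w => by
    rw [Aadj, e₂]; simp only [ne_eq, Sym2.eq_iff]; grind
  have B1 : ∀ w, A.Adj q₁ w ↔ w = b₁ := fun w => by
    rw [Aadj, f₁]; simp only [ne_eq, Sym2.eq_iff]; grind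
  have B2 : ∀ w, A.Adj q₂ w ↔ w = b₂ := fun w => by
    rw [Aadj, f₂]; simp only [ne_eq, Sym2.eq_iff]; grind
  have pa₁ : H.Adj p₁ a₁ := (e₁ _).2 (Or.inr rfl)
  have pa₂ : H.Adj p₂ a₂ := (e₂ _).2 (Or.inr rfl)
  have qb₁ : H.Adj q₁ b₁ := (f₁ _).2 (Or.inr rfl)
  have qb₂ : H.Adj q₂ b₂ := (f₂ _).2 (Or.inr rfl)
  have na₁ : a₁ ∉ S₁ := fun h => by
    rcases hs1 ⟨h, mem_supp.2 ⟨_, pa₁.symm⟩⟩ with e | e
    · exact pa₁.ne e.symm
    · exact hn (e ▸ pa₁.reachable)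
  have nb₁ : b₁ ∉ S₁ := fun h => by
    rcases hs1 ⟨h, mem_supp.2 ⟨_, qb₁.symm⟩⟩ with e | e
    · exact hn (e ▸ qb₁.symm.reachable)
    · exact qb₁.ne e.symm
  have na₂ : a₂ ∉ S₂ := fun h => by
    rcases hs2 ⟨h, mem_supp.2 ⟨_, pa₂.symm⟩⟩ with e | e
    · exact pa₂.ne e.symm
    · exact hn2 (e ▸ pa₂.reachable)
  have nb₂ : b₂ ∉ S₂ := fun h => by
    rcases hs2 ⟨h, mem_supp.2 ⟨_, qb₂.symm⟩⟩ with e | e
    · exact hn2 (e ▸ qb₂.symm.reachable)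
    · exact qb₂.ne e.symm
  obtain ⟨B, B_le, B_fin, B_S, B_r, B_ab, hp₁, hq₁, B_two⟩ :=
    add_path n11 h1 ((inter_subset_inter_right _ Asupp).trans hs1) A1 na₁ B1 nb₁
  obtain ⟨C, C_le, C_fin, C_S, C_r, C_ab, hp₂, hq₂, C_two⟩ :=
    add_path n22 h2 ((inter_subset_inter_right _ Asupp).trans hs2) A2 na₂ B2 nb₂
  have nB : ∀ x y, x ∉ S₁ → ¬ B.Adj x y := fun x y hx h => hx (B_S (mem_supp.2 ⟨y, h⟩))
  have nC : ∀ x y, x ∉ S₂ → ¬ C.Adj x y := fun x y hx h => hx (C_S (mem_supp.2 ⟨y, h⟩))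
  have out : ∀ x y, x ∉ S₁ ∪ S₂ → ((A ⊔ B ⊔ C).Adj x y ↔ H.Adj x y) := by
    intro x y hx
    have hx1 : x ∉ S₁ := fun h => hx (Or.inl h)
    have hx2 : x ∉ S₂ := fun h => hx (Or.inr h)
    simp only [SimpleGraph.sup_adj, nB x y hx1, nC x y hx2, or_false, Aadj]
    refine and_iff_left ⟨fun e => ?_, fun e => ?_⟩
    · rcases Sym2.eq_iff.1 e with ⟨rfl, _⟩ | ⟨rfl, _⟩
      · exact hx1 hp₁
      · exact hx2 hp₂
    · rcases Sym2.eq_iff.1 e with ⟨rfl, _⟩ | ⟨rfl, _⟩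
      · exact hx1 hq₁
      · exact hx2 hq₂
  have lA : A ≤ A ⊔ B ⊔ C := le_sup_left.trans le_sup_left
  have lB : B ≤ A ⊔ B ⊔ C := le_sup_right.trans le_sup_left
  have lC : C ≤ A ⊔ B ⊔ C := le_sup_right
  have rp : A.Reachable p₁ p₂ := by
    refine reach_of_local (del_reach hH.fin two hp) fun b c hb hbc => ?_
    rw [SimpleGraph.deleteEdges_adj] at hbc
    have hb' : H.Reachable p₁ b := hb.mono (SimpleGraph.deleteEdges_le _)
    refine SimpleGraph.Adj.reachable ((Aadj b c).2 ⟨hbc.1, hbc.2, fun e => ?_⟩)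
    rcases Sym2.eq_iff.1 e with ⟨rfl, _⟩ | ⟨rfl, _⟩
    · exact hn hb'
    · exact hn (hb'.trans hq.symm.reachable)
  have rq : A.Reachable q₁ q₂ := by
    refine reach_of_local (del_reach hH.fin two hq) fun b c hb hbc => ?_
    rw [SimpleGraph.deleteEdges_adj] at hbc
    have hb' : H.Reachable q₁ b := hb.mono (SimpleGraph.deleteEdges_le _)
    refine SimpleGraph.Adj.reachable ((Aadj b c).2 ⟨hbc.1, fun e => ?_, hbc.2⟩)
    rcases Sym2.eq_iff.1 e with ⟨rfl, _⟩ | ⟨rfl, _⟩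
    · exact hn hb'.symm
    · exact hn (hp.reachable.trans hb'.symm)
  refine ⟨A ⊔ B ⊔ C, ⟨sup_le (sup_le (AH.trans hH.le) B_le) C_le, ?_, ?_,
    fun _ _ _ => Or.inl trivial⟩, ?_, B_ab.mono lB, ?_, ?_, out, ?_⟩
  · rw [supp_sup, supp_sup]
    exact ((hH.fin.subset Asupp).union B_fin).union C_fin
  · intro v _ hv
    obtain ⟨w, hw⟩ := mem_supp.1 hv
    by_cases hv1 : v ∈ S₁
    · have hv2 : v ∉ S₂ := disjoint_left.1 hd hv1
      have e : ∀ w, (A ⊔ B ⊔ C).Adj v w ↔ (A ⊔ B).Adj v w := fun w => by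
        rw [SimpleGraph.sup_adj]; exact or_iff_left (nC v w hv2)
      obtain ⟨x, y, hxy, e'⟩ := B_two v hv1 (mem_supp.2 ⟨w, (e w).1 hw⟩)
      exact ⟨x, y, hxy, fun w => (e w).trans (e' w)⟩
    by_cases hv2 : v ∈ S₂
    · have e : ∀ w, (A ⊔ B ⊔ C).Adj v w ↔ (A ⊔ C).Adj v w := fun w => by
        simp only [SimpleGraph.sup_adj, nB v w hv1, or_false]
      obtain ⟨x, y, hxy, e'⟩ := C_two v hv2 (mem_supp.2 ⟨w, (e w).1 hw⟩)
      exact ⟨x, y, hxy, fun w => (e w).trans (e' w)⟩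
    · have e := fun w => out v w (by rintro (h | h); exacts [hv1 h, hv2 h])
      obtain ⟨x, y, hxy, e'⟩ := two v (mem_supp.2 ⟨w, (e w).1 hw⟩)
      exact ⟨x, y, hxy, fun w => (e w).trans (e' w)⟩
  · intro x y hxy
    refine reach_of_local hxy fun b c _ hbc => SimpleGraph.Reachable.mono lA ?_
    by_cases e1 : s(b, c) = s(p₁, p₂)
    · rcases Sym2.eq_iff.1 e1 with ⟨rfl, rfl⟩ | ⟨rfl, rfl⟩
      · exact rp
      · exact rp.symm
    by_cases e2 : s(b, c) = s(q₁, q₂)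
    · rcases Sym2.eq_iff.1 e2 with ⟨rfl, rfl⟩ | ⟨rfl, rfl⟩
      · exact rq
      · exact rq.symm
    exact ((Aadj b c).2 ⟨hbc, e1, e2⟩).reachable
  · intro v hv
    refine SimpleGraph.support_mono lA ?_
    obtain ⟨w, hw⟩ := mem_supp.1 hv
    by_cases e1 : s(v, w) = s(p₁, p₂)
    · rcases Sym2.eq_iff.1 e1 with ⟨rfl, rfl⟩ | ⟨rfl, rfl⟩
      · exact mem_supp.2 ⟨_, (A1 _).2 rfl⟩
      · exact mem_supp.2 ⟨_, (A2 _).2 rfl⟩
    by_cases e2 : s(v, w) = s(q₁, q₂)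
    · rcases Sym2.eq_iff.1 e2 with ⟨rfl, rfl⟩ | ⟨rfl, rfl⟩
      · exact mem_supp.2 ⟨_, (B1 _).2 rfl⟩
      · exact mem_supp.2 ⟨_, (B2 _).2 rfl⟩
    exact mem_supp.2 ⟨w, (Aadj v w).2 ⟨hw, e1, e2⟩⟩
  · rw [supp_sup, supp_sup]
    rintro v ((hv | hv) | hv)
    · exact Or.inl (Asupp hv)
    · exact Or.inr (Or.inl (B_S hv))
    · exact Or.inr (Or.inr (C_S hv))
  · rw [supp_sup, supp_sup]
    rintro v ((hv | hv) | hv)
    · exact ⟨v, Asupp hv, SimpleGraph.Reachable.refl _⟩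
    · exact ⟨p₁, mem_supp.2 ⟨_, hp⟩, ((B_r v hv).mono lB).symm⟩
    · exact ⟨p₂, mem_supp.2 ⟨_, hp.symm⟩, ((C_r v hv).mono lC).symm⟩

end Pool.Agent.P.MP_86995c_pr
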