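import Pool.Agent.P.MP_86995c_pr.Final

/-!
Concatenation of polygons into polygons of every large even length.
-/

set_option autoImplicit false
open Classical Set Filter

namespace Pool.Agent.P.MP_86995c_pr

variable {d : ℕ}

theorem chain2 {γ : ℝ} (hγ : 0 ≤ γ) {i : Fin d} {a b : ℤ} {T : Set (Pt d × Pt d)} {N : ℕ}
    {F : Finset (SimpleGraph (Pt d))} (hF : SlabFam univ i a b T N ∅ F) (k : ℕ) :
    ∃ (a' b' : ℤ) (T' : Set (Pt d × Pt d)) (F' : Finset (SimpleGraph (Pt d))),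
      SlabFam univ i a' b' T' N ∅ F' ∧ W γ (slab univ i a' b') F' = W γ (slab univ i a b) F ∧
      ((F.Nonempty ∧ (lends T i a).Nonempty ∧ (rends T i b).Nonempty) →
        (F'.Nonempty ∧ (lends T' i a').Nonempty ∧ (rends T' i b').Nonempty)) ∧
      ∀ (TK : Set (Pt d × Pt d)) (c : ℕ) (XK : Set (Pt d)) (FK : Finset (SimpleGraph (Pt d))),
        Fam (lft univ i a) TK c XK FK →
        (∀ G₁ ∈ FK, ∀ G₂ ∈ F, ∀ v ∈ lft univ i a, ∀ w ∈ slab univ i a b,
          G₁.Adj v w ↔ G₂.Adj v w) →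
        ∃ (TG : Set (Pt d × Pt d)) (FG : Finset (SimpleGraph (Pt d))),
          Fam (lft univ i a') TG (c + k * N) XK FG ∧
          (∀ G₁ ∈ FG, ∀ G₂ ∈ F', ∀ v ∈ lft univ i a', ∀ w ∈ slab univ i a' b',
            G₁.Adj v w ↔ G₂.Adj v w) ∧
          W γ (lft univ i a) FK * W γ (slab univ i a b) F ^ k ≤ W γ (lft univ i a') FG := by
  induction k with
  | zero =>
    exact ⟨a, b, T, F, hF, rfl, id, fun TK c XK FK hK hc =>
      ⟨TK, FK, by simpa using hK, hc, by simp⟩⟩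
  | succ k ih =>
    obtain ⟨a', b', T', F', s1, s4, s5, s⟩ := ih
    obtain ⟨m1, m2, m3, m4⟩ := s1.mirror (fun _ _ => Iff.rfl)
    set r := refl i (2 * (b' - 1) + 1) with hr
    have ha : IsAut r := refl_aut i _
    have hd := lft_disj (univ : Set (Pt d)) i a' b'
    have hU := lft_union (univ : Set (Pt d)) i s1.lt
    rw [preimage_empty] at m4
    refine ⟨b', b' + (b' - a'), _, comapF r F', m4, ?_, ?_, fun TK c XK FK hK hc => ?_⟩
    · rw [← m1, W_comap ha, s4]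
    · intro hne
      obtain ⟨⟨G, hG⟩, ⟨x, hx⟩, ⟨y, hy⟩⟩ := s5 hne
      obtain ⟨x, rfl⟩ := ha.bij.2 x
      obtain ⟨y, rfl⟩ := ha.bij.2 y
      exact ⟨⟨_, mem_comapF.2 ⟨G, hG, rfl⟩⟩, ⟨y, m2 ▸ hy⟩, ⟨x, m3 ▸ hx⟩⟩
    obtain ⟨TG, FG, s6, s10, s11⟩ := s TK c XK FK hK hc
    have hA : ∀ G₁ ∈ FG, ∀ G₂ ∈ F', Anch XK (G₁ ⊔ G₂) := by
      intro G₁ hG₁ G₂ hG₂ v hv
      have left : ∀ u ∈ G₁.support, ∃ x ∈ XK, (G₁ ⊔ G₂).Reachable u x := fun u hu => by
        obtain ⟨x, hx, hr⟩ := s6.anch _ hG₁ u hu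
        exact ⟨x, hx, hr.mono le_sup_left⟩
      rw [supp_sup] at hv
      rcases hv with hv | hv
      · exact left v hv
      · obtain ⟨x, hx, hr⟩ := s1.fam.anch _ hG₂ v hv
        rcases hx with hx | ⟨u, hu, hx⟩
        · exact absurd hx (notMem_empty x)
        · have hu' := hu
          rw [← s1.fam.cr _ hG₂] at hu'
          have huS : u ∈ slab univ i a' b' :=
            ((s1.fam.piece _ hG₂).inR _ _ hu'.1).resolve_right hu'.2
          have : G₁.Adj x u := (s10 _ hG₁ _ hG₂ x ⟨trivial, hx⟩ u huS).2 hu'.1.symm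
          obtain ⟨y, hy, hr'⟩ := left x (mem_supp.2 ⟨u, this⟩)
          exact ⟨y, hy, (hr.mono le_sup_right).trans hr'⟩
    have g1 := glue_fam hd s6 s1.fam s10 hA
    have g2 := glue_W hγ hd s6.piece s1.fam.piece s10
    rw [hU] at g1 g2
    rw [show c + k * N + N = c + (k + 1) * N by ring] at g1
    refine ⟨_, glueF FG F', g1, ?_, ?_⟩
    · intro G hG G₃ hG₃ v hv w hw
      obtain ⟨G₁, hG₁, G₂, hG₂, rfl⟩ := mem_glueF.1 hG
      obtain ⟨G₃, hG₃', rfl⟩ := mem_comapF.1 hG₃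
      have hv2 : v i < b' := hv.2
      have hw2 : b' ≤ w i := hw.2.1
      have hw' : w ∉ slab univ i a' b' := fun h' => by have := h'.2.2; omega
      have lG := (g1.piece _ hG).le
      refine mirror_compat lG (s1.fam.piece _ hG₃').le (by omega) (by omega) ?_
      have key : (lat d).Adj v w → v ∈ slab univ i a' b' := fun h => by
        have := lat_adj_coord h i
        have := s1.lt
        exact ⟨hv.1, by omega, hv2⟩
      have e : v ∈ slab univ i a' b' → ((G₁ ⊔ G₂).Adj v w ↔ G₃.Adj v w) := fun hvS => by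
        rw [glue_adj' hd (s6.piece _ hG₁) (fun v hv w hw => (s10 _ hG₁ _ hG₂ v hv w hw).1) hvS w,
          s1.fam.adj_iff hG₂ v hw', s1.fam.adj_iff hG₃' v hw']
      exact ⟨fun h => (e (key (lG h))).1 h,
        fun h => (e (key ((s1.fam.piece _ hG₃').le h))).2 h⟩
    · rw [pow_succ, ← mul_assoc]
      refine le_trans ?_ g2
      rw [s4]
      exact mul_le_mul_of_nonneg_right s11 (W_nonneg _ _ _)

theorem close2 {γ : ℝ} (hγ : 0 ≤ γ) {i : Fin d} {a b : ℤ} (hab : a < b)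
    {T₁ T₂ : Set (Pt d × Pt d)} {N₁ N₂ : ℕ} {x₁ x₂ : Pt d}
    {F₁ F₂ : Finset (SimpleGraph (Pt d))} {G' : SimpleGraph (Pt d)}
    (h₁ : Fam (lft univ i a) T₁ N₁ {x₁} F₁) (h₂ : Fam (lft univ i a) T₂ N₂ {x₂} F₂)
    (c₁ : ∀ G ∈ F₁, ∀ v ∈ lft univ i a, ∀ w ∈ slab univ i a b, G.Adj v w ↔ G'.Adj v w)
    (c₂ : ∀ G ∈ F₂, ∀ v ∈ lft univ i a, ∀ w ∈ slab univ i a b, G.Adj v w ↔ G'.Adj v w)
    {u v : Pt d} (hu : u ∈ lft univ i a) (hv : v ∈ slab univ i a b) (huv : G'.Adj u v) :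
    ∃ T F, Fam univ T (N₁ + N₂) {x₁} F ∧
      W γ (lft univ i a) F₁ * W γ (lft univ i a) F₂ ≤ W γ univ F := by
  set r := refl i (2 * (a - 1) + 1) with hr
  have ha : IsAut r := refl_aut i _
  have h₂' := h₂.comap ha
  have hW := W_comap ha γ (lft univ i a) F₂
  have eR : r ⁻¹' (lft univ i a) = {x | a ≤ x i} := by
    ext x
    simp only [lft, mem_preimage, mem_inter_iff, mem_ofPred_eq, mem_univ, true_and, hr, refl_self]
    omega
  rw [eR] at h₂' hW
  have hd : Disjoint (lft univ i a) {x : Pt d | a ≤ x i} :=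
    disjoint_left.2 fun x h1 h2 => by
      have a1 := h1.2; simp only [mem_ofPred_eq] at a1 h2; omega
  have hU : lft univ i a ∪ {x : Pt d | a ≤ x i} = univ := by
    ext x
    simp only [lft, mem_union, mem_inter_iff, mem_ofPred_eq, mem_univ, true_and, iff_true]
    omega
  have hc : ∀ G₁ ∈ F₁, ∀ G₂ ∈ comapF r F₂, ∀ v ∈ lft univ i a, ∀ w ∈ {x : Pt d | a ≤ x i},
      G₁.Adj v w ↔ G₂.Adj v w := by
    intro G₁ hG₁ G₂ hG₂ v hv w hw
    obtain ⟨G₂, hG₂', rfl⟩ := mem_comapF.1 hG₂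
    have hv2 : v i < a := hv.2
    have hw2 : a ≤ w i := hw
    refine mirror_compat (h₁.piece _ hG₁).le (h₂.piece _ hG₂').le (by omega) (by omega) ?_
    have key : (lat d).Adj v w → w ∈ slab univ i a b := fun h => by
      have := lat_adj_coord h i
      exact ⟨trivial, hw2, by omega⟩
    constructor
    · intro h
      have hs := key ((h₁.piece _ hG₁).le h)
      exact (c₂ _ hG₂' v hv w hs).2 ((c₁ _ hG₁ v hv w hs).1 h)
    · intro h
      have hs := key ((h₂.piece _ hG₂').le h)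
      exact (c₁ _ hG₁ v hv w hs).2 ((c₂ _ hG₂' v hv w hs).1 h)
  have hA : ∀ G₁ ∈ F₁, ∀ G₂ ∈ comapF r F₂, Anch {x₁} (G₁ ⊔ G₂) := by
    intro G₁ hG₁ G₂ hG₂ y hy
    have a1 : G₁.Adj u v := (c₁ _ hG₁ u hu v hv).2 huv
    have a2 : G₂.Adj u v := (hc _ hG₁ _ hG₂ u hu v hv.2.1).1 a1
    have left : ∀ z ∈ G₁.support, ∃ x ∈ ({x₁} : Set (Pt d)), (G₁ ⊔ G₂).Reachable z x :=
      fun z hz => by
        obtain ⟨x, hx, hr⟩ := h₁.anch _ hG₁ z hz
        exact ⟨x, hx, hr.mono le_sup_left⟩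
    rw [supp_sup] at hy
    rcases hy with hy | hy
    · exact left y hy
    · obtain ⟨x, hx, r1⟩ := h₂'.anch _ hG₂ y hy
      obtain ⟨x', hx', r2⟩ := h₂'.anch _ hG₂ u (mem_supp.2 ⟨v, a2⟩)
      have e : x = x' := ha.bij.1 ((mem_singleton_iff.1 hx).trans (mem_singleton_iff.1 hx').symm)
      obtain ⟨z, hz, r3⟩ := left u (mem_supp.2 ⟨v, a1⟩)
      exact ⟨z, hz, ((r1.trans (e ▸ r2.symm)).mono le_sup_right).trans r3⟩
  have h1 := glue_fam hd h₁ h₂' hc hA
  have h2 := glue_W hγ hd h₁.piece h₂'.piece hc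
  rw [hU] at h1 h2
  exact ⟨_, _, h1, by rw [hW] at h2; exact h2⟩

theorem cap {i : Fin d} {p q : Pt d} (hpq : (lat d).Adj p q) (hi : q i = p i) (r : ℕ) :
    ∃ K : SimpleGraph (Pt d), Fam (lft univ i (p i)) (cross (lft univ i (p i)) K) (2 * r + 2) {p} {K} ∧
      ∀ v ∈ lft univ i (p i), ∀ w, p i ≤ w i → (K.Adj v w ↔
        (w = p ∧ v = Function.update p i (p i - 1)) ∨ (w = q ∧ v = Function.update q i (p i - 1))) := by
  obtain ⟨j, hj1, hj2⟩ := hpq
  have hji : j ≠ i := fun e => by subst e; omega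
  set a := p i with ha
  let κ : ℕ → Pt d := fun k => if k ≤ r + 1 then Function.update p i (a - k)
    else Function.update q i (a - (2 * r + 3 - k))
  have k1 : ∀ k, k ≤ r + 1 → κ k = Function.update p i (a - k) := fun k hk => if_pos hk
  have k2 : ∀ k, r + 1 < k → κ k = Function.update q i (a - (2 * r + 3 - k)) :=
    fun k hk => if_neg (by omega)
  have ci1 : ∀ k, k ≤ r + 1 → κ k i = a - k := fun k hk => by rw [k1 k hk, Function.update_self]
  have ci2 : ∀ k, r + 1 < k → κ k i = a - (2 * r + 3 - k) := fun k hk => by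
    rw [k2 k hk, Function.update_self]
  have cj1 : ∀ k, k ≤ r + 1 → κ k j = p j := fun k hk => by
    rw [k1 k hk, Function.update_of_ne hji]
  have cj2 : ∀ k, r + 1 < k → κ k j = q j := fun k hk => by
    rw [k2 k hk, Function.update_of_ne hji]
  have κ0 : κ 0 = p := by rw [k1 0 (by omega)]; simp [ha]
  have κt : κ (2 * r + 3) = q := by
    rw [k2 _ (by omega)]
    push_cast
    rw [sub_self, sub_zero, ← hi]
    simp
  have hκ : InjOn κ (Icc 0 (2 * r + 3)) := by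
    intro k _ l _ e
    have ei := congrFun e i
    have ej := congrFun e j
    rcases le_or_gt k (r + 1) with hk | hk <;> rcases le_or_gt l (r + 1) with hl | hl
    · rw [ci1 k hk, ci1 l hl] at ei; omega
    · rw [cj1 k hk, cj2 l hl] at ej; omega
    · rw [cj2 k hk, cj1 l hl] at ej; omega
    · rw [ci2 k hk, ci2 l hl] at ei; omega
  have hadj : ∀ k, k < 2 * r + 3 → (lat d).Adj (κ k) (κ (k + 1)) := by
    intro k hk
    rcases lt_trichotomy k (r + 1) with h | h | h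
    · refine ⟨i, ?_, fun l hl => ?_⟩
      · rw [ci1 k h.le, ci1 (k + 1) h]; push_cast; omega
      · rw [k1 k h.le, k1 (k + 1) h, Function.update_of_ne hl, Function.update_of_ne hl]
    · refine ⟨j, ?_, fun l hl => ?_⟩
      · rw [cj1 k h.le, cj2 (k + 1) (by omega)]; exact hj1
      · by_cases e : l = i
        · rw [e, ci1 k h.le, ci2 (k + 1) (by omega)]; push_cast; omega
        · rw [k1 k h.le, k2 (k + 1) (by omega), Function.update_of_ne e, Function.update_of_ne e]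
          exact hj2 l hl
    · refine ⟨i, ?_, fun l hl => ?_⟩
      · rw [ci2 k h, ci2 (k + 1) (by omega)]; push_cast; omega
      · rw [k2 k h, k2 (k + 1) (by omega), Function.update_of_ne hl, Function.update_of_ne hl]
  have memR : ∀ y : Pt d, y ∈ lft univ i a ↔ y i < a := fun y => by simp [lft]
  have inR : ∀ k, k ≤ 2 * r + 3 → (κ k ∈ lft univ i a ↔ 0 < k ∧ k < 2 * r + 3) := by
    intro k hk
    rw [memR]
    rcases le_or_gt k (r + 1) with h | h
    · rw [ci1 k h]; omega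
    · rw [ci2 k h]; omega
  refine ⟨pg κ 0 (2 * r + 3), ⟨?_, ?_, ?_, ?_⟩, ?_⟩
  · intro G hG
    rw [Finset.mem_singleton.1 hG]
    refine ⟨fun x y h => ?_, ((finite_Icc 0 (2 * r + 3)).image κ).subset fun v hv => ?_,
      fun v hv hs => ?_, fun x y h => ?_⟩
    · obtain ⟨k, -, hk, ⟨rfl, rfl⟩ | ⟨rfl, rfl⟩⟩ := (pg_adj hκ).1 h
      exacts [hadj k hk, (hadj k hk).symm]
    · obtain ⟨w, hw⟩ := mem_supp.1 hv
      obtain ⟨k, h1, h2, rfl⟩ := pg_mem hκ hw
      exact ⟨k, ⟨h1, h2⟩, rfl⟩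
    · obtain ⟨w, hw⟩ := mem_supp.1 hs
      obtain ⟨k, h1, h2, rfl⟩ := pg_mem hκ hw
      obtain ⟨h3, h4⟩ := (inR k h2).1 hv
      exact pg_two hκ h3 h4
    · obtain ⟨k, -, hk, ⟨rfl, rfl⟩ | ⟨rfl, rfl⟩⟩ := (pg_adj hκ).1 h
      · rw [inR k hk.le, inR (k + 1) hk]; omega
      · rw [inR k hk.le, inR (k + 1) hk]; omega
  · intro G hG
    rw [Finset.mem_singleton.1 hG]
  · intro G hG
    rw [Finset.mem_singleton.1 hG]
    have : (pg κ 0 (2 * r + 3)).support ∩ lft univ i a = κ '' Icc 1 (2 * r + 2) := by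
      ext x
      constructor
      · rintro ⟨hx, hxR⟩
        obtain ⟨w, hw⟩ := mem_supp.1 hx
        obtain ⟨k, h1, h2, rfl⟩ := pg_mem hκ hw
        obtain ⟨h3, h4⟩ := (inR k h2).1 hxR
        exact ⟨k, ⟨h3, by omega⟩, rfl⟩
      · rintro ⟨k, hk, rfl⟩
        have h1 := hk.1
        have h2 := hk.2
        exact ⟨mem_supp.2 ⟨_, pg_step hκ (Nat.zero_le _) (by omega)⟩,
          (inR k (by omega)).2 ⟨h1, by omega⟩⟩
    rw [this, (hκ.mono (Icc_subset_Icc (Nat.zero_le _) (by omega))).ncard_image, ncard_Icc_nat]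
    omega
  · intro G hG v hv
    rw [Finset.mem_singleton.1 hG] at hv ⊢
    obtain ⟨w, hw⟩ := mem_supp.1 hv
    obtain ⟨k, h1, h2, rfl⟩ := pg_mem hκ hw
    exact ⟨_, rfl, κ0 ▸ (pg_reach hκ h1 h2).symm⟩
  · intro v hv w hw
    have e1 : κ 1 = Function.update p i (a - 1) := by rw [k1 1 (by omega)]; simp
    have e2 : κ (2 * r + 2) = Function.update q i (a - 1) := by
      rw [k2 _ (by omega)]
      congr 1
      push_cast
      ring
    have hw' : w ∉ lft univ i a := by rw [memR]; omega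
    constructor
    · intro h
      obtain ⟨k, -, hk, ⟨rfl, rfl⟩ | ⟨rfl, rfl⟩⟩ := (pg_adj hκ).1 h
      · rw [inR (k + 1) hk] at hw'
        obtain rfl : k = 2 * r + 2 := by omega
        exact Or.inr ⟨κt, e2⟩
      · rw [inR k hk.le] at hw'
        obtain rfl : k = 0 := by omega
        exact Or.inl ⟨κ0, e1⟩
    · rintro (⟨rfl, rfl⟩ | ⟨rfl, rfl⟩)
      · rw [← e1]
        have := (pg_step hκ (k := 0) le_rfl (by omega)).symm
        rwa [κ0] at this
      · rw [← e2]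
        have := pg_step hκ (k := 2 * r + 2) (Nat.zero_le _) (by omega)
        rwa [κt] at this

theorem poly_concat {γ : ℝ} (hγ : 0 ≤ γ) (i : Fin d) {T : Set (Pt d × Pt d)} {m : ℕ}
    {x : Pt d} {F : Finset (SimpleGraph (Pt d))} (hF : Fam univ T m {x} F)
    {pL qL pR qR : Pt d} (hE : ∀ G ∈ F, Ext i G pL qL pR qR) (hne : F.Nonempty) (k r : ℕ) :
    ∃ T' F', Fam univ T' (2 * (k * m + r + 2)) {pL} F' ∧ W γ univ F ^ (2 * k) ≤ W γ univ F' := by
  obtain ⟨G₀, hG₀⟩ := hne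
  set a := pL i with ha
  set b := pR i + 1 with hb
  have E₀ := hE G₀ hG₀
  have hab : a < b := by
    have := (E₀.bd pR (mem_supp.2 ⟨_, E₀.aR⟩)).1; omega
  have hqL : qL i = a := E₀.eL
  have hqR : qR i = b - 1 := by rw [E₀.eR]; omega
  set pL' := Function.update pL i (a - 1) with hpL'
  set qL' := Function.update qL i (a - 1) with hqL'
  set pR' := Function.update pR i b with hpR'
  set qR' := Function.update qR i b with hqR'
  have cpL : pL' i = a - 1 := by simp [hpL']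
  have cqL : qL' i = a - 1 := by simp [hqL']
  have cpR : pR' i = b := by simp [hpR']
  have cqR : qR' i = b := by simp [hqR']
  have lpL : (lat d).Adj pL pL' := lat_adj_update _ _ _ (by omega)
  have lqL : (lat d).Adj qL qL' := lat_adj_update _ _ _ (by omega)
  have lpR : (lat d).Adj pR pR' := lat_adj_update _ _ _ (by omega)
  have lqR : (lat d).Adj qR qR' := lat_adj_update _ _ _ (by omega)
  set Z₁ : Set (Pt d) := {y | b ≤ y i} with hZ₁
  set Z₂ : Set (Pt d) := {y | y i < a} with hZ₂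
  have eS : (univ \ Z₁) \ Z₂ = slab univ i a b := by
    ext y; simp only [hZ₁, hZ₂, slab, Set.mem_sdiff, mem_univ, mem_ofPred_eq, mem_inter_iff, true_and]
    omega
  set T' : Set (Pt d × Pt d) := {(pR, pR'), (qR, qR')} ∪ {(pL, pL'), (qL, qL')} with hT'
  let O : SimpleGraph (Pt d) → SimpleGraph (Pt d) :=
    fun G => opn (opn G pR qR pR' qR') pL qL pL' qL'
  have main : ∀ G ∈ F, Piece (slab univ i a b) (O G) ∧ cross (slab univ i a b) (O G) = T' ∧
      (O G).support ∩ slab univ i a b = G.support ∧ Anch (∅ ∪ lends T' i a) (O G) ∧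
      Anch (∅ ∪ rends T' i b) (O G) ∧
      ∀ x y, G.Adj x y ↔ ((((O G).Adj x y ∧ x ∉ Z₂ ∧ y ∉ Z₂) ∨ s(x, y) = s(pL, qL)) ∧
        x ∉ Z₁ ∧ y ∉ Z₁) ∨ s(x, y) = s(pR, qR) := by
    intro G hG
    have E := hE G hG
    have hP := hF.piece G hG
    obtain ⟨r1, r2, r3, r4, r5, r6, r7⟩ := opn_piece (Z := Z₁) hP E.aR trivial trivial lpR lqR
      (by simp [hZ₁, cpR]) (by simp [hZ₁, cqR])
      (fun v hv => by have := (E.bd v hv).2; simp only [hZ₁, mem_ofPred_eq]; omega)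
    have aL' : (opn G pR qR pR' qR').Adj pL qL := ⟨Or.inl ⟨E.aL, E.ne⟩, E.aL.ne⟩
    obtain ⟨l1, l2, l3, l4, l5, l6, l7⟩ := opn_piece (Z := Z₂) r1 aL'
      ⟨trivial, by simp only [hZ₁, mem_ofPred_eq]; omega⟩
      ⟨trivial, by simp only [hZ₁, mem_ofPred_eq]; omega⟩ lpL lqL
      (by simp [hZ₂, cpL]) (by simp [hZ₂, cqL])
      (fun v hv => by
        rw [r2] at hv
        simp only [hZ₂, mem_ofPred_eq]
        rcases hv with hv | rfl | rfl
        · have := (E.bd v hv).1; omega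
        · omega
        · omega)
    rw [eS] at l1 l3 l4
    have c0 : cross univ G = ∅ := by
      ext p; simp [cross]
    have spL : pL ∈ G.support := mem_supp.2 ⟨_, E.aL⟩
    have sqL : qL ∈ G.support := mem_supp.2 ⟨_, E.aL.symm⟩
    have spR : pR ∈ G.support := mem_supp.2 ⟨_, E.aR⟩
    have sqR : qR ∈ G.support := mem_supp.2 ⟨_, E.aR.symm⟩
    have oR1 : (O G).Adj pR pR' := ⟨Or.inl ⟨r5, fun e => by
      rcases Sym2.eq_iff.1 e with ⟨_, e⟩ | ⟨_, e⟩
      · have := congrFun e i; omega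
      · have := congrFun e i; omega⟩, r5.ne⟩
    have oR2 : (O G).Adj qR qR' := ⟨Or.inl ⟨r6, fun e => by
      rcases Sym2.eq_iff.1 e with ⟨_, e⟩ | ⟨_, e⟩
      · have := congrFun e i; omega
      · have := congrFun e i; omega⟩, r6.ne⟩
    have mL1 : pL' ∈ ∅ ∪ lends T' i a := Or.inr ⟨pL, Or.inr (Or.inl rfl), by omega⟩
    have mL2 : qL' ∈ ∅ ∪ lends T' i a := Or.inr ⟨qL, Or.inr (Or.inr rfl), by omega⟩
    have mR1 : pR' ∈ ∅ ∪ rends T' i b := Or.inr ⟨pR, Or.inl (Or.inl rfl), by omega⟩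
    have mR2 : qR' ∈ ∅ ∪ rends T' i b := Or.inr ⟨qR, Or.inl (Or.inr rfl), by omega⟩
    have toL : ∀ v ∈ G.support, ∃ y ∈ ∅ ∪ lends T' i a, (O G).Reachable v y := by
      intro v hv
      have h1 := (conn_del hP (hF.anch G hG) E.aR hv spL).mono (del_le_opn G pR qR pR' qR')
      rcases reach_del_ends (q := qL) h1 with h | h
      · exact ⟨_, mL1, (h.mono (del_le_opn _ _ _ _ _)).trans l5.reachable⟩
      · exact ⟨_, mL2, (h.mono (del_le_opn _ _ _ _ _)).trans l6.reachable⟩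
    have toR : ∀ v ∈ G.support, ∃ y ∈ ∅ ∪ rends T' i b, (O G).Reachable v y := by
      intro v hv
      have h1 := conn_del hP (hF.anch G hG) E.aL hv spR
      have hle : (G.deleteEdges {s(pL, qL)}).deleteEdges {s(pR, qR)} ≤ O G := by
        intro x y h
        simp only [SimpleGraph.deleteEdges_adj, mem_singleton_iff] at h
        exact ⟨Or.inl ⟨⟨Or.inl ⟨h.1.1, h.2⟩, h.1.1.ne⟩, h.1.2⟩, h.1.1.ne⟩
      rcases reach_del_ends (q := qR) h1 with h | h
      · exact ⟨_, mR1, (h.mono hle).trans oR1.reachable⟩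
      · exact ⟨_, mR2, (h.mono hle).trans oR2.reachable⟩
    refine ⟨l1, by rw [l4, r4, c0, empty_union], by rw [l3, r3, inter_univ], ?_, ?_, ?_⟩
    · intro v hv
      rw [l2, r2] at hv
      rcases hv with (hv | rfl | rfl) | rfl | rfl
      · exact toL v hv
      · obtain ⟨y, hy, h⟩ := toL pR spR
        exact ⟨y, hy, oR1.symm.reachable.trans h⟩
      · obtain ⟨y, hy, h⟩ := toL qR sqR
        exact ⟨y, hy, oR2.symm.reachable.trans h⟩
      · exact ⟨_, mL1, SimpleGraph.Reachable.refl _⟩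
      · exact ⟨_, mL2, SimpleGraph.Reachable.refl _⟩
    · intro v hv
      rw [l2, r2] at hv
      rcases hv with (hv | rfl | rfl) | rfl | rfl
      · exact toR v hv
      · exact ⟨_, mR1, SimpleGraph.Reachable.refl _⟩
      · exact ⟨_, mR2, SimpleGraph.Reachable.refl _⟩
      · obtain ⟨y, hy, h⟩ := toR pL spL
        exact ⟨y, hy, l5.symm.reachable.trans h⟩
      · obtain ⟨y, hy, h⟩ := toR qL sqL
        exact ⟨y, hy, l6.symm.reachable.trans h⟩
    · intro x y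
      rw [r7, l7]
  have hSF : SlabFam univ i a b T' m ∅ (F.image O) := by
    refine ⟨hab, ⟨?_, ?_, ?_, ?_⟩, ?_, fun _ _ => trivial⟩
    all_goals
      intro G' hG'
      obtain ⟨G, hG, rfl⟩ := Finset.mem_image.1 hG'
      obtain ⟨m1, m2, m3, m4, m5, _⟩ := main G hG
    · exact m1
    · exact m2
    · rw [m3, ← hF.mass G hG, inter_univ]
    · exact m4
    · exact m5
  have hWO : W γ (slab univ i a b) (F.image O) = W γ univ F := by
    unfold W
    rw [Finset.sum_image]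
    · exact Finset.sum_congr rfl fun G hG => by rw [(main G hG).2.2.1, inter_univ]
    · intro G hG G' hG' e
      ext x y
      rw [(main G hG).2.2.2.2.2, (main G' hG').2.2.2.2.2, e]
  have hcap : ∀ r : ℕ, ∃ K : SimpleGraph (Pt d),
      Fam (lft univ i a) (cross (lft univ i a) K) (2 * r + 2) {pL} {K} ∧
      ∀ G₁ ∈ ({K} : Finset (SimpleGraph (Pt d))), ∀ G₂ ∈ F.image O,
        ∀ v ∈ lft univ i a, ∀ w ∈ slab univ i a b, G₁.Adj v w ↔ G₂.Adj v w := by
    intro r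
    obtain ⟨K, hK, hKa⟩ := cap ((hF.piece G₀ hG₀).le E₀.aL) E₀.eL r
    refine ⟨K, hK, ?_⟩
    intro G₁ hG₁ G₂ hG₂ v hv w hw
    have hv' : v i < a := hv.2
    have hw' : a ≤ w i := hw.2.1
    rw [Finset.mem_singleton.1 hG₁, hKa v hv w hw', G₂.adj_comm,
      hSF.fam.adj_iff hG₂ w (fun h => by have := h.2.1; omega)]
    simp only [hT', mem_union, mem_insert_iff, mem_singleton_iff, Prod.mk.injEq]
    constructor
    · rintro (h | h)
      · exact Or.inr (Or.inl h)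
      · exact Or.inr (Or.inr h)
    · rintro ((⟨rfl, rfl⟩ | ⟨rfl, rfl⟩) | h)
      · omega
      · omega
      · exact h
  obtain ⟨a', b', T'', F', s1, -, s5, s⟩ := chain2 hγ hSF k
  obtain ⟨⟨G', hG'⟩, ⟨u, v, huv, hu⟩, -⟩ := s5 ⟨⟨_, Finset.mem_image_of_mem _ hG₀⟩,
    ⟨pL', pL, Or.inr (Or.inl rfl), by omega⟩, ⟨pR', pR, Or.inl (Or.inl rfl), by omega⟩⟩
  rw [← s1.fam.cr G' hG'] at huv
  have hvS : v ∈ slab univ i a' b' :=
    ((s1.fam.piece G' hG').inR _ _ huv.1).resolve_right huv.2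
  obtain ⟨K₁, hK₁, c₁⟩ := hcap r
  obtain ⟨K₂, hK₂, c₂⟩ := hcap 0
  obtain ⟨T₁, F₁, f₁, e₁, w₁⟩ := s _ _ _ _ hK₁ c₁
  obtain ⟨T₂, F₂, f₂, e₂, w₂⟩ := s _ _ _ _ hK₂ c₂
  obtain ⟨T₃, F₃, f₃, w₃⟩ := close2 hγ s1.lt f₁ f₂ (fun G hG => e₁ G hG G' hG')
    (fun G hG => e₂ G hG G' hG') (u := u) (v := v) ⟨trivial, hu⟩ hvS huv.1.symm
  rw [show 2 * r + 2 + k * m + (2 * 0 + 2 + k * m) = 2 * (k * m + r + 2) by ring] at f₃
  refine ⟨T₃, F₃, f₃, le_trans ?_ w₃⟩
  rw [hWO] at w₁ w₂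
  have hw0 : 0 ≤ W γ univ F ^ k := pow_nonneg (W_nonneg _ _ _) _
  have l₁ := (le_mul_of_one_le_left hw0 (one_le_W hγ _ (Finset.singleton_nonempty K₁))).trans w₁
  have l₂ := (le_mul_of_one_le_left hw0 (one_le_W hγ _ (Finset.singleton_nonempty K₂))).trans w₂
  rw [two_mul, pow_add]
  exact mul_le_mul l₁ l₂ hw0 (W_nonneg _ _ _)

end Pool.Agent.P.MP_86995c_pr
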