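import Pool.Agent.P.MP_86995c_pr.Pol1

/-!
The upper bound for walks from any bound for polygons of one type.
-/

set_option autoImplicit false
open Classical Set Filter Topology

namespace Pool.Agent.P.MP_86995c_pr

variable {d : ℕ}

/-- all families of polygons with the same extreme edges have weight at most `exp (ρ m)` -/
def TB (γ ρ : ℝ) (i : Fin d) : Prop :=
  ∀ (T : Set (Pt d × Pt d)) (m : ℕ) (x : Pt d) (F : Finset (SimpleGraph (Pt d)))
    (pL qL pR qR : Pt d), Fam univ T m {x} F → 0 < m → (∀ G ∈ F, Ext i G pL qL pR qR) →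
    W γ univ F ≤ Real.exp (ρ * m)

theorem poly_bound2 {γ ρ : ℝ} {i : Fin d} (hT : TB γ ρ i) {T : Set (Pt d × Pt d)} {m : ℕ}
    {x : Pt d} {F : Finset (SimpleGraph (Pt d))} (hF : Fam univ T m {x} F) :
    W γ univ F ≤ (2 * m + 1 : ℝ) ^ (4 * d) * Real.exp (ρ * m) := by
  rcases Nat.eq_zero_or_pos m with rfl | hm
  · have : F ⊆ {⊥} := fun G hG => by
      have h := hF.mass G hG
      rw [inter_univ, ncard_eq_zero (hF.piece G hG).fin] at h
      rw [Finset.mem_singleton]
      ext v w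
      exact ⟨fun hvw => absurd (mem_supp.2 ⟨w, hvw⟩) (by rw [h]; exact notMem_empty v),
        fun h => h.elim⟩
    refine (Finset.sum_le_sum_of_subset_of_nonneg this fun _ _ _ => (Real.exp_pos _).le).trans ?_
    simp [bonds, bondSet]
  set B : Finset (Pt d) := Fintype.piFinset fun k => Finset.Icc (x k - m) (x k + m) with hB
  have cB : B.card = (2 * m + 1) ^ d := by
    rw [hB, Fintype.card_piFinset]
    simp only [Int.card_Icc, Finset.prod_const, Finset.card_univ, Fintype.card_fin,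
      show ∀ k, (x k + m + 1 - (x k - m)).toNat = 2 * m + 1 from fun k => by omega]
  have := sum_le_of_fibers F (B ×ˢ B ×ˢ B ×ˢ B)
    (fun G => Real.exp (γ * bonds (G.support ∩ univ)))
    (fun G y => Ext i G y.1 y.2.1 y.2.2.1 y.2.2.2) ?_ (Real.exp (ρ * m)) ?_
  · refine this.trans (le_of_eq ?_)
    simp only [Finset.card_product, cB]
    push_cast
    ring
  · intro G hG
    have hP := hF.piece G hG
    have hmass : G.support.ncard = m := by simpa using hF.mass G hG
    obtain ⟨pL, qL, pR, qR, E⟩ := exists_ext i hP (nonempty_of_ncard_ne_zero (by omega))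
    have inB : ∀ v ∈ G.support, v ∈ B := fun v hv => by
      rw [hB, Fintype.mem_piFinset]
      intro k
      have := near_of_anch hP (hF.anch G hG) hv k
      rw [hmass] at this
      exact Finset.mem_Icc.2 this
    refine ⟨(pL, qL, pR, qR), ?_, E⟩
    simp only [Finset.mem_product]
    exact ⟨inB _ (mem_supp.2 ⟨_, E.aL⟩), inB _ (mem_supp.2 ⟨_, E.aL.symm⟩),
      inB _ (mem_supp.2 ⟨_, E.aR⟩), inB _ (mem_supp.2 ⟨_, E.aR.symm⟩)⟩
  · intro y _ S' hS' hE
    exact hT _ _ _ _ _ _ _ _ (hF.subset hS') hm hE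

theorem single_bound2 {γ δ ρ : ℝ} (hδ : 0 < δ) {i : Fin d} (hT : TB γ ρ i) :
    ∃ C : ℝ, 1 ≤ C ∧ ∀ (x : Pt d) (F : Finset (SimpleGraph (Pt d))),
      (∀ G ∈ F, Piece univ G ∧ Anch {x} G) →
      ∑ G ∈ F, Real.exp (γ * bonds G.support - (ρ + δ) * G.support.ncard) ≤ C := by
  let a : ℕ → ℝ := fun m => (2 * m + 1 : ℝ) ^ (4 * d) * Real.exp (-δ) ^ m
  have ha0 : ∀ m, 0 ≤ a m := fun m => by positivity
  have hr : ‖Real.exp (-δ)‖ < 1 := by
    rw [Real.norm_eq_abs, abs_of_pos (Real.exp_pos _)]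
    exact Real.exp_lt_one_iff.2 (by linarith)
  have hs : Summable a := by
    refine Summable.of_nonneg_of_le ha0 (fun m => ?_)
      (((summable_pow_mul_geometric_of_norm_lt_one (4 * d) hr).mul_left (3 ^ (4 * d))).add
        (summable_geometric_of_norm_lt_one hr))
    have h1 : (2 * m + 1 : ℝ) ^ (4 * d) ≤ 3 ^ (4 * d) * (m : ℝ) ^ (4 * d) + 1 := by
      rcases Nat.eq_zero_or_pos m with rfl | hm
      · simp
      · rw [← mul_pow]
        have : (1 : ℝ) ≤ m := by exact_mod_cast hm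
        exact (pow_le_pow_left₀ (by positivity) (show (2 * m + 1 : ℝ) ≤ 3 * m by linarith) _).trans
          (by linarith)
    have h2 : 0 ≤ Real.exp (-δ) ^ m := by positivity
    simp only [a]
    nlinarith
  refine ⟨∑' m, a m, ?_, fun x F hF => ?_⟩
  · have := hs.sum_le_tsum {0} (fun m _ => ha0 m)
    simpa [a] using this
  rw [← Finset.sum_fiberwise_of_maps_to (g := fun G : SimpleGraph (Pt d) => G.support.ncard)
    (t := F.image fun G => G.support.ncard) fun G hG => Finset.mem_image_of_mem _ hG]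
  refine le_trans (Finset.sum_le_sum fun m _ => ?_) (hs.sum_le_tsum _ fun m _ => ha0 m)
  have hfam : Fam univ ∅ m {x} (F.filter fun G => G.support.ncard = m) := by
    refine ⟨fun G hG => (hF G (Finset.mem_filter.1 hG).1).1, fun G _ => ?_, fun G hG => ?_,
      fun G hG => (hF G (Finset.mem_filter.1 hG).1).2⟩
    · ext p; simp [cross]
    · rw [inter_univ]; exact (Finset.mem_filter.1 hG).2
  have h1 := poly_bound2 hT hfam
  have h2 : ∑ G ∈ F.filter (fun G => G.support.ncard = m),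
      Real.exp (γ * bonds G.support - (ρ + δ) * G.support.ncard) =
      W γ univ (F.filter fun G => G.support.ncard = m) * Real.exp (-((ρ + δ) * m)) := by
    rw [W, Finset.sum_mul]
    refine Finset.sum_congr rfl fun G hG => ?_
    rw [(Finset.mem_filter.1 hG).2, inter_univ, ← Real.exp_add, sub_eq_add_neg]
  rw [h2]
  refine (mul_le_mul_of_nonneg_right h1 (Real.exp_pos _).le).trans (le_of_eq ?_)
  simp only [a]
  rw [mul_assoc, ← Real.exp_add, ← Real.exp_nat_mul]
  congr 2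
  ring

theorem loops_bound2 {γ δ ρ : ℝ} (hγ : 0 ≤ γ) (hδ : 0 < δ) {i : Fin d} (hT : TB γ ρ i) :
    ∃ C : ℝ, 1 ≤ C ∧ ∀ (X : Finset (Pt d)) (F : Finset (SimpleGraph (Pt d))),
      (∀ G ∈ F, Piece univ G ∧ Anch (X : Set (Pt d)) G) →
      ∑ G ∈ F, Real.exp (γ * (inSet G).ncard - (ρ + δ) * G.support.ncard) ≤ C ^ X.card := by
  obtain ⟨C, hC, hs⟩ := single_bound2 hδ hT
  refine ⟨C, hC, fun X => ?_⟩
  induction X using Finset.induction_on with
  | empty =>
    intro F hF
    have : F ⊆ {⊥} := fun G hG => by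
      rw [Finset.mem_singleton]
      ext v w
      refine ⟨fun hvw => ?_, fun h => h.elim⟩
      obtain ⟨x, hx, _⟩ := (hF G hG).2 v (mem_supp.2 ⟨w, hvw⟩)
      simp at hx
    refine (Finset.sum_le_sum_of_subset_of_nonneg this fun _ _ _ => (Real.exp_pos _).le).trans ?_
    simp [inSet]
  | insert x X hx ih =>
    intro F hF
    have h1 := hs x (F.image fun H => comp H x) fun G hG => by
      obtain ⟨H, hH, rfl⟩ := Finset.mem_image.1 hG
      exact comp_piece (hF H hH).1 x
    have h2 := ih (F.image fun H => rest H x) fun G hG => by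
      obtain ⟨H, hH, rfl⟩ := Finset.mem_image.1 hG
      exact rest_piece (hF H hH).1 (by simpa using (hF H hH).2)
    rw [Finset.card_insert_of_notMem hx, pow_succ']
    refine le_trans ?_ (mul_le_mul h1 h2 (Finset.sum_nonneg fun _ _ => (Real.exp_pos _).le)
      (by linarith))
    rw [Finset.sum_mul_sum, ← Finset.sum_product']
    refine sum_le_of_rel _ _ _ _ (fun H p => H = p.1 ⊔ p.2) (fun _ _ => by positivity) ?_
      (fun _ _ _ _ _ e e' => e.trans e'.symm)
    intro H hH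
    refine ⟨(comp H x, rest H x), Finset.mem_product.2 ⟨Finset.mem_image_of_mem _ hH,
      Finset.mem_image_of_mem _ hH⟩, comp_sup_rest H x, ?_⟩
    obtain ⟨e1, e2⟩ := inSet_split (hF H hH).1 x
    rw [← Real.exp_add, Real.exp_le_exp, e2]
    have : ((inSet H).ncard : ℝ) ≤ bonds (comp H x).support + (inSet (rest H x)).ncard := by
      exact_mod_cast e1
    push_cast
    nlinarith

theorem closed_bound2 (hd : 2 ≤ d) {γ δ ρ : ℝ} (hγ : 0 ≤ γ) (hδ : 0 < δ) (hρ : 0 ≤ ρ) {i : Fin d}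
    (hT : TB γ ρ i) :
    ∃ K C : ℝ, 1 ≤ K ∧ 0 ≤ C ∧ Bd γ K (ρ + δ) C (univ : Set (Pt d)) := by
  obtain ⟨C₀, hC₀, hL⟩ := loops_bound2 hγ (half_pos hδ) hT
  set g₀ := ρ + δ / 2 with hg₀
  have hg : 0 ≤ g₀ := by linarith
  obtain ⟨l, hl⟩ := exists_nat_gt ((γ + 4 * g₀) * (2 * d) / (δ / 2))
  have hl0 : 0 < l := by
    have : (0 : ℝ) < l := lt_of_le_of_lt (by positivity) hl
    exact_mod_cast this
  have hl1 : (1 : ℝ) ≤ l := by exact_mod_cast hl0
  rw [div_lt_iff₀ (half_pos hδ)] at hl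
  have hl' : (0 : ℤ) < l := by exact_mod_cast hl0
  set M : ℕ := ((l : ℤ) + 4).toNat ^ d with hM
  have hlog : 0 ≤ Real.log C₀ := Real.log_nonneg hC₀
  refine ⟨l, (4 * d * γ + g₀) * M + Real.log C₀, hl1, by positivity, fun T N X F hX hF => ?_⟩
  have := sum_le_of_fibers F (Finset.range l) (fun G => Real.exp (γ * bonds (G.support ∩ univ)))
    (fun G z => l * ((Grid.mk l z hl').crs G.support).ncard ≤ bonds G.support)
    (fun G hG => exists_grid l hl0 (hF.piece G hG).fin)
    (Real.exp ((ρ + δ) * N + ((4 * d * γ + g₀) * M + Real.log C₀) * X.ncard)) ?_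
  · simpa [W] using this
  intro z _ S hS hz
  set g := Grid.mk l z hl' with hgr
  have hex := fun G (hG : G ∈ S) => g.exists_merged hd (hF.piece G (hS hG)) hX (hF.anch G (hS hG))
  choose! φ hφ using hex
  have h1 := hL (hX.image g.Ph).toFinset (S.image φ) fun H hH => by
    obtain ⟨G, hG, rfl⟩ := Finset.mem_image.1 hH
    exact ⟨(hφ G hG).1, by simpa using (hφ G hG).2.1⟩
  have h2 := sum_le_of_rel S (S.image φ) (fun G => Real.exp (γ * bonds (G.support ∩ univ)))
    (fun H => Real.exp (γ * (inSet H).ncard - g₀ * H.support.ncard) *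
      Real.exp ((ρ + δ) * N + ((4 * d * γ + g₀) * M) * X.ncard))
    (fun G H => H = φ G) (fun _ _ => by positivity) ?_ ?_
  · refine h2.trans ?_
    rw [← Finset.sum_mul]
    refine (mul_le_mul_of_nonneg_right h1 (Real.exp_pos _).le).trans ?_
    have h3 : (hX.image g.Ph).toFinset.card ≤ X.ncard := by
      rw [← ncard_eq_toFinset_card _ (hX.image g.Ph)]; exact ncard_image_le hX
    refine (mul_le_mul_of_nonneg_right (pow_le_pow_right₀ hC₀ h3) (Real.exp_pos _).le).trans ?_
    rw [← Real.exp_log (show 0 < C₀ by linarith), ← Real.exp_nat_mul, ← Real.exp_add,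
      Real.log_exp]
    exact le_of_eq (by congr 1; ring)
  · intro G hG
    refine ⟨φ G, Finset.mem_image_of_mem _ hG, rfl, ?_⟩
    obtain ⟨-, -, -, m1, m2⟩ := hφ G hG
    have hN : G.support.ncard = N := by simpa using hF.mass G (hS hG)
    have m3 := (hz G hG).trans (bonds_le (hF.piece G (hS hG)).fin)
    rw [hN] at m1 m3
    rw [inter_univ, ← Real.exp_add, Real.exp_le_exp]
    set c := (g.crs G.support).ncard
    have m1' : (((φ G).support.ncard : ℕ) : ℝ) ≤ N + 4 * c + X.ncard * M := by exact_mod_cast m1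
    have m2' : (bonds G.support : ℝ) ≤ (inSet (φ G)).ncard + c + 2 * d * (2 * X.ncard * M) := by
      exact_mod_cast m2
    have m3' : (l : ℝ) * c ≤ 2 * d * N := by exact_mod_cast m3
    have m4 : (γ + 4 * g₀) * c ≤ δ / 2 * N := by
      refine le_of_mul_le_mul_left (a := (l : ℝ)) ?_ (by linarith)
      have a1 : (γ + 4 * g₀) * (l * c) ≤ (γ + 4 * g₀) * (2 * d * N) :=
        mul_le_mul_of_nonneg_left m3' (by positivity)
      have a2 : (γ + 4 * g₀) * (2 * d) * N ≤ l * (δ / 2) * N :=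
        mul_le_mul_of_nonneg_right hl.le (Nat.cast_nonneg _)
      nlinarith
    have a1 := mul_le_mul_of_nonneg_left m1' hg
    have a2 := mul_le_mul_of_nonneg_left m2' hγ
    have a3 : ρ + δ = g₀ + δ / 2 := by rw [hg₀]; ring
    rw [a3]
    nlinarith
  · intro G hG G' hG' H e e'
    have key : ∀ G ∈ S, ∀ x a, G.Adj x a ↔ (φ G).Adj (g.Ph x) (g.Ph x + (a - x)) := by
      intro G hG x a
      rw [(hφ G hG).2.2.1, g.str_adj_node (hF.piece G (hS hG)).le]
      constructor
      · exact fun h => ⟨a, h, rfl⟩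
      · rintro ⟨a', h, e⟩
        obtain rfl : a = a' := by simpa using e
        exact h
    ext x a
    rw [key G hG, key G' hG', ← e, ← e']

theorem eventually_upper2 (hd : 2 ≤ d) {γ δ ρ : ℝ} (hγ : 0 ≤ γ) (hδ : 0 < δ) (hρ : 0 ≤ ρ) {i : Fin d}
    (hT : TB γ ρ i) :
    ∀ᶠ n : ℕ in atTop, Z d γ n ≤ Real.exp ((ρ + δ) * n) := by
  obtain ⟨K, C, hK, hC, hB⟩ := closed_bound2 hd hγ (half_pos hδ) hρ hT
  set g := ρ + δ / 2 with hg'
  have hg : 0 ≤ g := by linarith
  have hlK : 0 ≤ Real.log K := Real.log_nonneg hK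
  set c : ℝ := 14 + 5 * (4 * d + 1) + 4 * Real.log K + g + (4 * C + 3 * γ) with hc
  have hc0 : 0 < c := by positivity
  have hlog : Tendsto (fun n : ℕ => Real.log n) atTop atTop :=
    Real.tendsto_log_atTop.comp tendsto_natCast_atTop_atTop
  filter_upwards [exists_scales d (by omega) (div_pos (half_pos hδ) hc0),
    hlog.eventually_ge_atTop 1, eventually_ge_atTop 3, eventually_ge_atTop d] with n h1 h2 h3 h4
  obtain ⟨l, m, a1, a2, a3, a4, a5⟩ := h1
  refine (Z_upper hd hγ hK hg hC hB a1 a2 a3 a4).trans ?_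
  have hm : 1 ≤ m := le_trans (Nat.mul_pos (by omega) (by positivity)) a4
  have e1 : 2 * n + 1 ≤ n ^ 2 := by nlinarith
  have e2 : (d * (2 * n + 1)) ^ 2 * (((2 * n + 1) ^ d) ^ 2 + 1) ^ (5 * m) * (n + 2) ^ 4 ≤
      n ^ (14 + (4 * d + 1) * (5 * m)) := by
    have f1 : d * (2 * n + 1) ≤ n ^ 3 := by
      rw [pow_succ' n 2]; exact Nat.mul_le_mul h4 e1
    have f2 : ((2 * n + 1) ^ d) ^ 2 + 1 ≤ n ^ (4 * d + 1) := by
      have g1 : ((2 * n + 1) ^ d) ^ 2 ≤ ((n ^ 2) ^ d) ^ 2 := by gcongr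
      have g2 : 1 ≤ n ^ (4 * d) := Nat.one_le_pow _ _ (by omega)
      rw [← pow_mul, ← pow_mul, ← pow_mul n, show 2 * (d * 2) = 4 * d by ring] at g1
      rw [← pow_mul, pow_succ]
      nlinarith
    have f3 : n + 2 ≤ n ^ 2 := by omega
    calc _ ≤ (n ^ 3) ^ 2 * (n ^ (4 * d + 1)) ^ (5 * m) * (n ^ 2) ^ 4 := by gcongr
      _ = _ := by rw [← pow_mul, ← pow_mul, ← pow_mul, ← pow_add, ← pow_add]; congr 1; ring
  have hn : (0 : ℝ) < n := by exact_mod_cast (show 0 < n by omega)
  have e3 : ((n ^ (14 + (4 * d + 1) * (5 * m)) : ℕ) : ℝ) =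
      Real.exp ((14 + (4 * d + 1) * (5 * m) : ℕ) * Real.log n) := by
    rw [Real.exp_nat_mul, Real.exp_log hn, Nat.cast_pow]
  have e4 : K ^ 4 = Real.exp (4 * Real.log K) := by
    rw [show (4 : ℝ) = (4 : ℕ) by norm_num, Real.exp_nat_mul, Real.exp_log (by linarith)]
  refine (mul_le_mul_of_nonneg_right (Nat.cast_le.2 e2) (by positivity)).trans ?_
  rw [e3, e4, ← Real.exp_add, ← Real.exp_add, Real.exp_le_exp]
  set L := Real.log n
  have hm' : (1 : ℝ) ≤ m := by exact_mod_cast hm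
  rw [div_mul_eq_mul_div, le_div_iff₀ hc0] at a5
  have q1 : L ≤ m * L := le_mul_of_one_le_left (by linarith) hm'
  have q2 : (m : ℝ) ≤ m * L := le_mul_of_one_le_right (by linarith) h2
  have q3 : 1 ≤ m * L := hm'.trans q2
  have q4 := mul_le_mul_of_nonneg_left q2 (show 0 ≤ 4 * C + 3 * γ by positivity)
  have q5 := mul_le_mul_of_nonneg_left q3 (show 0 ≤ 4 * Real.log K + g by positivity)
  have q6 : ρ + δ = g + δ / 2 := by rw [hg']; ring
  rw [q6]
  push_cast
  rw [hc] at a5
  nlinarith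

end Pool.Agent.P.MP_86995c_pr
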