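import Pool.Agent.P.MP_86995c_pr.Pol2

/-!
Polygons up to translation grow at the same rate as walks.
-/

set_option autoImplicit false
open Classical Set Filter Topology

namespace Pool.Agent.P.MP_86995c_pr

variable {d : ℕ}

/-- polygons with n vertices whose lexicographically first vertex is the origin -/
def pols (d n : ℕ) : Set (SimpleGraph (Pt d)) :=
  {G | Piece univ G ∧ Anch {0} G ∧ G.support.ncard = n ∧ 0 ∈ G.support ∧
    ∀ v ∈ G.support, toLex (0 : Pt d) ≤ toLex v}

theorem pols_finite (d n : ℕ) : (pols d n).Finite := by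
  set B : Finset (Pt d) := Fintype.piFinset fun _ => Finset.Icc (-(n : ℤ)) n with hB
  have hf : ((B : Set (Pt d)) ×ˢ (B : Set (Pt d))).Finite := B.finite_toSet.prod B.finite_toSet
  refine Finite.of_finite_image (f := fun G : SimpleGraph (Pt d) =>
    {p : Pt d × Pt d | G.Adj p.1 p.2}) (hf.finite_subsets.subset ?_) ?_
  · rintro _ ⟨G, hG, rfl⟩ p hp
    have inB : ∀ v ∈ G.support, v ∈ B := fun v hv => by
      rw [hB, Fintype.mem_piFinset]
      intro k
      have := near_of_anch hG.1 hG.2.1 hv k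
      rw [hG.2.2.1] at this
      simp only [Pi.zero_apply, zero_sub, zero_add] at this
      exact Finset.mem_Icc.2 this
    exact ⟨inB _ (mem_supp.2 ⟨_, hp⟩), inB _ (mem_supp.2 ⟨_, SimpleGraph.Adj.symm hp⟩)⟩
  · intro G _ G' _ e
    ext x y
    exact Set.ext_iff.1 e (x, y)

noncomputable def Y (d : ℕ) (γ : ℝ) (n : ℕ) : ℝ := W γ univ (pols_finite d n).toFinset

theorem Y_le {γ : ℝ} (hγ : 0 ≤ γ) (i : Fin d) (n : ℕ) :
    Y d γ n ≤ (2 * n + 1 : ℝ) ^ (4 * d) * Real.exp (rate d γ * n) := by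
  refine poly_bound hγ i (T := ∅) (x := 0) ⟨fun G hG => ?_, fun G _ => ?_, fun G hG => ?_,
    fun G hG => ?_⟩
  · exact ((Finite.mem_toFinset _).1 hG).1
  · ext p; simp [cross]
  · rw [inter_univ]; exact ((Finite.mem_toFinset _).1 hG).2.2.1
  · exact ((Finite.mem_toFinset _).1 hG).2.1

theorem W_le_Y (γ : ℝ) {T : Set (Pt d × Pt d)} {n : ℕ} (hn : 0 < n) {x : Pt d}
    {F : Finset (SimpleGraph (Pt d))} (hF : Fam univ T n {x} F) :
    W γ univ F ≤ (2 * n + 1 : ℝ) ^ d * Y d γ n := by
  set B : Finset (Pt d) := Fintype.piFinset fun k => Finset.Icc (x k - n) (x k + n) with hB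
  have cB : B.card = (2 * n + 1) ^ d := by
    rw [hB, Fintype.card_piFinset]
    simp only [Int.card_Icc, Finset.prod_const, Finset.card_univ, Fintype.card_fin,
      show ∀ k, (x k + n + 1 - (x k - n)).toNat = 2 * n + 1 from fun k => by omega]
  have := sum_le_of_fibers F B (fun G => Real.exp (γ * bonds (G.support ∩ univ)))
    (fun G v => v ∈ G.support ∧ ∀ u ∈ G.support, toLex v ≤ toLex u) ?_ (Y d γ n) ?_
  · refine this.trans (le_of_eq ?_)
    rw [cB]
    push_cast
    ring
  · intro G hG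
    have hP := hF.piece G hG
    have hmass : G.support.ncard = n := by simpa using hF.mass G hG
    obtain ⟨v, hv, hm⟩ := exists_min_image G.support (fun v => toLex v) hP.fin
      (nonempty_of_ncard_ne_zero (by omega))
    refine ⟨v, ?_, hv, hm⟩
    rw [hB, Fintype.mem_piFinset]
    intro k
    have := near_of_anch hP (hF.anch G hG) hv k
    rw [hmass] at this
    exact Finset.mem_Icc.2 this
  · intro v _ S hS hv
    have ha := add_aut v
    have hW := W_comap ha γ univ S
    rw [preimage_univ] at hW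
    change W γ univ S ≤ _
    rw [← hW]
    refine Finset.sum_le_sum_of_subset_of_nonneg (fun G hG => ?_) fun _ _ _ => (Real.exp_pos _).le
    obtain ⟨G, hG', rfl⟩ := mem_comapF.1 hG
    have hP := (hF.piece G (hS hG')).comap ha
    rw [preimage_univ] at hP
    have hA : Anch {v} G := by
      intro u hu
      obtain ⟨y, hy, r1⟩ := hF.anch G (hS hG') u hu
      obtain ⟨z, hz, r2⟩ := hF.anch G (hS hG') v (hv G hG').1
      rw [mem_singleton_iff.1 hy] at r1
      rw [mem_singleton_iff.1 hz] at r2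
      exact ⟨v, rfl, r1.trans r2.symm⟩
    rw [Finite.mem_toFinset]
    refine ⟨hP, (hA.comap ha).mono fun y hy => ?_, ?_, ?_, fun u hu => ?_⟩
    · have : y + v = v := hy
      simpa using this
    · rw [supp_comap ha, ncard_preimage_bij ha.bij]
      simpa using hF.mass G (hS hG')
    · rw [supp_comap ha]
      simpa using (hv G hG').1
    · rw [supp_comap ha] at hu
      have := (hv G hG').2 _ hu
      have e : toLex (u + v) = toLex u + toLex v := rfl
      rw [e] at this
      exact le_of_add_le_add_right (a := toLex v) (by simpa using this)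

theorem log_small (c : ℝ) {ε : ℝ} (hε : 0 < ε) :
    ∀ᶠ n : ℕ in atTop, c + c * Real.log (4 * n + 1) ≤ ε * n := by
  have h1 : Tendsto (fun n : ℕ => (4 * n + 1 : ℝ)) atTop atTop :=
    tendsto_atTop_add_const_right _ _
      (tendsto_natCast_atTop_atTop.const_mul_atTop (by norm_num))
  have hc : 0 < ε / (10 * (|c| + 1)) := by positivity
  have h2 := h1.eventually (Real.isLittleO_log_id_atTop.bound hc)
  filter_upwards [h2, tendsto_natCast_atTop_atTop.eventually_ge_atTop (2 * |c| / ε),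
    eventually_ge_atTop 1] with n a1 a2 a3
  have hn : (1 : ℝ) ≤ n := by exact_mod_cast a3
  have hl : 0 ≤ Real.log (4 * n + 1) := Real.log_nonneg (by linarith)
  rw [id, Real.norm_of_nonneg hl, Real.norm_of_nonneg (by positivity), div_mul_eq_mul_div,
    le_div_iff₀ (by positivity)] at a1
  rw [div_le_iff₀ hε] at a2
  have h3 := le_abs_self c
  have h4 := abs_nonneg c
  have h5 : c * Real.log (4 * n + 1) ≤ |c| * Real.log (4 * n + 1) :=
    mul_le_mul_of_nonneg_right h3 hl
  nlinarith

theorem two_le_rate {γ : ℝ} (hγ : 0 ≤ γ) (i : Fin d) : 2 * γ ≤ rate d γ := by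
  refine le_csSup (rateSet_bdd hγ) (Eventually.of_forall fun n => ?_)
  have h := mem_saw_of_seq (ω := fun k : ℕ => Function.update (0 : Pt d) i (k : ℤ)) (n := n)
    (by simp) (fun k _ j _ e => by simpa using congrFun e i)
    (fun k _ => ⟨i, by simp, fun j hj => by simp [Function.update_of_ne hj]⟩)
  refine le_trans ?_ (Finset.single_le_sum (f := fun w : Fin (n + 1) → Pt d =>
    Real.exp (γ * bonds (range w))) (fun _ _ => (Real.exp_pos _).le) h)
  rw [Real.exp_le_exp, bonds_eq h]
  push_cast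
  nlinarith [mul_nonneg hγ (Nat.cast_nonneg (α := ℝ) ((Finset.univ : Finset (Fin (n + 1) × Fin (n + 1))).filter
      (fun p : Fin (n + 1) × Fin (n + 1) =>
        p.1.val + 1 < p.2.val ∧ ∑ k : Fin d, |(fun j : Fin (n + 1) => Function.update (0 : Pt d) i ((j : ℕ) : ℤ)) p.1 k - (fun j : Fin (n + 1) => Function.update (0 : Pt d) i ((j : ℕ) : ℤ)) p.2 k| = 1)).card)]

theorem Y_lower (hd : 2 ≤ d) {γ : ℝ} (hγ : 0 < γ) {ρ : ℝ} (hρ : ρ < rate d γ) :
    ∀ᶠ n : ℕ in atTop, Real.exp (ρ * (2 * n : ℕ)) ≤ Y d γ (2 * n) := by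
  let i : Fin d := ⟨0, by omega⟩
  have h0 : 0 < rate d γ := by have := two_le_rate hγ.le i; linarith
  obtain ⟨g, hg1, hg2⟩ := exists_between (max_lt hρ h0)
  have hg0 : 0 ≤ g := ((le_max_right _ _).trans_lt hg1).le
  have hgρ : ρ < g := (le_max_left _ _).trans_lt hg1
  have hT : ¬ TB γ g i := by
    intro hT
    obtain ⟨g', h1, h2⟩ := exists_between hg2
    obtain ⟨g'', h3, h4⟩ := exists_between h2
    obtain ⟨n, a1, a2, a3⟩ := ((eventually_upper2 hd hγ.le (sub_pos.2 h1) hg0 hT).and
      ((eventually_lower hγ.le i h4).and (eventually_gt_atTop 0))).exists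
    have := Real.exp_le_exp.1 (a2.trans a1)
    have hn : (0 : ℝ) < n := by exact_mod_cast a3
    nlinarith
  simp only [TB, not_forall, not_le] at hT
  obtain ⟨T, m, x, F, pL, qL, pR, qR, hF, hm, hE, hW⟩ := hT
  have hne : F.Nonempty := by
    rcases F.eq_empty_or_nonempty with rfl | h
    · simp only [W, Finset.sum_empty] at hW
      exact absurd hW (not_lt.2 (Real.exp_pos _).le)
    · exact h
  filter_upwards [log_small (g * (2 * m + 4) + d) (sub_pos.2 hgρ), eventually_ge_atTop 2]
    with n a1 a2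
  obtain ⟨T', F', f, w⟩ := poly_concat hγ.le i hF hE hne ((n - 2) / m) ((n - 2) % m)
  have h4 := Nat.div_add_mod' (n - 2) m
  rw [show (n - 2) / m * m + (n - 2) % m + 2 = n by omega] at f
  have h5 := w.trans (W_le_Y γ (by omega) f)
  have h6 : Real.exp (g * m) ^ (2 * ((n - 2) / m)) ≤ W γ univ F ^ (2 * ((n - 2) / m)) :=
    pow_le_pow_left₀ (Real.exp_pos _).le hW.le _
  have h7 := h6.trans h5
  have hpos : (0 : ℝ) < 4 * n + 1 := by positivity
  have e : (2 * ((2 * n : ℕ) : ℝ) + 1) ^ d = Real.exp (d * Real.log (4 * n + 1)) := by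
    rw [Real.exp_nat_mul, Real.exp_log hpos]
    congr 1
    push_cast
    ring
  rw [e, ← Real.exp_nat_mul] at h7
  refine le_of_mul_le_mul_left (le_trans ?_ h7) (Real.exp_pos _)
  rw [← Real.exp_add, Real.exp_le_exp]
  have h8 : n ≤ (n - 2) / m * m + (m + 2) := by
    have := Nat.mod_lt (n - 2) hm; omega
  have h9 : (n : ℝ) ≤ ((n - 2) / m : ℕ) * (m : ℝ) + (m + 2) := by exact_mod_cast h8
  have hl : 0 ≤ Real.log (4 * n + 1) :=
    Real.log_nonneg (by have := Nat.cast_nonneg (α := ℝ) n; linarith)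
  have h10 := mul_le_mul_of_nonneg_left h9 hg0
  have h11 : 0 ≤ g * (2 * m + 4) * Real.log (4 * n + 1) := by positivity
  have h12 : 0 ≤ (g - ρ) * n := by have := sub_pos.2 hgρ; positivity
  have h13 : (0 : ℝ) ≤ d := Nat.cast_nonneg _
  push_cast
  nlinarith

theorem tendsto_Y (hd : 2 ≤ d) {γ : ℝ} (hγ : 0 < γ) :
    Tendsto (fun n : ℕ => 1 / ((2 * n : ℕ) : ℝ) * Real.log (Y d γ (2 * n))) atTop
      (𝓝 (rate d γ)) := by
  let i : Fin d := ⟨0, by omega⟩
  refine tendsto_order.2 ⟨fun r hr => ?_, fun r hr => ?_⟩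
  · obtain ⟨r', h1, h2⟩ := exists_between hr
    filter_upwards [Y_lower hd hγ h2, eventually_gt_atTop 0] with n a1 a2
    have hn : (0 : ℝ) < (2 * n : ℕ) := by exact_mod_cast (by omega : 0 < 2 * n)
    have := (Real.le_log_iff_exp_le ((Real.exp_pos _).trans_le a1)).2 a1
    rw [one_div_mul_eq_div]
    exact h1.trans_le ((le_div_iff₀ hn).2 this)
  · obtain ⟨r', h1, h2⟩ := exists_between hr
    filter_upwards [Y_lower hd hγ (sub_one_lt (rate d γ)), eventually_gt_atTop 0,
      log_small (4 * d) (sub_pos.2 h1)] with n a1 a2 a3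
    have hn : (0 : ℝ) < (2 * n : ℕ) := by exact_mod_cast (by omega : 0 < 2 * n)
    have hpos : (0 : ℝ) < 4 * n + 1 := by positivity
    have e : (2 * ((2 * n : ℕ) : ℝ) + 1) ^ (4 * d) =
        Real.exp ((4 * d : ℕ) * Real.log (4 * n + 1)) := by
      rw [Real.exp_nat_mul, Real.exp_log hpos]
      congr 1
      push_cast
      ring
    have h3 := Y_le hγ.le i (2 * n)
    rw [e, ← Real.exp_add] at h3
    have := (Real.log_le_iff_le_exp ((Real.exp_pos _).trans_le a1)).2 h3
    rw [one_div_mul_eq_div]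
    refine lt_of_le_of_lt ((div_le_iff₀ hn).2 (this.trans ?_)) h2
    have h12 : 0 ≤ (r' - rate d γ) * n := by have := sub_pos.2 h1; positivity
    have h13 : (0 : ℝ) ≤ d := Nat.cast_nonneg _
    push_cast
    nlinarith

end Pool.Agent.P.MP_86995c_pr
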