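import Mathlib

/-!
Interacting self-avoiding walks and polygons on the hypercubic lattice: the definitions.
-/

set_option autoImplicit false
open Classical

namespace Pool.Agent.P.MP_86995c_pr.St

variable {d : ℕ}

/-- `x` and `y` are nearest neighbours in the hypercubic lattice -/
def Nb (x y : Fin d → ℤ) : Prop := ∑ k, |x k - y k| = 1

/-- the `n`-edge self-avoiding walks from the origin -/
def walks (d n : ℕ) : Set (Fin (n + 1) → Fin d → ℤ) :=
  {w | w 0 = 0 ∧ Function.Injective w ∧ ∀ i : Fin n, Nb (w i.succ) (w i.castSucc)}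

/-- the number of contacts of a walk -/
noncomputable def walkContacts {n : ℕ} (w : Fin (n + 1) → Fin d → ℤ) : ℕ :=
  {p : Fin (n + 1) × Fin (n + 1) | p.1.val + 1 < p.2.val ∧ Nb (w p.1) (w p.2)}.ncard

/-- the partition function of walks -/
noncomputable def ZW (d : ℕ) (β : ℝ) (n : ℕ) : ℝ :=
  ∑ᶠ w ∈ walks d n, Real.exp (β * walkContacts w)

/-- the `n`-edge polygons up to translation: connected subgraphs of the lattice with `n` vertices,
each of degree two, whose lexicographically first vertex is the origin -/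
def polygons (d n : ℕ) : Set (SimpleGraph (Fin d → ℤ)) :=
  {G | (∀ x y, G.Adj x y → Nb x y) ∧ G.support.Finite ∧ G.support.ncard = n ∧
    (∀ v ∈ G.support, (G.neighborSet v).ncard = 2) ∧
    (∀ u ∈ G.support, ∀ v ∈ G.support, G.Reachable u v) ∧
    0 ∈ G.support ∧ ∀ v ∈ G.support, toLex (0 : Fin d → ℤ) ≤ toLex v}

/-- the number of contacts of a polygon -/
noncomputable def polyContacts (G : SimpleGraph (Fin d → ℤ)) : ℕ :=
  {e : Sym2 (Fin d → ℤ) |
    ∃ x ∈ G.support, ∃ y ∈ G.support, e = s(x, y) ∧ Nb x y ∧ ¬ G.Adj x y}.ncard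

/-- the partition function of polygons -/
noncomputable def ZP (d : ℕ) (β : ℝ) (n : ℕ) : ℝ :=
  ∑ᶠ G ∈ polygons d n, Real.exp (β * polyContacts G)

end Pool.Agent.P.MP_86995c_pr.St
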