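import Pool.Agent.P.MP_86995c_pr.Pol3
import Pool.Agent.P.MP_86995c_pr.PolDefs

/-!
Translation between the definitions of the statement and the working definitions.
-/

set_option autoImplicit false
open Classical Set Filter Topology

namespace Pool.Agent.P.MP_86995c_pr

open St

variable {d : ℕ}

theorem nb_iff {x y : Pt d} : Nb x y ↔ (lat d).Adj x y :=
  sum_abs_eq_one.trans ((lat d).adj_comm _ _)

theorem walks_eq (d n : ℕ) : walks d n = ↑(saw d n) := by
  ext w
  constructor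
  · rintro ⟨h0, hi, ha⟩
    have e : (fun j : Fin (n + 1) => sq w j) = w := funext fun j => sq_val w j
    rw [← e]
    refine mem_saw_of_seq (ω := sq w) ((sq_val w 0).trans h0) (fun i hi' j hj e => ?_)
      fun k hk => ?_
    · have h1 : i < n + 1 := Nat.lt_succ_iff.2 hi'.2
      have h2 : j < n + 1 := Nat.lt_succ_iff.2 hj.2
      simp only [sq, h1, h2, dif_pos] at e
      exact congrArg Fin.val (hi e)
    · have := sum_abs_eq_one.1 (ha ⟨k, hk⟩)
      have h1 : k < n + 1 := by omega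
      have h2 : k + 1 < n + 1 := by omega
      simp only [sq, h1, h2, dif_pos]
      exact this
  · intro hw
    simp only [saw, Finset.coe_filter, mem_ofPred_eq] at hw
    exact ⟨hw.2.1, fun i j => hw.2.2.1 i j, hw.2.2.2⟩

theorem ZW_eq (β : ℝ) (n : ℕ) : ZW d β n = ∑ w ∈ saw d n,
    Real.exp (β * ((((Finset.univ : Finset (Fin (n + 1) × Fin (n + 1))).filter
      (fun p : Fin (n + 1) × Fin (n + 1) =>
        p.1.val + 1 < p.2.val ∧ ∑ k : Fin d, |w p.1 k - w p.2 k| = 1)).card : ℕ) : ℝ)) := by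
  rw [ZW, walks_eq, finsum_mem_coe_finset]
  refine Finset.sum_congr rfl fun w _ => ?_
  rw [← ncard_coe_finset, Finset.coe_filter]
  simp only [Finset.mem_univ, true_and]
  rfl

theorem polygons_eq (d n : ℕ) : polygons d n = pols d n := by
  ext G
  constructor
  · rintro ⟨h1, h2, h3, h4, h5, h6, h7⟩
    refine ⟨⟨fun x y h => nb_iff.1 (h1 x y h), h2, fun v _ hv => ?_, fun _ _ _ => Or.inl trivial⟩,
      fun v hv => ⟨0, rfl, h5 v hv 0 h6⟩, h3, h6, h7⟩
    obtain ⟨a, b, hab, e⟩ := ncard_eq_two.1 (h4 v hv)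
    exact ⟨a, b, hab, fun w => Set.ext_iff.1 e w⟩
  · rintro ⟨h1, h2, h3, h6, h7⟩
    refine ⟨fun x y h => nb_iff.2 (h1.le h), h1.fin, h3, fun v hv => ?_, fun u hu v hv => ?_,
      h6, h7⟩
    · obtain ⟨a, b, hab, e⟩ := h1.two v trivial hv
      exact ncard_eq_two.2 ⟨a, b, hab, Set.ext e⟩
    · obtain ⟨y, hy, r1⟩ := h2 u hu
      obtain ⟨z, hz, r2⟩ := h2 v hv
      rw [mem_singleton_iff.1 hy] at r1
      rw [mem_singleton_iff.1 hz] at r2
      exact r1.trans r2.symm

theorem bonds_poly {G : SimpleGraph (Pt d)} (hG : Piece univ G) :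
    bonds G.support = 2 * G.support.ncard + 2 * polyContacts G := by
  set A : Set (Pt d × Pt d) := {p | G.Adj p.1 p.2} with hA
  set B : Set (Pt d × Pt d) := {p | p ∈ bondSet G.support ∧ ¬ G.Adj p.1 p.2 ∧
    toLex p.1 < toLex p.2} with hB
  have fb := bondSet_finite hG.fin
  have sA : A ⊆ bondSet G.support := fun p hp =>
    ⟨mem_supp.2 ⟨_, hp⟩, mem_supp.2 ⟨_, SimpleGraph.Adj.symm hp⟩, hG.le hp⟩
  have fA : A.Finite := fb.subset sA
  have fB : B.Finite := fb.subset fun p hp => hp.1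
  have mS : ∀ p : Pt d × Pt d, p ∈ Prod.swap '' B ↔ p.swap ∈ B := fun p =>
    ⟨fun ⟨q, hq, e⟩ => by rw [← e]; exact hq, fun h => ⟨_, h, rfl⟩⟩
  have e : bondSet G.support = A ∪ (B ∪ Prod.swap '' B) := by
    ext ⟨x, y⟩
    rw [mem_union, mem_union, mS]
    constructor
    · intro h
      by_cases h1 : G.Adj x y
      · exact Or.inl h1
      have hne : toLex x ≠ toLex y := fun e => h.2.2.ne (toLex.injective e)
      rcases lt_or_gt_of_ne hne with h2 | h2
      · exact Or.inr (Or.inl ⟨h, h1, h2⟩)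
      · exact Or.inr (Or.inr ⟨⟨h.2.1, h.1, h.2.2.symm⟩, fun h' => h1 (SimpleGraph.Adj.symm h'), h2⟩)
    · rintro (h | h | h)
      · exact sA h
      · exact h.1
      · exact ⟨h.1.2.1, h.1.1, h.1.2.2.symm⟩
  have d1 : Disjoint B (Prod.swap '' B) := disjoint_left.2 fun p h1 h2 =>
    lt_asymm h1.2.2 ((mS p).1 h2).2.2
  have d2 : Disjoint A (B ∪ Prod.swap '' B) := disjoint_left.2 fun p h1 h2 => by
    rcases h2 with h2 | h2
    · exact h2.2.1 h1
    · exact ((mS p).1 h2).2.1 (SimpleGraph.Adj.symm h1)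
  have cA : A.ncard = 2 * G.support.ncard := by
    rw [ncard_eq_toFinset_card _ fA, ncard_eq_toFinset_card _ hG.fin,
      Finset.card_eq_sum_card_fiberwise (f := Prod.fst) (t := hG.fin.toFinset)
        fun p hp => by simpa using (sA ((Finite.mem_toFinset _).1 hp)).1]
    rw [Finset.sum_congr rfl (g := fun _ => 2), Finset.sum_const, smul_eq_mul, mul_comm]
    intro v hv
    obtain ⟨a, b, hab, ea⟩ := hG.two v trivial ((Finite.mem_toFinset _).1 hv)
    refine Finset.card_eq_two.2 ⟨(v, a), (v, b), fun e => hab (congrArg Prod.snd e), ?_⟩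
    ext ⟨x, y⟩
    simp only [Finset.mem_filter, Finite.mem_toFinset, hA, mem_ofPred_eq, Finset.mem_insert,
      Finset.mem_singleton, Prod.mk.injEq]
    constructor
    · rintro ⟨h, rfl⟩
      exact ((ea y).1 h).imp (fun h => ⟨rfl, h⟩) fun h => ⟨rfl, h⟩
    · rintro (⟨rfl, h⟩ | ⟨rfl, h⟩)
      · exact ⟨(ea y).2 (Or.inl h), rfl⟩
      · exact ⟨(ea y).2 (Or.inr h), rfl⟩
  have cB : polyContacts G = B.ncard := by
    have : {e : Sym2 (Pt d) | ∃ x ∈ G.support, ∃ y ∈ G.support, e = s(x, y) ∧ Nb x y ∧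
        ¬ G.Adj x y} = (fun p : Pt d × Pt d => s(p.1, p.2)) '' B := by
      ext e
      constructor
      · rintro ⟨x, hx, y, hy, rfl, h1, h2⟩
        have h := nb_iff.1 h1
        have hne : toLex x ≠ toLex y := fun e => h.ne (toLex.injective e)
        rcases lt_or_gt_of_ne hne with h3 | h3
        · exact ⟨(x, y), ⟨⟨hx, hy, h⟩, h2, h3⟩, rfl⟩
        · exact ⟨(y, x), ⟨⟨hy, hx, h.symm⟩, fun h' => h2 (SimpleGraph.Adj.symm h'), h3⟩,
            Sym2.eq_swap⟩
      · rintro ⟨p, hp, rfl⟩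
        exact ⟨_, hp.1.1, _, hp.1.2.1, rfl, nb_iff.2 hp.1.2.2, hp.2.1⟩
    rw [polyContacts, this, InjOn.ncard_image]
    rintro ⟨x, y⟩ hp ⟨x', y'⟩ hq e
    rcases Sym2.eq_iff.1 e with ⟨h1, h2⟩ | ⟨h1, h2⟩
    · exact Prod.ext h1 h2
    · have h3 := hp.2.2
      have h4 := hq.2.2
      simp only at h1 h2 h3 h4
      rw [h1, h2] at h3
      exact absurd h4 (lt_asymm h3)
  rw [bonds, e, ncard_union_eq d2 fA (fB.union (fB.image _)), ncard_union_eq d1 fB (fB.image _),
    ncard_image_of_injective _ Prod.swap_injective, cA, cB]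
  ring

theorem ZP_eq (β : ℝ) (n : ℕ) : ZP d β n = Y d (β / 2) n * Real.exp (-(β * n)) := by
  rw [ZP, polygons_eq, finsum_mem_eq_finite_toFinset_sum _ (pols_finite d n), Y, W,
    Finset.sum_mul]
  refine Finset.sum_congr rfl fun G hG => ?_
  have h := (Finite.mem_toFinset _).1 hG
  rw [inter_univ, bonds_poly h.1, h.2.2.1, ← Real.exp_add]
  congr 1
  push_cast
  ring

theorem free_energy_poly (hd : 2 ≤ d) {β : ℝ} (hβ : 0 < β) :
    Tendsto (fun n : ℕ => 1 / ((2 * n : ℕ) : ℝ) * Real.log (ZP d β (2 * n))) atTop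
      (𝓝 (rate d (β / 2) - β)) := by
  have hγ : 0 < β / 2 := by positivity
  refine ((tendsto_Y hd hγ).sub_const β).congr' ?_
  filter_upwards [eventually_gt_atTop 0, Y_lower hd hγ (sub_one_lt (rate d (β / 2)))] with n hn h
  have hn' : ((2 * n : ℕ) : ℝ) ≠ 0 := by exact_mod_cast (by omega : 2 * n ≠ 0)
  rw [ZP_eq, Real.log_mul ((Real.exp_pos _).trans_le h).ne' (Real.exp_pos _).ne', Real.log_exp]
  field_simp
  ring

end Pool.Agent.P.MP_86995c_pr
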