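import Pool.Agent.P.MP_86995c_pr.Rate

/-!
Polygons are bounded by the lower growth rate of walks.
-/

set_option autoImplicit false
open Classical Set Filter

namespace Pool.Agent.P.MP_86995c_pr

variable {d : ℕ}

/-- remove the edge p q and add the edges p p' and q q' -/
def opn {V : Type*} (G : SimpleGraph V) (p q p' q' : V) : SimpleGraph V where
  Adj x y := ((G.Adj x y ∧ s(x, y) ≠ s(p, q)) ∨ s(x, y) = s(p, p') ∨ s(x, y) = s(q, q')) ∧ x ≠ y
  symm := ⟨fun x y h => by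
    rw [Sym2.eq_swap (a := y), G.adj_comm]; exact ⟨h.1, h.2.symm⟩⟩
  loopless := ⟨fun _ h => h.2 rfl⟩

theorem opn_adj {V : Type*} {G : SimpleGraph V} {p q p' q' x y : V} :
    (opn G p q p' q').Adj x y ↔
      ((G.Adj x y ∧ s(x, y) ≠ s(p, q)) ∨ s(x, y) = s(p, p') ∨ s(x, y) = s(q, q')) ∧ x ≠ y :=
  Iff.rfl

theorem del_le_opn {V : Type*} (G : SimpleGraph V) (p q p' q' : V) :
    G.deleteEdges {s(p, q)} ≤ opn G p q p' q' := fun x y h => by
  rw [SimpleGraph.deleteEdges_adj] at h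
  exact ⟨Or.inl h, h.1.ne⟩

theorem opn_piece {R Z : Set (Pt d)} {G : SimpleGraph (Pt d)} (hG : Piece R G) {p q p' q' : Pt d}
    (hpq : G.Adj p q) (hp : p ∈ R) (hq : q ∈ R) (hpp : (lat d).Adj p p') (hqq : (lat d).Adj q q')
    (hp' : p' ∈ Z) (hq' : q' ∈ Z) (hZ : ∀ v ∈ G.support, v ∉ Z) :
    Piece (R \ Z) (opn G p q p' q') ∧
    (opn G p q p' q').support = G.support ∪ {p', q'} ∧
    (opn G p q p' q').support ∩ (R \ Z) = G.support ∩ R ∧
    cross (R \ Z) (opn G p q p' q') = cross R G ∪ {(p, p'), (q, q')} ∧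
    (opn G p q p' q').Adj p p' ∧ (opn G p q p' q').Adj q q' ∧
    ∀ x y, G.Adj x y ↔
      ((opn G p q p' q').Adj x y ∧ x ∉ Z ∧ y ∉ Z) ∨ s(x, y) = s(p, q) := by
  have hpZ : p ∉ Z := hZ p (mem_supp.2 ⟨_, hpq⟩)
  have hqZ : q ∉ Z := hZ q (mem_supp.2 ⟨_, hpq.symm⟩)
  have n1 : p ≠ q := hpq.ne
  have n2 : p ≠ p' := hpp.ne
  have n3 : q ≠ q' := hqq.ne
  have n4 : p ≠ q' := fun e => hpZ (e ▸ hq')
  have n5 : q ≠ p' := fun e => hqZ (e ▸ hp')
  have aZ : ∀ x y, G.Adj x y → x ∉ Z ∧ y ∉ Z := fun x y h =>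
    ⟨hZ x (mem_supp.2 ⟨_, h⟩), hZ y (mem_supp.2 ⟨_, h.symm⟩)⟩
  have app : (opn G p q p' q').Adj p p' := ⟨Or.inr (Or.inl rfl), n2⟩
  have aqq : (opn G p q p' q').Adj q q' := ⟨Or.inr (Or.inr rfl), n3⟩
  obtain ⟨a, ha, ea⟩ := (hG.two p hp (mem_supp.2 ⟨_, hpq⟩)).other hpq
  obtain ⟨b, hb, eb⟩ := (hG.two q hq (mem_supp.2 ⟨_, hpq.symm⟩)).other hpq.symm
  have hsupp : (opn G p q p' q').support = G.support ∪ {p', q'} := by
    ext v
    simp only [mem_supp, mem_union, mem_insert_iff, mem_singleton_iff]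
    constructor
    · rintro ⟨w, (h | h | h), _⟩
      · exact Or.inl ⟨w, h.1⟩
      · rcases Sym2.eq_iff.1 h with ⟨rfl, _⟩ | ⟨rfl, _⟩
        · exact Or.inl ⟨q, hpq⟩
        · exact Or.inr (Or.inl rfl)
      · rcases Sym2.eq_iff.1 h with ⟨rfl, _⟩ | ⟨rfl, _⟩
        · exact Or.inl ⟨p, hpq.symm⟩
        · exact Or.inr (Or.inr rfl)
    · rintro (⟨w, h⟩ | rfl | rfl)
      · by_cases e : s(v, w) = s(p, q)
        · rcases Sym2.eq_iff.1 e with ⟨rfl, _⟩ | ⟨rfl, _⟩
          · exact ⟨_, app⟩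
          · exact ⟨_, aqq⟩
        · exact ⟨w, Or.inl ⟨h, e⟩, h.ne⟩
      · exact ⟨_, app.symm⟩
      · exact ⟨_, aqq.symm⟩
  have hcore : (opn G p q p' q').support ∩ (R \ Z) = G.support ∩ R := by
    rw [hsupp]
    ext v
    constructor
    · rintro ⟨h | rfl | rfl, h1, h2⟩
      · exact ⟨h, h1⟩
      · exact absurd hp' h2
      · exact absurd hq' h2
    · rintro ⟨h, h1⟩
      exact ⟨Or.inl h, h1, hZ v h⟩
  refine ⟨⟨?_, ?_, ?_, ?_⟩, hsupp, hcore, ?_, app, aqq, ?_⟩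
  · rintro x y ⟨h | h | h, _⟩
    · exact hG.le h.1
    · rcases Sym2.eq_iff.1 h with ⟨rfl, rfl⟩ | ⟨rfl, rfl⟩
      · exact hpp
      · exact hpp.symm
    · rcases Sym2.eq_iff.1 h with ⟨rfl, rfl⟩ | ⟨rfl, rfl⟩
      · exact hqq
      · exact hqq.symm
  · rw [hsupp]; exact hG.fin.union (toFinite _)
  · intro v hv hs
    have hs' : v ∈ G.support ∩ R := hcore ▸ ⟨hs, hv⟩
    by_cases e1 : v = p
    · subst e1
      have hva : G.Adj v a := (ea a).2 (Or.inr rfl)
      have := hva.ne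
      refine ⟨a, p', fun e => (aZ _ _ hva).2 (e ▸ hp'), fun w => ?_⟩
      rw [opn_adj, ea]; simp only [ne_eq, Sym2.eq_iff]; grind
    by_cases e2 : v = q
    · subst e2
      have hvb : G.Adj v b := (eb b).2 (Or.inr rfl)
      have := hvb.ne
      refine ⟨b, q', fun e => (aZ _ _ hvb).2 (e ▸ hq'), fun w => ?_⟩
      rw [opn_adj, eb]; simp only [ne_eq, Sym2.eq_iff]; grind
    obtain ⟨x, y, hxy, e⟩ := hG.two v hs'.2 hs'.1
    refine ⟨x, y, hxy, fun w => ?_⟩
    have e3 : v ≠ p' := fun e => hv.2 (e ▸ hp')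
    have e4 : v ≠ q' := fun e => hv.2 (e ▸ hq')
    rw [← e, opn_adj]
    constructor
    · rintro ⟨h | h | h, _⟩
      · exact h.1
      · simp only [Sym2.eq_iff] at h; tauto
      · simp only [Sym2.eq_iff] at h; tauto
    · intro h
      exact ⟨Or.inl ⟨h, by simp only [ne_eq, Sym2.eq_iff]; tauto⟩, h.ne⟩
  · rintro x y ⟨h | h | h, _⟩
    · exact (hG.inR x y h.1).imp (fun h' => ⟨h', (aZ _ _ h.1).1⟩) (fun h' => ⟨h', (aZ _ _ h.1).2⟩)
    · rcases Sym2.eq_iff.1 h with ⟨rfl, rfl⟩ | ⟨rfl, rfl⟩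
      · exact Or.inl ⟨hp, hpZ⟩
      · exact Or.inr ⟨hp, hpZ⟩
    · rcases Sym2.eq_iff.1 h with ⟨rfl, rfl⟩ | ⟨rfl, rfl⟩
      · exact Or.inl ⟨hq, hqZ⟩
      · exact Or.inr ⟨hq, hqZ⟩
  · ext ⟨x, y⟩
    simp only [cross, mem_ofPred_eq, mem_union, mem_insert_iff, mem_singleton_iff, Prod.mk.injEq,
      Set.mem_sdiff, not_and, not_not]
    constructor
    · rintro ⟨⟨h | h | h, _⟩, h'⟩
      · exact Or.inl ⟨h.1, fun hy => (aZ _ _ h.1).2 (h' hy)⟩
      · rcases Sym2.eq_iff.1 h with ⟨rfl, rfl⟩ | ⟨rfl, rfl⟩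
        · exact Or.inr (Or.inl ⟨rfl, rfl⟩)
        · exact absurd (h' hp) hpZ
      · rcases Sym2.eq_iff.1 h with ⟨rfl, rfl⟩ | ⟨rfl, rfl⟩
        · exact Or.inr (Or.inr ⟨rfl, rfl⟩)
        · exact absurd (h' hq) hqZ
    · rintro (⟨h, hy⟩ | ⟨rfl, rfl⟩ | ⟨rfl, rfl⟩)
      · refine ⟨⟨Or.inl ⟨h, fun e => ?_⟩, h.ne⟩, fun h' => absurd h' hy⟩
        rcases Sym2.eq_iff.1 e with ⟨rfl, rfl⟩ | ⟨rfl, rfl⟩
        · exact hy hq
        · exact hy hp
      · exact ⟨app, fun _ => hp'⟩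
      · exact ⟨aqq, fun _ => hq'⟩
  · intro x y
    constructor
    · intro h
      by_cases e : s(x, y) = s(p, q)
      · exact Or.inr e
      · exact Or.inl ⟨⟨Or.inl ⟨h, e⟩, h.ne⟩, aZ _ _ h⟩
    · rintro (⟨⟨h | h | h, _⟩, hx, hy⟩ | e)
      · exact h.1
      · rcases Sym2.eq_iff.1 h with ⟨rfl, rfl⟩ | ⟨rfl, rfl⟩
        · exact absurd hp' hy
        · exact absurd hp' hx
      · rcases Sym2.eq_iff.1 h with ⟨rfl, rfl⟩ | ⟨rfl, rfl⟩
        · exact absurd hq' hy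
        · exact absurd hq' hx
      · rcases Sym2.eq_iff.1 e with ⟨rfl, rfl⟩ | ⟨rfl, rfl⟩
        · exact hpq
        · exact hpq.symm

/-- the data of two extreme edges of a polygon -/
structure Ext (i : Fin d) (G : SimpleGraph (Pt d)) (pL qL pR qR : Pt d) : Prop where
  aL : G.Adj pL qL
  aR : G.Adj pR qR
  eL : qL i = pL i
  eR : qR i = pR i
  ne : s(pL, qL) ≠ s(pR, qR)
  bd : ∀ v ∈ G.support, pL i ≤ v i ∧ v i ≤ pR i

theorem exists_ext (i : Fin d) {G : SimpleGraph (Pt d)} (hG : Piece univ G)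
    (hne : G.support.Nonempty) : ∃ pL qL pR qR, Ext i G pL qL pR qR := by
  obtain ⟨pR, hR, mR⟩ := exists_max_image G.support (fun v => v i) hG.fin hne
  obtain ⟨pL, hL, mL⟩ := exists_min_image G.support (fun v => v i) hG.fin hne
  have flat : ∀ p ∈ G.support, ((∀ v ∈ G.support, v i ≤ p i) ∨ (∀ v ∈ G.support, p i ≤ v i)) →
      ∃ q, G.Adj p q ∧ q i = p i := by
    intro p hp hm
    obtain ⟨a, b, hab, e⟩ := hG.two p trivial hp
    have ha := (e a).2 (Or.inl rfl)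
    have hb := (e b).2 (Or.inr rfl)
    by_contra hcon
    push Not at hcon
    have h1 := hcon a ha
    have h2 := hcon b hb
    have h3 := lat_adj_coord (hG.le ha) i
    have h4 := lat_adj_coord (hG.le hb) i
    have h5 : a i = b i := by
      have ha' : a ∈ G.support := mem_supp.2 ⟨_, ha.symm⟩
      have hb' : b ∈ G.support := mem_supp.2 ⟨_, hb.symm⟩
      rcases hm with hm | hm
      · have := hm a ha'; have := hm b hb'; omega
      · have := hm a ha'; have := hm b hb'; omega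
    refine hab ?_
    rw [eq_update_of (lat_adj_other (hG.le ha) h1), eq_update_of (lat_adj_other (hG.le hb) h2), h5]
  by_cases hfl : pL i = pR i
  · obtain ⟨a, b, hab, e⟩ := hG.two pR trivial hR
    have ha := (e a).2 (Or.inl rfl)
    have hb := (e b).2 (Or.inr rfl)
    have ha' : a ∈ G.support := mem_supp.2 ⟨_, ha.symm⟩
    have hb' : b ∈ G.support := mem_supp.2 ⟨_, hb.symm⟩
    refine ⟨pR, a, pR, b, ha, hb, ?_, ?_, ?_, fun v hv => ⟨hfl ▸ mL v hv, mR v hv⟩⟩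
    · have := mL a ha'; have := mR a ha'; omega
    · have := mL b hb'; have := mR b hb'; omega
    · have := hb.ne
      simp only [ne_eq, Sym2.eq_iff]; tauto
  · obtain ⟨qL, h1, h2⟩ := flat pL hL (Or.inr mL)
    obtain ⟨qR, h3, h4⟩ := flat pR hR (Or.inl mR)
    refine ⟨pL, qL, pR, qR, h1, h3, h2, h4, fun e => ?_, fun v hv => ⟨mL v hv, mR v hv⟩⟩
    rcases Sym2.eq_iff.1 e with ⟨rfl, rfl⟩ | ⟨rfl, rfl⟩
    · exact hfl rfl
    · exact hfl h4

theorem conn_del {G : SimpleGraph (Pt d)} (hG : Piece univ G) {x : Pt d} (hA : Anch {x} G)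
    {p q : Pt d} (hpq : G.Adj p q) {u v : Pt d} (hu : u ∈ G.support) (hv : v ∈ G.support) :
    (G.deleteEdges {s(p, q)}).Reachable u v := by
  have h0 := del_reach hG.fin (fun v hv => hG.two v trivial hv) hpq
  have key : ∀ u ∈ G.support, (G.deleteEdges {s(p, q)}).Reachable u p := by
    intro u hu
    obtain ⟨y, hy, h1⟩ := hA u hu
    obtain ⟨z, hz, h2⟩ := hA p (mem_supp.2 ⟨_, hpq⟩)
    rw [mem_singleton_iff.1 hy] at h1
    rw [mem_singleton_iff.1 hz] at h2
    rcases reach_del_ends (q := q) (h1.trans h2.symm) with h | h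
    · exact h
    · exact h.trans h0.symm
  exact (key u hu).trans (key v hv).symm

theorem poly_type_bound {γ : ℝ} (hγ : 0 ≤ γ) (i : Fin d) {T : Set (Pt d × Pt d)} {m : ℕ}
    {x : Pt d} {F : Finset (SimpleGraph (Pt d))} (hF : Fam univ T m {x} F) (hm : 0 < m)
    {pL qL pR qR : Pt d} (hE : ∀ G ∈ F, Ext i G pL qL pR qR) :
    W γ univ F ≤ Real.exp (rate d γ * m) := by
  rcases F.eq_empty_or_nonempty with rfl | ⟨G₀, hG₀⟩
  · simp [W, (Real.exp_pos _).le]
  set a := pL i with ha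
  set b := pR i + 1 with hb
  have E₀ := hE G₀ hG₀
  have hab : a < b := by
    have := (E₀.bd pR (mem_supp.2 ⟨_, E₀.aR⟩)).1; omega
  have hqL : qL i = a := E₀.eL
  have hqR : qR i = b - 1 := by rw [E₀.eR]; omega
  set pL' := Function.update pL i (a - 1) with hpL'
  set qL' := Function.update qL i (a - 1) with hqL'
  set pR' := Function.update pR i b with hpR'
  set qR' := Function.update qR i b with hqR'
  have cpL : pL' i = a - 1 := by simp [hpL']
  have cqL : qL' i = a - 1 := by simp [hqL']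
  have cpR : pR' i = b := by simp [hpR']
  have cqR : qR' i = b := by simp [hqR']
  have lpL : (lat d).Adj pL pL' := lat_adj_update _ _ _ (by omega)
  have lqL : (lat d).Adj qL qL' := lat_adj_update _ _ _ (by omega)
  have lpR : (lat d).Adj pR pR' := lat_adj_update _ _ _ (by omega)
  have lqR : (lat d).Adj qR qR' := lat_adj_update _ _ _ (by omega)
  set Z₁ : Set (Pt d) := {y | b ≤ y i} with hZ₁
  set Z₂ : Set (Pt d) := {y | y i < a} with hZ₂
  have eS : (univ \ Z₁) \ Z₂ = slab univ i a b := by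
    ext y; simp only [hZ₁, hZ₂, slab, Set.mem_sdiff, mem_univ, mem_ofPred_eq, mem_inter_iff, true_and]
    omega
  set T' : Set (Pt d × Pt d) := {(pR, pR'), (qR, qR')} ∪ {(pL, pL'), (qL, qL')} with hT'
  let O : SimpleGraph (Pt d) → SimpleGraph (Pt d) :=
    fun G => opn (opn G pR qR pR' qR') pL qL pL' qL'
  have main : ∀ G ∈ F, Piece (slab univ i a b) (O G) ∧ cross (slab univ i a b) (O G) = T' ∧
      (O G).support ∩ slab univ i a b = G.support ∧ Anch (∅ ∪ lends T' i a) (O G) ∧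
      Anch (∅ ∪ rends T' i b) (O G) ∧
      ∀ x y, G.Adj x y ↔ ((((O G).Adj x y ∧ x ∉ Z₂ ∧ y ∉ Z₂) ∨ s(x, y) = s(pL, qL)) ∧
        x ∉ Z₁ ∧ y ∉ Z₁) ∨ s(x, y) = s(pR, qR) := by
    intro G hG
    have E := hE G hG
    have hP := hF.piece G hG
    obtain ⟨r1, r2, r3, r4, r5, r6, r7⟩ := opn_piece (Z := Z₁) hP E.aR trivial trivial lpR lqR
      (by simp [hZ₁, cpR]) (by simp [hZ₁, cqR])
      (fun v hv => by have := (E.bd v hv).2; simp only [hZ₁, mem_ofPred_eq]; omega)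
    have aL' : (opn G pR qR pR' qR').Adj pL qL := ⟨Or.inl ⟨E.aL, E.ne⟩, E.aL.ne⟩
    obtain ⟨l1, l2, l3, l4, l5, l6, l7⟩ := opn_piece (Z := Z₂) r1 aL'
      ⟨trivial, by simp only [hZ₁, mem_ofPred_eq]; omega⟩
      ⟨trivial, by simp only [hZ₁, mem_ofPred_eq]; omega⟩ lpL lqL
      (by simp [hZ₂, cpL]) (by simp [hZ₂, cqL])
      (fun v hv => by
        rw [r2] at hv
        simp only [hZ₂, mem_ofPred_eq]
        rcases hv with hv | rfl | rfl
        · have := (E.bd v hv).1; omega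
        · omega
        · omega)
    rw [eS] at l1 l3 l4
    have c0 : cross univ G = ∅ := by
      ext p; simp [cross]
    have spL : pL ∈ G.support := mem_supp.2 ⟨_, E.aL⟩
    have sqL : qL ∈ G.support := mem_supp.2 ⟨_, E.aL.symm⟩
    have spR : pR ∈ G.support := mem_supp.2 ⟨_, E.aR⟩
    have sqR : qR ∈ G.support := mem_supp.2 ⟨_, E.aR.symm⟩
    have oR1 : (O G).Adj pR pR' := ⟨Or.inl ⟨r5, fun e => by
      rcases Sym2.eq_iff.1 e with ⟨_, e⟩ | ⟨_, e⟩
      · have := congrFun e i; omega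
      · have := congrFun e i; omega⟩, r5.ne⟩
    have oR2 : (O G).Adj qR qR' := ⟨Or.inl ⟨r6, fun e => by
      rcases Sym2.eq_iff.1 e with ⟨_, e⟩ | ⟨_, e⟩
      · have := congrFun e i; omega
      · have := congrFun e i; omega⟩, r6.ne⟩
    have mL1 : pL' ∈ ∅ ∪ lends T' i a := Or.inr ⟨pL, Or.inr (Or.inl rfl), by omega⟩
    have mL2 : qL' ∈ ∅ ∪ lends T' i a := Or.inr ⟨qL, Or.inr (Or.inr rfl), by omega⟩
    have mR1 : pR' ∈ ∅ ∪ rends T' i b := Or.inr ⟨pR, Or.inl (Or.inl rfl), by omega⟩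
    have mR2 : qR' ∈ ∅ ∪ rends T' i b := Or.inr ⟨qR, Or.inl (Or.inr rfl), by omega⟩
    have toL : ∀ v ∈ G.support, ∃ y ∈ ∅ ∪ lends T' i a, (O G).Reachable v y := by
      intro v hv
      have h1 := (conn_del hP (hF.anch G hG) E.aR hv spL).mono (del_le_opn G pR qR pR' qR')
      rcases reach_del_ends (q := qL) h1 with h | h
      · exact ⟨_, mL1, (h.mono (del_le_opn _ _ _ _ _)).trans l5.reachable⟩
      · exact ⟨_, mL2, (h.mono (del_le_opn _ _ _ _ _)).trans l6.reachable⟩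
    have toR : ∀ v ∈ G.support, ∃ y ∈ ∅ ∪ rends T' i b, (O G).Reachable v y := by
      intro v hv
      have h1 := conn_del hP (hF.anch G hG) E.aL hv spR
      have hle : (G.deleteEdges {s(pL, qL)}).deleteEdges {s(pR, qR)} ≤ O G := by
        intro x y h
        simp only [SimpleGraph.deleteEdges_adj, mem_singleton_iff] at h
        exact ⟨Or.inl ⟨⟨Or.inl ⟨h.1.1, h.2⟩, h.1.1.ne⟩, h.1.2⟩, h.1.1.ne⟩
      rcases reach_del_ends (q := qR) h1 with h | h
      · exact ⟨_, mR1, (h.mono hle).trans oR1.reachable⟩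
      · exact ⟨_, mR2, (h.mono hle).trans oR2.reachable⟩
    refine ⟨l1, by rw [l4, r4, c0, empty_union], by rw [l3, r3, inter_univ], ?_, ?_, ?_⟩
    · intro v hv
      rw [l2, r2] at hv
      rcases hv with (hv | rfl | rfl) | rfl | rfl
      · exact toL v hv
      · obtain ⟨y, hy, h⟩ := toL pR spR
        exact ⟨y, hy, oR1.symm.reachable.trans h⟩
      · obtain ⟨y, hy, h⟩ := toL qR sqR
        exact ⟨y, hy, oR2.symm.reachable.trans h⟩
      · exact ⟨_, mL1, SimpleGraph.Reachable.refl _⟩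
      · exact ⟨_, mL2, SimpleGraph.Reachable.refl _⟩
    · intro v hv
      rw [l2, r2] at hv
      rcases hv with (hv | rfl | rfl) | rfl | rfl
      · exact toR v hv
      · exact ⟨_, mR1, SimpleGraph.Reachable.refl _⟩
      · exact ⟨_, mR2, SimpleGraph.Reachable.refl _⟩
      · obtain ⟨y, hy, h⟩ := toR pL spL
        exact ⟨y, hy, l5.symm.reachable.trans h⟩
      · obtain ⟨y, hy, h⟩ := toR qL sqL
        exact ⟨y, hy, l6.symm.reachable.trans h⟩
    · intro x y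
      rw [r7, l7]
  have hSF : SlabFam univ i a b T' m ∅ (F.image O) := by
    refine ⟨hab, ⟨?_, ?_, ?_, ?_⟩, ?_, fun _ _ => trivial⟩
    all_goals
      intro G' hG'
      obtain ⟨G, hG, rfl⟩ := Finset.mem_image.1 hG'
      obtain ⟨m1, m2, m3, m4, m5, _⟩ := main G hG
    · exact m1
    · exact m2
    · rw [m3, ← hF.mass G hG, inter_univ]
    · exact m4
    · exact m5
  have hWO : W γ (slab univ i a b) (F.image O) = W γ univ F := by
    unfold W
    rw [Finset.sum_image]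
    · exact Finset.sum_congr rfl fun G hG => by rw [(main G hG).2.2.1, inter_univ]
    · intro G hG G' hG' e
      ext x y
      rw [(main G hG).2.2.2.2.2, (main G' hG').2.2.2.2.2, e]
  -- the cap
  let κ : ℕ → Pt d := fun k => if k = 0 then pL else if k = 1 then pL' else if k = 2 then qL' else qL
  have lpq : (lat d).Adj pL' qL' := by
    obtain ⟨j, h1, h2⟩ := (hF.piece G₀ hG₀).le E₀.aL
    have hj : j ≠ i := fun e => by subst e; omega
    refine ⟨j, by simpa [hpL', hqL', Function.update_of_ne hj] using h1, fun k hk => ?_⟩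
    by_cases e : k = i
    · subst e; rw [cpL, cqL]
    · simpa [hpL', hqL', Function.update_of_ne e] using h2 k hk
  have hκ : InjOn κ (Icc 0 3) := by
    have n1 := lpL.ne
    have n2 := lqL.ne
    have n3 := lpq.ne
    have n4 := E₀.aL.ne
    have n5 : pL ≠ qL' := fun e => by have := congrFun e i; omega
    have n6 : qL ≠ pL' := fun e => by have := congrFun e i; omega
    intro k hk j hj e
    obtain rfl | rfl | rfl | rfl : k = 0 ∨ k = 1 ∨ k = 2 ∨ k = 3 := by have := hk.2; omega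
    all_goals obtain rfl | rfl | rfl | rfl : j = 0 ∨ j = 1 ∨ j = 2 ∨ j = 3 := by have := hj.2; omega
    all_goals first | rfl | (simp only [κ] at e; norm_num at e; tauto)
  have κadj : ∀ x y, (pg κ 0 3).Adj x y ↔ s(x, y) = s(pL, pL') ∨ s(x, y) = s(pL', qL') ∨
      s(x, y) = s(qL', qL) := by
    intro x y
    rw [pg_adj hκ]
    simp only [Sym2.eq_iff]
    constructor
    · rintro ⟨k, _, hk, h⟩
      obtain rfl | rfl | rfl : k = 0 ∨ k = 1 ∨ k = 2 := by omega
      all_goals simp only [κ] at h; norm_num at h; tauto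
    · rintro (h | h | h)
      · exact ⟨0, le_rfl, by omega, by simp only [κ]; norm_num; tauto⟩
      · exact ⟨1, by omega, by omega, by simp only [κ]; norm_num; tauto⟩
      · exact ⟨2, by omega, by omega, by simp only [κ]; norm_num; tauto⟩
  have memR : ∀ y : Pt d, y ∈ lft univ i a ↔ y i < a := fun y => by simp [lft]
  have hKP : Piece (lft univ i a) (pg κ 0 3) := by
    refine ⟨fun x y h => ?_, ((finite_Icc 0 3).image κ).subset fun v hv => ?_, fun v hv hs => ?_,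
      fun x y h => ?_⟩
    · rcases (κadj x y).1 h with e | e | e <;> rcases Sym2.eq_iff.1 e with ⟨rfl, rfl⟩ | ⟨rfl, rfl⟩
      exacts [lpL, lpL.symm, lpq, lpq.symm, lqL.symm, lqL]
    · obtain ⟨w, hw⟩ := mem_supp.1 hv
      obtain ⟨k, h1, h2, rfl⟩ := pg_mem hκ hw
      exact ⟨k, ⟨h1, h2⟩, rfl⟩
    · obtain ⟨w, hw⟩ := mem_supp.1 hs
      obtain ⟨k, h1, h2, rfl⟩ := pg_mem hκ hw
      rw [memR] at hv
      obtain rfl | rfl | rfl | rfl : k = 0 ∨ k = 1 ∨ k = 2 ∨ k = 3 := by omega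
      · simp only [κ] at hv; norm_num at hv; omega
      · exact pg_two hκ (by omega) (by omega)
      · exact pg_two hκ (by omega) (by omega)
      · simp only [κ] at hv; norm_num at hv; omega
    · simp only [memR]
      rcases (κadj x y).1 h with e | e | e <;>
        rcases Sym2.eq_iff.1 e with ⟨rfl, rfl⟩ | ⟨rfl, rfl⟩ <;> omega
  have hK : Fam (lft univ i a) (cross (lft univ i a) (pg κ 0 3))
      ((pg κ 0 3).support ∩ lft univ i a).ncard {κ 0} {pg κ 0 3} := by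
    refine ⟨?_, ?_, ?_, ?_⟩
    all_goals
      intro G hG
      rw [Finset.mem_singleton.1 hG]
    · exact hKP
    · intro v hv
      obtain ⟨w, hw⟩ := mem_supp.1 hv
      obtain ⟨k, h1, h2, rfl⟩ := pg_mem hκ hw
      exact ⟨_, rfl, (pg_reach hκ h1 h2).symm⟩
  have hc : ∀ G₁ ∈ ({pg κ 0 3} : Finset (SimpleGraph (Pt d))), ∀ G₂ ∈ F.image O,
      ∀ v ∈ lft univ i a, ∀ w ∈ slab univ i a b, G₁.Adj v w ↔ G₂.Adj v w := by
    intro G₁ hG₁ G₂ hG₂ v hv w hw
    have hv' := (memR v).1 hv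
    have hw' : a ≤ w i := hw.2.1
    rw [Finset.mem_singleton.1 hG₁, κadj, G₂.adj_comm,
      hSF.fam.adj_iff hG₂ w (fun h => by have := h.2.1; omega)]
    simp only [hT', mem_union, mem_insert_iff, mem_singleton_iff, Prod.mk.injEq, Sym2.eq_iff]
    constructor
    · rintro ((⟨rfl, rfl⟩ | ⟨rfl, rfl⟩) | (⟨rfl, rfl⟩ | ⟨rfl, rfl⟩) | (⟨rfl, rfl⟩ | ⟨rfl, rfl⟩))
      all_goals first | omega | tauto
    · rintro ((⟨rfl, rfl⟩ | ⟨rfl, rfl⟩) | (⟨rfl, rfl⟩ | ⟨rfl, rfl⟩))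
      all_goals first | omega | tauto
  refine le_exp_rate hγ (one_le_W hγ _ ⟨G₀, hG₀⟩) hm
    (c := ((pg κ 0 3).support ∩ lft univ i a).ncard) fun k r => ?_
  obtain ⟨a', b', T'', TG, X', XG, F', FG, s1, -, -, -, s5, s6, -, -, s9, -, s10, s11⟩ :=
    chain hγ (fun _ _ => Iff.rfl) finite_empty (finite_singleton _) hSF hK hc k
  obtain ⟨⟨G', hG'⟩, ⟨u, v, huv, hu⟩, -⟩ := s5 ⟨⟨_, Finset.mem_image_of_mem _ hG₀⟩,
    ⟨pL', pL, Or.inr (Or.inl rfl), by omega⟩, ⟨pR', pR, Or.inl (Or.inl rfl), by omega⟩⟩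
  rw [s9 rfl] at s6
  rw [← s1.fam.cr G' hG'] at huv
  have hvS : v ∈ slab univ i a' b' :=
    ((s1.fam.piece G' hG').inR _ _ huv.1).resolve_right huv.2
  have h1 := W_le_Z hγ s6 (u := v) (fun h => disjoint_left.1 (lft_disj univ i a' b') h hvS)
    (fun G hG => mem_supp.2 ⟨u, ((s10 G hG G' hG' u ⟨trivial, hu⟩ v hvS).2 huv.1.symm).symm⟩) r
  refine le_trans ?_ (s11.trans h1)
  rw [hWO]
  exact le_mul_of_one_le_left (pow_nonneg (W_nonneg _ _ _) _)
    (one_le_W hγ _ (Finset.singleton_nonempty _))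

theorem near_of_anch {G : SimpleGraph (Pt d)} (hG : Piece univ G) {x : Pt d} (hA : Anch {x} G)
    {v : Pt d} (hv : v ∈ G.support) (k : Fin d) :
    x k - G.support.ncard ≤ v k ∧ v k ≤ x k + G.support.ncard := by
  obtain ⟨y, hy, h⟩ := hA v hv
  rw [mem_singleton_iff.1 hy] at h
  obtain ⟨n, ω, h0, hn, hi, hadj⟩ := exists_seq h
  have h1 := seq_bound (fun k hk => hG.le (hadj k hk)) k n le_rfl
  rw [h0, hn] at h1
  have h2 : ω '' Icc 0 n ⊆ G.support := by
    rintro _ ⟨j, hj, rfl⟩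
    rcases Nat.eq_zero_or_pos j with rfl | hj0
    · exact h0 ▸ hv
    · have := hadj (j - 1) (by have := hj.2; omega)
      rw [Nat.sub_add_cancel hj0] at this
      exact mem_supp.2 ⟨_, this.symm⟩
  have h3 := ncard_le_ncard h2 hG.fin
  rw [hi.ncard_image, ncard_Icc_nat] at h3
  omega

theorem Fam.subset {R : Set (Pt d)} {T : Set (Pt d × Pt d)} {N : ℕ} {X : Set (Pt d)}
    {F F' : Finset (SimpleGraph (Pt d))} (hF : Fam R T N X F) (h : F' ⊆ F) : Fam R T N X F' :=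
  ⟨fun G hG => hF.piece G (h hG), fun G hG => hF.cr G (h hG), fun G hG => hF.mass G (h hG),
    fun G hG => hF.anch G (h hG)⟩

theorem poly_bound {γ : ℝ} (hγ : 0 ≤ γ) (i : Fin d) {T : Set (Pt d × Pt d)} {m : ℕ}
    {x : Pt d} {F : Finset (SimpleGraph (Pt d))} (hF : Fam univ T m {x} F) :
    W γ univ F ≤ (2 * m + 1 : ℝ) ^ (4 * d) * Real.exp (rate d γ * m) := by
  rcases Nat.eq_zero_or_pos m with rfl | hm
  · have : F ⊆ {⊥} := fun G hG => by
      have h := hF.mass G hG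
      rw [inter_univ, ncard_eq_zero (hF.piece G hG).fin] at h
      rw [Finset.mem_singleton]
      ext v w
      exact ⟨fun hvw => absurd (mem_supp.2 ⟨w, hvw⟩) (by rw [h]; exact notMem_empty v),
        fun h => h.elim⟩
    refine (Finset.sum_le_sum_of_subset_of_nonneg this fun _ _ _ => (Real.exp_pos _).le).trans ?_
    simp [bonds, bondSet]
  set B : Finset (Pt d) := Fintype.piFinset fun k => Finset.Icc (x k - m) (x k + m) with hB
  have cB : B.card = (2 * m + 1) ^ d := by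
    rw [hB, Fintype.card_piFinset]
    simp only [Int.card_Icc, Finset.prod_const, Finset.card_univ, Fintype.card_fin,
      show ∀ k, (x k + m + 1 - (x k - m)).toNat = 2 * m + 1 from fun k => by omega]
  have := sum_le_of_fibers F (B ×ˢ B ×ˢ B ×ˢ B)
    (fun G => Real.exp (γ * bonds (G.support ∩ univ)))
    (fun G y => Ext i G y.1 y.2.1 y.2.2.1 y.2.2.2) ?_ (Real.exp (rate d γ * m)) ?_
  · refine this.trans (le_of_eq ?_)
    simp only [Finset.card_product, cB]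
    push_cast
    ring
  · intro G hG
    have hP := hF.piece G hG
    have hmass : G.support.ncard = m := by simpa using hF.mass G hG
    obtain ⟨pL, qL, pR, qR, E⟩ := exists_ext i hP (nonempty_of_ncard_ne_zero (by omega))
    have inB : ∀ v ∈ G.support, v ∈ B := fun v hv => by
      rw [hB, Fintype.mem_piFinset]
      intro k
      have := near_of_anch hP (hF.anch G hG) hv k
      rw [hmass] at this
      exact Finset.mem_Icc.2 this
    refine ⟨(pL, qL, pR, qR), ?_, E⟩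
    simp only [Finset.mem_product]
    exact ⟨inB _ (mem_supp.2 ⟨_, E.aL⟩), inB _ (mem_supp.2 ⟨_, E.aL.symm⟩),
      inB _ (mem_supp.2 ⟨_, E.aR⟩), inB _ (mem_supp.2 ⟨_, E.aR.symm⟩)⟩
  · intro y _ S' hS' hE
    exact poly_type_bound hγ i (hF.subset hS') hm hE

end Pool.Agent.P.MP_86995c_pr
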