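import Pool.Agent.P.MP_86995c_pr.Walks

/-!
The lower growth rate of the partition function.
-/

set_option autoImplicit false
open Classical Set Filter

namespace Pool.Agent.P.MP_86995c_pr

variable {d : ℕ}

theorem sum_le_of_fibers {α δ : Type*} (S : Finset α) (D : Finset δ) (f : α → ℝ)
    (Q : α → δ → Prop) (hQ : ∀ a ∈ S, ∃ y ∈ D, Q a y) (B : ℝ)
    (hB : ∀ y ∈ D, ∀ S' ⊆ S, (∀ a ∈ S', Q a y) → ∑ a ∈ S', f a ≤ B) :
    ∑ a ∈ S, f a ≤ D.card * B := by
  rcases S.eq_empty_or_nonempty with rfl | ⟨a₀, ha₀⟩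
  · rcases D.eq_empty_or_nonempty with rfl | ⟨y, hy⟩
    · simp
    · have := hB y hy ∅ (Finset.Subset.refl _) (by simp)
      simp only [Finset.sum_empty] at this ⊢
      positivity
  have : Nonempty δ := ⟨(hQ a₀ ha₀).choose⟩
  choose! φ hφ using hQ
  rw [← Finset.sum_fiberwise_of_maps_to (g := φ) (t := D) fun a ha => (hφ a ha).1]
  refine (Finset.sum_le_card_nsmul _ _ B fun y hy => ?_).trans (by simp)
  refine hB y hy _ (Finset.filter_subset _ _) fun a ha => ?_
  obtain ⟨h1, h2⟩ := Finset.mem_filter.1 ha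
  exact h2 ▸ (hφ a h1).2

theorem one_le_Z {γ : ℝ} (hγ : 0 ≤ γ) (i : Fin d) (n : ℕ) : 1 ≤ Z d γ n := by
  have h := mem_saw_of_seq (ω := fun k : ℕ => Function.update (0 : Pt d) i (k : ℤ)) (n := n)
    (by simp) (fun k _ j _ e => by simpa using congrFun e i)
    (fun k _ => ⟨i, by simp, fun j hj => by simp [Function.update_of_ne hj]⟩)
  refine le_trans ?_ (Finset.single_le_sum (f := fun w : Fin (n + 1) → Pt d =>
    Real.exp (γ * bonds (range w))) (fun _ _ => (Real.exp_pos _).le) h)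
  exact Real.one_le_exp (by positivity)

theorem ncard_range_le {n : ℕ} (w : Fin (n + 1) → Pt d) : (range w).ncard ≤ n + 1 := by
  rw [← image_univ]
  refine (ncard_image_le finite_univ).trans ?_
  simp [ncard_univ]

theorem Z_le {γ : ℝ} (hγ : 0 ≤ γ) (n : ℕ) :
    Z d γ n ≤ (2 * d : ℝ) ^ n * Real.exp (γ * (2 * d * (n + 1))) := by
  have key := sum_le_of_rel (saw d n) (Finset.univ : Finset (Fin n → Fin d × Bool))
    (fun w => Real.exp (γ * bonds (range w))) (fun _ => Real.exp (γ * (2 * d * (n + 1))))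
    (fun w s => ∀ k : Fin n, sq w (k + 1) = Function.update (sq w k) (s k).1
      (if (s k).2 then sq w k (s k).1 + 1 else sq w k (s k).1 - 1))
    (fun _ _ => (Real.exp_pos _).le) ?_ ?_
  · refine key.trans (le_of_eq ?_)
    simp [mul_comm]
  · intro w hw
    have h := (saw_seq hw).2.1
    have : ∀ k : Fin n, ∃ s : Fin d × Bool, sq w (k + 1) = Function.update (sq w k) s.1
      (if s.2 then sq w k s.1 + 1 else sq w k s.1 - 1) := by
      intro k
      obtain ⟨⟨x, s⟩, _, e⟩ := outPairs_subset (univ : Set (Pt d))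
        (show (sq w k, sq w (k + 1)) ∈ outPairs univ from ⟨trivial, h k k.2⟩)
      simp only [Prod.mk.injEq] at e
      obtain ⟨rfl, e⟩ := e
      exact ⟨s, e.symm⟩
    choose s hs using this
    refine ⟨s, Finset.mem_univ _, hs, Real.exp_le_exp.2 (mul_le_mul_of_nonneg_left ?_ hγ)⟩
    have h1 := bonds_le (finite_range w)
    have h2 := ncard_range_le w
    have : bonds (range w) ≤ 2 * d * (n + 1) := h1.trans (Nat.mul_le_mul_left _ h2)
    exact_mod_cast this
  · intro w hw w' hw' s e e'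
    have h0 : ∀ w ∈ saw d n, sq w 0 = 0 := fun w hw => by
      simp only [saw, Finset.mem_filter] at hw
      exact (sq_val w 0).trans hw.2.1
    have : ∀ k ≤ n, sq w k = sq w' k := by
      intro k hk
      induction k with
      | zero => rw [h0 w hw, h0 w' hw']
      | succ k ih =>
        have h1 := e ⟨k, hk⟩
        have h2 := e' ⟨k, hk⟩
        simp only at h1 h2
        rw [h1, h2, ih (by omega)]
    funext j
    rw [← sq_val w j, ← sq_val w' j, this j (Nat.lt_succ_iff.1 j.2)]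

def rateSet (d : ℕ) (γ : ℝ) : Set ℝ := {r | ∀ᶠ n : ℕ in atTop, Real.exp (r * n) ≤ Z d γ n}

noncomputable def rate (d : ℕ) (γ : ℝ) : ℝ := sSup (rateSet d γ)

theorem zero_mem_rateSet {γ : ℝ} (hγ : 0 ≤ γ) (i : Fin d) : (0 : ℝ) ∈ rateSet d γ :=
  Eventually.of_forall fun n => by simpa using one_le_Z hγ i n

theorem rateSet_bdd {γ : ℝ} (hγ : 0 ≤ γ) : BddAbove (rateSet d γ) := by
  refine ⟨2 * d + γ * (4 * d), fun r hr => ?_⟩
  obtain ⟨n, h1, h2⟩ := (Eventually.and hr (eventually_ge_atTop 1)).exists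
  have h3 := h1.trans (Z_le hγ n)
  have h4 : (2 * d : ℝ) ^ n ≤ Real.exp (2 * d * n) := by
    rw [mul_comm _ (n : ℝ), Real.exp_nat_mul]
    refine pow_le_pow_left₀ (by positivity) ?_ n
    have := Real.add_one_le_exp (2 * d : ℝ)
    linarith
  have h5 := h3.trans (mul_le_mul_of_nonneg_right h4 (Real.exp_pos _).le)
  rw [← Real.exp_add, Real.exp_le_exp] at h5
  have hn : (1 : ℝ) ≤ n := by exact_mod_cast h2
  have hd : (0 : ℝ) ≤ γ * d := by positivity
  refine le_of_mul_le_mul_right (a := (n : ℝ)) ?_ (by linarith)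
  nlinarith

theorem rate_nonneg {γ : ℝ} (hγ : 0 ≤ γ) (i : Fin d) : 0 ≤ rate d γ :=
  le_csSup (rateSet_bdd hγ) (zero_mem_rateSet hγ i)

theorem eventually_lower {γ : ℝ} (hγ : 0 ≤ γ) (i : Fin d) {r : ℝ} (hr : r < rate d γ) :
    ∀ᶠ n : ℕ in atTop, Real.exp (r * n) ≤ Z d γ n := by
  obtain ⟨r', h1, h2⟩ := exists_lt_of_lt_csSup ⟨_, zero_mem_rateSet hγ i⟩ hr
  refine Eventually.mono h1 fun n hn => le_trans (Real.exp_le_exp.2 ?_) hn
  exact mul_le_mul_of_nonneg_right h2.le (Nat.cast_nonneg _)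

theorem le_exp_rate {γ : ℝ} (hγ : 0 ≤ γ) {w : ℝ} (hw : 1 ≤ w) {m c : ℕ} (hm : 0 < m)
    (h : ∀ k r : ℕ, w ^ k ≤ Z d γ (c + k * m + 1 + r)) : w ≤ Real.exp (rate d γ * m) := by
  have hm' : (0 : ℝ) < m := by exact_mod_cast hm
  have hl : 0 ≤ Real.log w := Real.log_nonneg hw
  set l := Real.log w / m with hlam
  have hl0 : 0 ≤ l := by positivity
  have hlm : Real.log w = l * m := by rw [hlam]; field_simp
  have key : l ≤ rate d γ := by
    refine le_of_forall_lt_imp_le_of_dense fun r hr => le_csSup (rateSet_bdd hγ) ?_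
    have hev : ∀ᶠ n : ℕ in atTop, (c + m + 1) * l / (l - r) ≤ (n : ℝ) :=
      tendsto_natCast_atTop_atTop.eventually_ge_atTop _
    filter_upwards [hev, eventually_ge_atTop (c + 1)] with n h1 h2
    have h3 := h ((n - (c + 1)) / m) ((n - (c + 1)) % m)
    have h4 := Nat.div_add_mod' (n - (c + 1)) m
    rw [show c + (n - (c + 1)) / m * m + 1 + (n - (c + 1)) % m = n by omega] at h3
    refine le_trans ?_ h3
    rw [← Real.exp_log (show 0 < w by linarith), ← Real.exp_nat_mul, Real.exp_le_exp, hlm]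
    have h5 : n ≤ (n - (c + 1)) / m * m + (c + m + 1) := by
      have := Nat.mod_lt (n - (c + 1)) hm; omega
    have h6 : (n : ℝ) ≤ ((n - (c + 1)) / m : ℕ) * (m : ℝ) + (c + m + 1) := by exact_mod_cast h5
    rw [div_le_iff₀ (by linarith)] at h1
    nlinarith
  rw [← Real.exp_log (show 0 < w by linarith), Real.exp_le_exp, hlm]
  exact mul_le_mul_of_nonneg_right key hm'.le

end Pool.Agent.P.MP_86995c_pr
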