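import Pool.Agent.P.MP_86995c_pr.Stretch

/-!
Merging two loops through the empty shell around a box of a stretched configuration.
-/

set_option autoImplicit false
open Classical Set

namespace Pool.Agent.P.MP_86995c_pr

variable {d : ℕ}

theorem latOn_mem {S : Set (Pt d)} {r y : Pt d} (h : (latOn S).Reachable r y) (hr : r ∈ S) :
    y ∈ S :=
  reach_induction h (Q := fun y => y ∈ S) hr fun _ _ _ _ h => h.2.2

theorem latOn_mono {S T : Set (Pt d)} (h : S ⊆ T) : latOn S ≤ latOn T :=
  fun _ _ hxy => ⟨hxy.1, h hxy.2.1, h hxy.2.2⟩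

theorem latOn_line {S : Set (Pt d)} (y : Pt d) (k : Fin d) (a : ℤ) (ha : a ≤ y k)
    (h : ∀ t, a ≤ t → t ≤ y k → Function.update y k t ∈ S) :
    (latOn S).Reachable (Function.update y k a) y := by
  have : ∀ t, a ≤ t → t ≤ y k → (latOn S).Reachable (Function.update y k a)
      (Function.update y k t) := by
    intro t ht
    induction t, ht using Int.leInduction with
    | base => intro _; rfl
    | succ t ht ih =>
      intro h2
      refine (ih (by omega)).trans (SimpleGraph.Adj.reachable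
        ⟨⟨k, by simp, fun j hj => by simp [Function.update_of_ne hj]⟩, h t ht (by omega),
          h (t + 1) (by omega) h2⟩)
  have := this (y k) ha le_rfl
  rwa [Function.update_eq_self] at this

/-- the surface of a box is connected in dimension at least two -/
theorem surface_reach (hd : 2 ≤ d) (lo hi : Pt d) {y : Pt d}
    (hy : y ∈ {y : Pt d | (∀ k, lo k ≤ y k ∧ y k ≤ hi k) ∧ ∃ k, y k = lo k ∨ y k = hi k}) :
    (latOn {y : Pt d | (∀ k, lo k ≤ y k ∧ y k ≤ hi k) ∧ ∃ k, y k = lo k ∨ y k = hi k}).Reachable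
      lo y := by
  set S := {y : Pt d | (∀ k, lo k ≤ y k ∧ y k ≤ hi k) ∧ ∃ k, y k = lo k ∨ y k = hi k} with hS
  obtain ⟨h1, i, h2⟩ := hy
  have step : ∀ (u : Pt d) (k j : Fin d), j ≠ k → (∀ k, lo k ≤ u k ∧ u k ≤ hi k) →
      (u j = lo j ∨ u j = hi j) → (latOn S).Reachable (Function.update u k (lo k)) u := by
    intro u k j hj hu huj
    refine latOn_line u k (lo k) (hu k).1 fun t h1 h2 => ⟨fun m => ?_, j, ?_⟩
    · by_cases hm : m = k
      · subst hm; simp only [Function.update_self]; have := hu m; omega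
      · rw [Function.update_of_ne hm]; exact hu m
    · rw [Function.update_of_ne hj]; exact huj
  have key : ∀ s : Finset (Fin d), i ∉ s →
      (latOn S).Reachable (fun k => if k ∈ s then lo k else y k) y := by
    intro s
    induction s using Finset.induction_on with
    | empty => intro _; simp
    | insert k s hk ih =>
      intro hi'
      rw [Finset.mem_insert, not_or] at hi'
      refine SimpleGraph.Reachable.trans ?_ (ih hi'.2)
      have := step (fun k => if k ∈ s then lo k else y k) k i hi'.1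
        (fun m => by have := h1 m; split_ifs <;> omega) (by simpa [hi'.2] using h2)
      convert this using 1
      funext m
      by_cases hm : m = k
      · subst hm; simp
      · simp [Function.update_of_ne hm, hm]
  obtain ⟨j, hj⟩ : ∃ j : Fin d, j ≠ i := by
    have : Nontrivial (Fin d) := Fin.nontrivial_iff_two_le.2 hd
    exact exists_ne i
  refine SimpleGraph.Reachable.trans ?_ (key (Finset.univ.erase i) (by simp))
  have := step (fun k => if k ∈ Finset.univ.erase i then lo k else y k) i j hj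
    (fun m => by have := h1 m; split_ifs <;> omega) (by simp [hj])
  convert this using 1
  funext m
  by_cases hm : m = i
  · subst hm; simp
  · simp [hm]

namespace Grid
variable (g : Grid)

def ext (r : ℤ) (q : Pt d) : Set (Pt d) :=
  {y | ∀ k, g.al (q k) - r ≤ y k ∧ y k < g.al (q k) + g.l + r}

def shell (q : Pt d) : Set (Pt d) := g.ext 2 q \ g.ext 0 q

theorem ph_box (t : ℤ) : g.al (g.bq t) ≤ g.ph t ∧ g.ph t < g.al (g.bq t) + g.l := by
  have := g.lo_le t
  unfold al ph; omega

theorem al_lt {q q' : ℤ} (h : q < q') : g.al q + g.l + 4 ≤ g.al q' := by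
  have := g.lo_lt h
  unfold al; omega

theorem al_eq {q q' y : ℤ} (h1 : g.al q - 2 ≤ y ∧ y < g.al q + g.l + 2)
    (h2 : g.al q' - 2 ≤ y ∧ y < g.al q' + g.l + 2) : q = q' := by
  rcases lt_trichotomy q q' with h | h | h
  · have := g.al_lt h; omega
  · exact h
  · have := g.al_lt h; omega

theorem ext_eq {q q' y : Pt d} (h1 : y ∈ g.ext 2 q) (h2 : y ∈ g.ext 2 q') : q = q' :=
  funext fun k => g.al_eq (h1 k) (h2 k)

theorem Ph_mem (x : Pt d) : g.Ph x ∈ g.ext 0 (g.box x) := fun k => by
  have := g.ph_box (x k)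
  simp only [Ph, box]; omega

theorem ext_mono {r r' : ℤ} (h : r ≤ r') (q : Pt d) : g.ext r q ⊆ g.ext r' q := fun y hy k => by
  have := hy k; omega

theorem Ph_not_shell (x q : Pt d) : g.Ph x ∉ g.shell q := fun h => by
  have := g.ext_eq h.1 (g.ext_mono (by norm_num) _ (g.Ph_mem x))
  subst this
  exact h.2 (g.Ph_mem x)

theorem ext_card (q : Pt d) : (g.ext 2 q).Finite ∧ (g.ext 2 q).ncard = (g.l + 4).toNat ^ d := by
  have : g.ext 2 q = ↑(Fintype.piFinset fun k => Finset.Ico (g.al (q k) - 2)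
      (g.al (q k) + g.l + 2)) := by
    ext y; simp [ext]
  rw [this]
  refine ⟨Finset.finite_toSet _, ?_⟩
  rw [ncard_coe_finset, Fintype.card_piFinset]
  simp only [Int.card_Ico, Finset.prod_const, Finset.card_univ, Fintype.card_fin,
    show ∀ k, g.al (q k) + g.l + 2 - (g.al (q k) - 2) = g.l + 4 from fun k => by ring]

def rho (q y : Pt d) : Pt d := fun k => max (g.al (q k) - 1) (min (y k) (g.al (q k) + g.l))

theorem rho_mem {q y : Pt d} (hy : y ∈ g.ext 2 q \ g.ext 1 q) :
    g.rho q y ∈ g.ext 1 q \ g.ext 0 q := by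
  have := g.pos
  refine ⟨fun k => by simp only [rho]; omega, fun h => hy.2 fun k => ?_⟩
  have := h k
  simp only [rho] at this
  omega

theorem rho_adj (q : Pt d) {y y' : Pt d} (h : (lat d).Adj y y') :
    g.rho q y = g.rho q y' ∨ (lat d).Adj (g.rho q y) (g.rho q y') := by
  obtain ⟨i, h1, h2⟩ := h
  have h3 : ∀ k, k ≠ i → g.rho q y' k = g.rho q y k := fun k hk => by simp only [rho, h2 k hk]
  by_cases e : g.rho q y' i = g.rho q y i
  · left; funext k
    by_cases hk : k = i
    · subst hk; exact e.symm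
    · exact (h3 k hk).symm
  · right
    refine ⟨i, ?_, h3⟩
    simp only [rho] at e ⊢
    omega

theorem S2_reach (hd : 2 ≤ d) {q y y' : Pt d} (hy : y ∈ g.ext 2 q \ g.ext 1 q)
    (hy' : y' ∈ g.ext 2 q \ g.ext 1 q) : (latOn (g.ext 2 q \ g.ext 1 q)).Reachable y y' := by
  have e : g.ext 2 q \ g.ext 1 q = {y : Pt d | (∀ k, (fun k => g.al (q k) - 2) k ≤ y k ∧
      y k ≤ (fun k => g.al (q k) + g.l + 1) k) ∧
      ∃ k, y k = (fun k => g.al (q k) - 2) k ∨ y k = (fun k => g.al (q k) + g.l + 1) k} := by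
    ext y
    simp only [ext, Set.mem_sdiff, mem_ofPred_eq, not_forall]
    constructor
    · rintro ⟨h1, k, h2⟩
      exact ⟨fun k => by have := h1 k; omega, k, by have := h1 k; omega⟩
    · rintro ⟨h1, k, h2⟩
      exact ⟨fun k => by have := h1 k; omega, k, by have := h1 k; omega⟩
  rw [e] at hy hy' ⊢
  exact (surface_reach hd _ _ hy).symm.trans (surface_reach hd _ _ hy')

def Exit (G : SimpleGraph (Pt d)) (q x a : Pt d) : Prop :=
  G.Adj x a ∧ g.box x = q ∧ g.box a ≠ q

theorem exit_facts {G : SimpleGraph (Pt d)} (hG : G ≤ lat d) {q x a : Pt d} (h : g.Exit G q x a) :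
    (g.str G).Adj (g.Ph x) (g.Ph x + (a - x)) ∧
    (g.str G).Adj (g.Ph x + (a - x)) (g.Ph x + (a - x) + (a - x)) ∧
    g.Ph x + (a - x) ∈ g.ext 1 q \ g.ext 0 q ∧
    g.Ph x + (a - x) + (a - x) ∈ g.ext 2 q \ g.ext 1 q ∧
    g.rho q (g.Ph x + (a - x) + (a - x)) = g.Ph x + (a - x) ∧
    ∀ y ∈ g.ext 2 q \ g.ext 1 q, g.rho q y = g.Ph x + (a - x) →
      y = g.Ph x + (a - x) + (a - x) := by
  obtain ⟨h1, rfl, h3⟩ := h
  obtain ⟨i, e1, e2⟩ := hG h1
  have hp := g.pos
  have hb : ∀ k, g.al (g.box x k) ≤ g.ph (x k) ∧ g.ph (x k) < g.al (g.box x k) + g.l :=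
    fun k => g.ph_box (x k)
  have hne : g.bq (a i) ≠ g.bq (x i) := fun e => h3 (funext fun k => by
    by_cases hk : k = i
    · subst hk; exact e
    · simp only [box, e2 k hk])
  have pos : (a i = x i + 1 ∧ g.ph (x i) = g.al (g.box x i) + g.l - 1 ∧
        g.ph (a i) = g.ph (x i) + 5) ∨
      (x i = a i + 1 ∧ g.ph (x i) = g.al (g.box x i) ∧ g.ph (x i) = g.ph (a i) + 5) := by
    rcases e1 with e1 | e1
    · left
      rcases g.bq_succ (x i) with h | h
      · exact absurd (e1 ▸ h) hne
      · rw [← e1] at h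
        simp only [box, al, ph]; omega
    · right
      rcases g.bq_succ (a i) with h | h
      · exact absurd (e1 ▸ h.symm) hne
      · rw [← e1, ← g.lo_succ, ← h.1] at h
        have := g.bq_succ (a i)
        rw [← e1] at this
        simp only [box, al, ph]; omega
  have c1 : ∀ k, (g.Ph x + (a - x)) k = g.ph (x k) + (a k - x k) := fun k => rfl
  have c2 : ∀ k, (g.Ph x + (a - x) + (a - x)) k = g.ph (x k) + (a k - x k) + (a k - x k) :=
    fun k => rfl
  refine ⟨(g.str_adj_node hG x _).2 ⟨a, h1, rfl⟩, ?_, ⟨fun k => ?_, fun h => ?_⟩,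
    ⟨fun k => ?_, fun h => ?_⟩, funext fun k => ?_, fun y hy e => ?_⟩
  · rw [str_adj]
    rcases pos with ⟨p1, p2, p3⟩ | ⟨p1, p2, p3⟩
    · refine Or.inl ⟨x, i, g.ph (x i) + 1, ?_, by omega, by rw [← p1]; omega, funext fun k => ?_,
        funext fun k => ?_⟩
      · rw [← p1, ← eq_update_of e2]; exact h1
      · by_cases hk : k = i
        · subst hk; rw [c1, Function.update_self]; omega
        · rw [c1, Function.update_of_ne hk, e2 k hk]; simp [Ph]
      · by_cases hk : k = i
        · subst hk; rw [c2, Function.update_self]; omega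
        · rw [c2, Function.update_of_ne hk, e2 k hk]; simp [Ph]
    · have e3 : ∀ k, k ≠ i → x k = a k := fun k hk => (e2 k hk).symm
      refine Or.inr ⟨a, i, g.ph (x i) - 2, ?_, by omega, by rw [← p1]; omega, funext fun k => ?_,
        funext fun k => ?_⟩
      · rw [← p1, ← eq_update_of e3]; exact h1.symm
      · by_cases hk : k = i
        · subst hk; rw [c2, Function.update_self]; omega
        · rw [c2, Function.update_of_ne hk, e3 k hk]; simp [Ph]
      · by_cases hk : k = i
        · subst hk; rw [c1, Function.update_self]; omega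
        · rw [c1, Function.update_of_ne hk, e3 k hk]; simp [Ph]
  · have := hb k
    have := lat_adj_coord (hG h1) k
    rw [c1]; omega
  · have := h i
    rw [c1] at this; omega
  · have := hb k
    have := lat_adj_coord (hG h1) k
    rw [c2]; omega
  · have := h i
    rw [c2] at this; omega
  · have := hb k
    simp only [rho]
    rw [c1, c2]
    by_cases hk : k = i
    · subst hk; omega
    · have := e2 k hk; omega
  · have hk' : ∀ k, k ≠ i → y k = g.ph (x k) := fun k hk => by
      have h4 := congrFun e k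
      have := hb k
      have := e2 k hk
      simp only [rho] at h4
      rw [c1] at h4; omega
    have h4 := congrFun e i
    simp only [rho] at h4
    rw [c1] at h4
    have h5 := hy.1 i
    have h6 : ¬ (g.al (g.box x i) - 1 ≤ y i ∧ y i < g.al (g.box x i) + g.l + 1) := fun h =>
      hy.2 fun k => by
        by_cases hk : k = i
        · subst hk; exact h
        · have := hb k; have := hk' k hk; omega
    funext k
    rw [c2]
    by_cases hk : k = i
    · subst hk; omega
    · have := hk' k hk; have := e2 k hk; omega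

theorem shell_supp {G : SimpleGraph (Pt d)} {q y : Pt d} (hy : y ∈ (g.str G).support)
    (hs : y ∈ g.shell q) : ∃ x a, g.Exit G q x a ∧
      (y = g.Ph x + (a - x) ∨ y = g.Ph x + (a - x) + (a - x)) := by
  rcases g.str_supp hy with ⟨x, _, rfl⟩ | ⟨x, i, t, h1, h2, h3, rfl⟩
  · exact absurd hs (g.Ph_not_shell x q)
  have hp := g.pos
  have hk : ∀ k, k ≠ i → g.bq (x k) = q k := fun k hk => by
    have h4 := hs.1 k
    have := g.ph_box (x k)
    rw [Function.update_of_ne hk] at h4
    exact g.al_eq (y := g.ph (x k)) (by omega) h4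
  have hi := hs.1 i
  rw [Function.update_self] at hi
  have hb := g.bq_succ (x i)
  have hb' : g.bq (x i + 1) = g.bq (x i) + 1 ∧ x i + 1 = g.lo (g.bq (x i)) + g.l := by
    unfold ph at h2 h3; omega
  have p1 : g.ph (x i) = g.al (g.bq (x i)) + g.l - 1 := by unfold ph al; omega
  have p2 : g.ph (x i + 1) = g.ph (x i) + 5 := by unfold ph; omega
  have p3 : g.al (g.bq (x i + 1)) = g.ph (x i + 1) := by
    rw [hb'.1]; unfold al; rw [lo_succ]; unfold al at p1; omega
  set a := Function.update x i (x i + 1) with ha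
  rcases le_or_gt t (g.ph (x i) + 2) with ht | ht
  · have e : g.bq (x i) = q i := g.al_eq (y := t) (by omega) hi
    refine ⟨x, a, ⟨h1, funext fun k => ?_, fun h => ?_⟩, ?_⟩
    · by_cases h : k = i
      · subst h; exact e
      · exact hk k h
    · have := congrFun h i
      simp only [box, ha, Function.update_self] at this
      omega
    · obtain rfl | rfl : t = g.ph (x i) + 1 ∨ t = g.ph (x i) + 2 := by omega
      · left; funext k
        by_cases h : k = i
        · subst h; simp [ha, Ph]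
        · simp [ha, Function.update_of_ne h]
      · right; funext k
        by_cases h : k = i
        · subst h; simp [ha, Ph]; ring
        · simp [ha, Function.update_of_ne h]
  · have e : g.bq (x i + 1) = q i := g.al_eq (y := t) (by omega) hi
    refine ⟨a, x, ⟨h1.symm, funext fun k => ?_, fun h => ?_⟩, ?_⟩
    · by_cases h : k = i
      · subst h; simpa [box, ha] using e
      · simpa [box, ha, Function.update_of_ne h] using hk k h
    · have := congrFun h i
      simp only [box] at this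
      omega
    · obtain rfl | rfl : t = g.ph (x i + 1) - 1 ∨ t = g.ph (x i + 1) - 2 := by omega
      · left; funext k
        by_cases h : k = i
        · subst h; simp [ha, Ph]; ring
        · simp [ha, Function.update_of_ne h, Ph]
      · right; funext k
        by_cases h : k = i
        · subst h; simp [ha, Ph]; ring
        · simp [ha, Function.update_of_ne h, Ph]

theorem shell_merge (hd : 2 ≤ d) {G H : SimpleGraph (Pt d)} (hG : G ≤ lat d) (hH : Piece univ H)
    {q : Pt d} (hq : ∀ y ∈ g.ext 2 q, ∀ y', H.Adj y y' ↔ (g.str G).Adj y y')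
    {x a x' a' : Pt d} (e : g.Exit G q x a) (e' : g.Exit G q x' a')
    (hn : ¬ H.Reachable (g.Ph x) (g.Ph x')) :
    ∃ H' : SimpleGraph (Pt d), Piece univ H' ∧ (∀ x y, H.Reachable x y → H'.Reachable x y) ∧
      (∃ p ∈ H.support, ∃ p' ∈ H.support, ¬ H.Reachable p p' ∧ H'.Reachable p p') ∧
      H.support ⊆ H'.support ∧ H'.support ⊆ H.support ∪ g.shell q ∧
      (∀ x y, x ∉ g.shell q → (H'.Adj x y ↔ H.Adj x y)) ∧
      (∀ v ∈ H'.support, ∃ u ∈ H.support, H'.Reachable v u) := by
  set S₁ := g.ext 1 q \ g.ext 0 q with hS₁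
  set S₂ := g.ext 2 q \ g.ext 1 q with hS₂
  have s1 : S₁ ⊆ g.shell q := fun y hy => ⟨g.ext_mono (by norm_num) _ hy.1, hy.2⟩
  have s2 : S₂ ⊆ g.shell q := fun y hy => ⟨hy.1, fun h => hy.2 (g.ext_mono (by norm_num) _ h)⟩
  have d12 : Disjoint S₁ S₂ := disjoint_left.2 fun y h1 h2 => h2.2 h1.1
  have supp : ∀ y ∈ g.shell q, y ∈ H.support → y ∈ (g.str G).support := fun y hy h => by
    obtain ⟨w, hw⟩ := mem_supp.1 h
    exact mem_supp.2 ⟨w, (hq y hy.1 w).1 hw⟩
  have ex : ∀ x a, g.Exit G q x a → g.Ph x + (a - x) + (a - x) ∈ S₂ ∩ H.support ∧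
      H.Reachable (g.Ph x) (g.Ph x + (a - x) + (a - x)) := by
    intro x a e
    obtain ⟨f1, f2, f3, f4, -, -⟩ := g.exit_facts hG e
    have a1 := (hq _ (s1 f3).1 _).2 f1.symm
    have a2 := (hq _ (s1 f3).1 _).2 f2
    exact ⟨⟨f4, mem_supp.2 ⟨_, a2.symm⟩⟩, a1.symm.reachable.trans a2.reachable⟩
  have occ2 : ∀ r ∈ S₂ ∩ H.support, H.Adj (g.rho q r) r := by
    intro r hr
    obtain ⟨x, a, e, h⟩ := g.shell_supp (supp r (s2 hr.1) hr.2) (s2 hr.1)
    obtain ⟨f1, f2, f3, f4, f5, -⟩ := g.exit_facts hG e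
    rcases h with rfl | rfl
    · exact absurd hr.1 (disjoint_left.1 d12 f3)
    · rw [f5]; exact (hq _ (s1 f3).1 _).2 f2
  have occ1 : ∀ b ∈ S₂, g.rho q b ∈ H.support → b ∈ H.support := by
    intro b hb h
    have hr := g.rho_mem hb
    obtain ⟨x, a, e, h'⟩ := g.shell_supp (supp _ (s1 hr) h) (s1 hr)
    obtain ⟨f1, f2, f3, f4, f5, f6⟩ := g.exit_facts hG e
    rcases h' with h' | h'
    · rw [f6 b hb h']; exact (ex x a e).1.2
    · exact absurd (h' ▸ f4) (disjoint_left.1 d12 hr)
  obtain ⟨m1, r1⟩ := ex x a e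
  obtain ⟨m2, r2⟩ := ex x' a' e'
  set p := g.Ph x + (a - x) + (a - x)
  set p' := g.Ph x' + (a' - x') + (a' - x')
  have hpp : ¬ H.Reachable p p' := fun h => hn (r1.trans (h.trans r2.symm))
  have found : ∃ r ∈ S₂ ∩ H.support, ∃ r' ∈ S₂ ∩ H.support, ¬ H.Reachable r r' ∧
      (latOn ((S₂ \ H.support) ∪ {r, r'})).Reachable r r' := by
    by_contra hcon
    have key := reach_induction (g.S2_reach hd m1.1 m2.1)
      (Q := fun y => ∃ r ∈ S₂ ∩ H.support, H.Reachable p r ∧
        (latOn ((S₂ \ H.support) ∪ {r})).Reachable r y)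
      ⟨p, m1, SimpleGraph.Reachable.refl _, SimpleGraph.Reachable.refl _⟩ ?_
    · obtain ⟨r, _, h1, h2⟩ := key
      rcases latOn_mem h2 (Or.inr rfl) with h | h
      · exact h.2 m2.2
      · exact hpp (by rw [mem_singleton_iff.1 h]; exact h1)
    · rintro b c - ⟨r, hr, h1, h2⟩ hbc
      have hb := latOn_mem h2 (Or.inr rfl)
      by_cases hc : c ∈ H.support
      · by_cases hpc : H.Reachable p c
        · exact ⟨c, ⟨hbc.2.2, hc⟩, hpc, SimpleGraph.Reachable.refl _⟩
        · have sub : (S₂ \ H.support) ∪ {r} ⊆ (S₂ \ H.support) ∪ {r, c} :=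
            union_subset_union_right _ (by simp)
          exact absurd ⟨r, hr, c, ⟨hbc.2.2, hc⟩, fun h => hpc (h1.trans h),
            (h2.mono (latOn_mono sub)).trans (SimpleGraph.Adj.reachable
              ⟨hbc.1, sub hb, Or.inr (by simp)⟩)⟩ hcon
      · exact ⟨r, hr, h1, h2.trans (SimpleGraph.Adj.reachable
          ⟨hbc.1, hb, Or.inl ⟨hbc.2.2, hc⟩⟩)⟩
  obtain ⟨r, hr, r', hr', hn', hw⟩ := found
  have a1 := occ2 r hr
  have a2 := occ2 r' hr'
  have T2 : (S₂ \ H.support) ∪ {r, r'} ⊆ S₂ := by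
    rintro y (hy | rfl | rfl)
    exacts [hy.1, hr.1, hr'.1]
  have T1 : (S₁ \ H.support) ∪ {g.rho q r, g.rho q r'} ⊆ S₁ := by
    rintro y (hy | rfl | rfl)
    exacts [hy.1, g.rho_mem hr.1, g.rho_mem hr'.1]
  have mapS : ∀ b ∈ (S₂ \ H.support) ∪ {r, r'},
      g.rho q b ∈ (S₁ \ H.support) ∪ {g.rho q r, g.rho q r'} := by
    rintro b (hb | rfl | rfl)
    · exact Or.inl ⟨g.rho_mem hb.1, fun h => hb.2 (occ1 b hb.1 h)⟩
    · exact Or.inr (Or.inl rfl)
    · exact Or.inr (Or.inr rfl)
  have hw1 : (latOn ((S₁ \ H.support) ∪ {g.rho q r, g.rho q r'})).Reachable (g.rho q r)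
      (g.rho q r') := by
    refine reach_induction hw (Q := fun y => (latOn ((S₁ \ H.support) ∪
      {g.rho q r, g.rho q r'})).Reachable (g.rho q r) (g.rho q y))
      (SimpleGraph.Reachable.refl _) fun b c _ ih hbc => ?_
    rcases g.rho_adj q hbc.1 with h | h
    · exact h ▸ ih
    · exact ih.trans (SimpleGraph.Adj.reachable ⟨h, mapS b hbc.2.1, mapS c hbc.2.2⟩)
  have hn1 : ¬ H.Reachable (g.rho q r) (g.rho q r') := fun h =>
    hn' (a1.symm.reachable.trans (h.trans a2.reachable))
  obtain ⟨H', k1, k2, k3, k4, k5, k6, k7⟩ := merge hH a1 a2 hn1 (d12.mono T1 T2) hw1 hw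
    (fun y hy => hy.1.resolve_left fun h => h.2 hy.2)
    (fun y hy => hy.1.resolve_left fun h => h.2 hy.2)
  have sub : ((S₁ \ H.support) ∪ {g.rho q r, g.rho q r'}) ∪ ((S₂ \ H.support) ∪ {r, r'}) ⊆
      g.shell q := union_subset (T1.trans s1) (T2.trans s2)
  exact ⟨H', k1, k2, ⟨_, mem_supp.2 ⟨_, a1⟩, _, mem_supp.2 ⟨_, a2⟩, hn1, k3⟩, k4,
    k5.trans (union_subset_union_right _ sub), fun x y hx => k6 x y fun h => hx (sub h), k7⟩

end Grid

end Pool.Agent.P.MP_86995c_pr
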