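import Pool.Agent.P.MP_86995c_pr.Merge

/-!
Stretching a configuration: four empty layers are inserted along a grid of hyperplanes.
-/

set_option autoImplicit false
open Classical Set

namespace Pool.Agent.P.MP_86995c_pr

variable {d : ℕ}

/-- grid data: spacing l and shift z -/
structure Grid where
  l : ℤ
  z : ℤ
  pos : 0 < l

namespace Grid
variable (g : Grid)

def bq (t : ℤ) : ℤ := (t - g.z) / g.l
def lo (q : ℤ) : ℤ := g.z + q * g.l
def ph (t : ℤ) : ℤ := t + 4 * g.bq t
def al (q : ℤ) : ℤ := g.lo q + 4 * q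

theorem lo_le (t : ℤ) : g.lo (g.bq t) ≤ t ∧ t < g.lo (g.bq t) + g.l := by
  have h1 := Int.emod_add_ediv_mul (t - g.z) g.l
  have h2 := Int.emod_nonneg (t - g.z) g.pos.ne'
  have h3 := Int.emod_lt_of_pos (t - g.z) g.pos
  unfold lo bq
  omega

theorem lo_lt {q q' : ℤ} (h : q < q') : g.lo q + g.l ≤ g.lo q' := by
  unfold lo
  have := g.pos
  nlinarith

theorem lo_succ (q : ℤ) : g.lo (q + 1) = g.lo q + g.l := by unfold lo; ring

theorem bq_eq {t q : ℤ} (h1 : g.lo q ≤ t) (h2 : t < g.lo q + g.l) : g.bq t = q := by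
  have h := g.lo_le t
  rcases lt_trichotomy (g.bq t) q with h' | h' | h'
  · have := g.lo_lt h'; omega
  · exact h'
  · have := g.lo_lt h'; omega

theorem bq_mono {s t : ℤ} (h : s ≤ t) : g.bq s ≤ g.bq t := by
  by_contra h'
  have := g.lo_lt (not_le.1 h')
  have := g.lo_le s
  have := g.lo_le t
  omega

theorem bq_succ (t : ℤ) : g.bq (t + 1) = g.bq t ∨
    (g.bq (t + 1) = g.bq t + 1 ∧ t + 1 = g.lo (g.bq t) + g.l) := by
  have h := g.lo_le t
  have := g.pos
  rcases lt_or_ge (t + 1) (g.lo (g.bq t) + g.l) with h' | h'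
  · exact Or.inl (g.bq_eq (by omega) h')
  · exact Or.inr ⟨g.bq_eq (by rw [lo_succ]; omega) (by rw [lo_succ]; omega), by omega⟩

theorem ph_lt {s t : ℤ} (h : s < t) : g.ph s < g.ph t := by
  have := g.bq_mono h.le
  unfold ph; omega

theorem ph_inj {s t : ℤ} (h : g.ph s = g.ph t) : s = t := by
  rcases lt_trichotomy s t with h' | h' | h'
  · have := g.ph_lt h'; omega
  · exact h'
  · have := g.ph_lt h'; omega

theorem ph_lt_iff {s t : ℤ} : g.ph s < g.ph t ↔ s < t := by
  refine ⟨fun h => ?_, g.ph_lt⟩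
  by_contra h'
  rcases (not_lt.1 h').eq_or_lt with e | e
  · rw [e] at h; omega
  · have := g.ph_lt e; omega

theorem ph_le_iff {s t : ℤ} : g.ph s ≤ g.ph t ↔ s ≤ t := by
  rw [← not_lt, ph_lt_iff, not_lt]

def Ph (x : Pt d) : Pt d := fun k => g.ph (x k)
def box (x : Pt d) : Pt d := fun k => g.bq (x k)

theorem Ph_inj : Function.Injective (g.Ph : Pt d → Pt d) := fun _ _ h =>
  funext fun k => g.ph_inj (congrFun h k)

theorem Ph_update (x : Pt d) (i : Fin d) (t : ℤ) :
    g.Ph (Function.update x i t) = Function.update (g.Ph x) i (g.ph t) := by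
  funext k
  by_cases h : k = i
  · subst h; simp [Ph]
  · simp [Ph, Function.update_of_ne h]

def srel (G : SimpleGraph (Pt d)) (y y' : Pt d) : Prop :=
  ∃ (x : Pt d) (i : Fin d) (t : ℤ), G.Adj x (Function.update x i (x i + 1)) ∧ g.ph (x i) ≤ t ∧
    t < g.ph (x i + 1) ∧ y = Function.update (g.Ph x) i t ∧
    y' = Function.update (g.Ph x) i (t + 1)

def str (G : SimpleGraph (Pt d)) : SimpleGraph (Pt d) := SimpleGraph.fromRel (g.srel G)

theorem srel_lat {G : SimpleGraph (Pt d)} {y y' : Pt d} (h : g.srel G y y') : (lat d).Adj y y' := by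
  obtain ⟨x, i, t, _, _, _, rfl, rfl⟩ := h
  exact ⟨i, by simp, fun k hk => by simp [Function.update_of_ne hk]⟩

theorem str_adj {G : SimpleGraph (Pt d)} {y y' : Pt d} :
    (g.str G).Adj y y' ↔ g.srel G y y' ∨ g.srel G y' y := by
  rw [str, SimpleGraph.fromRel_adj]
  refine and_iff_right_of_imp ?_
  rintro (h | h)
  · exact (g.srel_lat h).ne
  · exact (g.srel_lat h).ne.symm

theorem str_le (G : SimpleGraph (Pt d)) : g.str G ≤ lat d := fun _ _ h => by
  rcases g.str_adj.1 h with h | h
  · exact g.srel_lat h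
  · exact (g.srel_lat h).symm

theorem str_adj_node {G : SimpleGraph (Pt d)} (hG : G ≤ lat d) (x y' : Pt d) :
    (g.str G).Adj (g.Ph x) y' ↔ ∃ a, G.Adj x a ∧ y' = g.Ph x + (a - x) := by
  rw [str_adj]
  constructor
  · rintro (⟨x', i, t, h1, h2, h3, h4, rfl⟩ | ⟨x', i, t, h1, h2, h3, rfl, h4⟩)
    · have e1 : g.ph (x i) = t := by simpa [Ph] using congrFun h4 i
      have e2 : x = x' := by
        funext k
        by_cases hk : k = i
        · subst hk
          rw [← e1, ph_le_iff] at h2
          rw [← e1, ph_lt_iff] at h3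
          omega
        · exact g.ph_inj (by simpa [Ph, Function.update_of_ne hk] using congrFun h4 k)
      subst e2
      refine ⟨_, h1, funext fun k => ?_⟩
      by_cases hk : k = i
      · subst hk; simp [Ph, e1]
      · simp [Function.update_of_ne hk]
    · have e1 : g.ph (x i) = t + 1 := by simpa [Ph] using congrFun h4 i
      have e3 : x i = x' i + 1 := by
        have a1 : g.ph (x' i) < g.ph (x i) := by omega
        have a2 : g.ph (x i) ≤ g.ph (x' i + 1) := by omega
        rw [ph_lt_iff] at a1; rw [ph_le_iff] at a2; omega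
      have e4 : ∀ k, k ≠ i → x k = x' k := fun k hk =>
        g.ph_inj (by simpa [Ph, Function.update_of_ne hk] using congrFun h4 k)
      have e2 : x = Function.update x' i (x' i + 1) := by
        rw [eq_update_of e4, e3]
      refine ⟨x', e2 ▸ h1.symm, funext fun k => ?_⟩
      by_cases hk : k = i
      · subst hk; simp only [Function.update_self, Pi.add_apply, Pi.sub_apply, Ph]; omega
      · simp [Function.update_of_ne hk, Ph, e4 k hk]
  · rintro ⟨a, ha, rfl⟩
    obtain ⟨i, h1, h2⟩ := hG ha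
    rcases h1 with h1 | h1
    · left
      refine ⟨x, i, g.ph (x i), ?_, le_rfl, g.ph_lt (by omega), ?_, funext fun k => ?_⟩
      · rw [← h1, ← eq_update_of h2]; exact ha
      · exact (Function.update_eq_self i (g.Ph x)).symm
      · by_cases hk : k = i
        · subst hk; simp [Ph, h1]
        · simp [Function.update_of_ne hk, h2 k hk]
    · right
      have h3 : ∀ k, k ≠ i → x k = a k := fun k hk => (h2 k hk).symm
      have := g.ph_lt (show a i < x i by omega)
      refine ⟨a, i, g.ph (x i) - 1, ?_, by omega, by rw [← h1]; omega, funext fun k => ?_,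
        funext fun k => ?_⟩
      · rw [← h1, ← eq_update_of h3]; exact ha.symm
      · by_cases hk : k = i
        · subst hk; simp only [Function.update_self, Pi.add_apply, Pi.sub_apply, Ph]; omega
        · simp [Function.update_of_ne hk, h2 k hk, Ph]
      · by_cases hk : k = i
        · subst hk; simp [Ph]
        · simp [Function.update_of_ne hk, h2 k hk, Ph]

theorem not_ph {s t u : ℤ} (h1 : g.ph s < t) (h2 : t < g.ph (s + 1)) : t ≠ g.ph u := by
  rintro rfl
  rw [ph_lt_iff] at h1 h2
  omega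

theorem str_adj_mid {G : SimpleGraph (Pt d)} {x : Pt d} {i : Fin d} {t : ℤ}
    (h1 : G.Adj x (Function.update x i (x i + 1))) (h2 : g.ph (x i) < t)
    (h3 : t < g.ph (x i + 1)) (y' : Pt d) :
    (g.str G).Adj (Function.update (g.Ph x) i t) y' ↔
      y' = Function.update (g.Ph x) i (t - 1) ∨ y' = Function.update (g.Ph x) i (t + 1) := by
  have key : ∀ (x' : Pt d) (j : Fin d) (s : ℤ),
      Function.update (g.Ph x) i t = Function.update (g.Ph x') j s →
      j = i ∧ s = t ∧ ∀ u, Function.update (g.Ph x') i u = Function.update (g.Ph x) i u := by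
    intro x' j s e
    have hj : j = i := by
      by_contra hj
      have := congrFun e i
      rw [Function.update_self, Function.update_of_ne (Ne.symm hj)] at this
      exact g.not_ph h2 h3 this
    subst hj
    refine ⟨rfl, by simpa using (congrFun e j).symm, fun u => ?_⟩
    have := congrArg (fun f => Function.update f j u) e
    simpa using this.symm
  rw [str_adj]
  constructor
  · rintro (⟨x', j, s, _, _, _, h4, rfl⟩ | ⟨x', j, s, _, _, _, rfl, h4⟩)
    · obtain ⟨rfl, rfl, e⟩ := key x' j s h4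
      exact Or.inr (e _)
    · obtain ⟨rfl, e', e⟩ := key x' j _ h4
      left; rw [e, ← e']; simp
  · rintro (rfl | rfl)
    · exact Or.inr ⟨x, i, t - 1, h1, by omega, by omega, rfl, by simp⟩
    · exact Or.inl ⟨x, i, t, h1, h2.le, h3, rfl, rfl⟩

theorem str_supp {G : SimpleGraph (Pt d)} {y : Pt d} (hy : y ∈ (g.str G).support) :
    (∃ x ∈ G.support, y = g.Ph x) ∨ ∃ (x : Pt d) (i : Fin d) (t : ℤ),
      G.Adj x (Function.update x i (x i + 1)) ∧ g.ph (x i) < t ∧ t < g.ph (x i + 1) ∧
      y = Function.update (g.Ph x) i t := by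
  obtain ⟨y', h⟩ := mem_supp.1 hy
  rcases g.str_adj.1 h with ⟨x, i, t, h1, h2, h3, rfl, _⟩ | ⟨x, i, t, h1, h2, h3, _, rfl⟩
  · rcases h2.eq_or_lt with rfl | h2
    · exact Or.inl ⟨x, mem_supp.2 ⟨_, h1⟩, Function.update_eq_self i (g.Ph x)⟩
    · exact Or.inr ⟨x, i, t, h1, h2, h3, rfl⟩
  · rcases (show t + 1 ≤ g.ph (x i + 1) by omega).eq_or_lt with e | e
    · exact Or.inl ⟨_, mem_supp.2 ⟨_, h1.symm⟩, by rw [Ph_update, e]⟩
    · exact Or.inr ⟨x, i, t + 1, h1, by omega, e, rfl⟩

theorem str_reach_line {G : SimpleGraph (Pt d)} {x : Pt d} {i : Fin d}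
    (h1 : G.Adj x (Function.update x i (x i + 1))) {t : ℤ} (h2 : g.ph (x i) ≤ t)
    (h3 : t ≤ g.ph (x i + 1)) :
    (g.str G).Reachable (g.Ph x) (Function.update (g.Ph x) i t) := by
  induction t, h2 using Int.leInduction with
  | base => rw [show Function.update (g.Ph x) i (g.ph (x i)) = g.Ph x from
      Function.update_eq_self i (g.Ph x)]
  | succ t ht ih =>
    exact (ih (by omega)).trans (SimpleGraph.Adj.reachable
      (g.str_adj.2 (Or.inl ⟨x, i, t, h1, ht, by omega, rfl, rfl⟩)))

theorem str_reach {G : SimpleGraph (Pt d)} (hG : G ≤ lat d) {x y : Pt d} (h : G.Reachable x y) :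
    (g.str G).Reachable (g.Ph x) (g.Ph y) := by
  refine reach_induction h (Q := fun y => (g.str G).Reachable (g.Ph x) (g.Ph y))
    (SimpleGraph.Reachable.refl _) fun b c _ ih hbc => ih.trans ?_
  have key : ∀ b c : Pt d, G.Adj b c → ∀ i, c i = b i + 1 → (∀ k, k ≠ i → c k = b k) →
      (g.str G).Reachable (g.Ph b) (g.Ph c) := by
    intro b c hbc i h1 h2
    have e := eq_update_of h2
    rw [h1] at e
    have := g.str_reach_line (e ▸ hbc) (g.ph_lt (show b i < b i + 1 by omega)).le le_rfl
    rwa [← Ph_update, ← e] at this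
  obtain ⟨i, h1 | h1, h2⟩ := hG hbc
  · exact key b c hbc i h1 h2
  · exact (key c b hbc.symm i h1 fun k hk => (h2 k hk).symm).symm

theorem str_anch {G : SimpleGraph (Pt d)} (hG : G ≤ lat d) {X : Set (Pt d)} (hA : Anch X G) :
    Anch (g.Ph '' X) (g.str G) := by
  intro y hy
  rcases g.str_supp hy with ⟨x, hx, rfl⟩ | ⟨x, i, t, h1, h2, h3, rfl⟩
  · obtain ⟨u, hu, h⟩ := hA x hx
    exact ⟨_, mem_image_of_mem _ hu, g.str_reach hG h⟩
  · obtain ⟨u, hu, h⟩ := hA x (mem_supp.2 ⟨_, h1⟩)
    exact ⟨_, mem_image_of_mem _ hu,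
      (g.str_reach_line h1 h2.le h3.le).symm.trans (g.str_reach hG h)⟩

/-- adjacent pairs in different boxes -/
def crs (S : Set (Pt d)) : Set (Pt d × Pt d) := {p | p ∈ bondSet S ∧ g.box p.1 ≠ g.box p.2}

theorem crs_finite {S : Set (Pt d)} (hS : S.Finite) : (g.crs S).Finite :=
  (bondSet_finite hS).subset fun _ h => h.1

theorem str_supp_subset {G : SimpleGraph (Pt d)} (hG : G ≤ lat d) :
    (g.str G).support ⊆ g.Ph '' G.support ∪
      (fun p : (Pt d × Pt d) × ℤ => g.Ph p.1.1 + p.2 • (p.1.2 - p.1.1)) ''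
        (g.crs G.support ×ˢ Icc 1 4) := by
  intro y hy
  rcases g.str_supp hy with ⟨x, hx, rfl⟩ | ⟨x, i, t, h1, h2, h3, rfl⟩
  · exact Or.inl (mem_image_of_mem _ hx)
  · right
    have hb := g.bq_succ (x i)
    unfold ph at h2 h3
    refine ⟨((x, Function.update x i (x i + 1)), t - g.ph (x i)), ⟨⟨⟨mem_supp.2 ⟨_, h1⟩,
      mem_supp.2 ⟨_, h1.symm⟩, hG h1⟩, fun e => ?_⟩, ?_⟩, funext fun k => ?_⟩
    · have := congrFun e i
      simp only [box, Function.update_self] at this
      omega
    · simp only [mem_Icc, ph]; omega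
    · by_cases hk : k = i
      · subst hk; simp [Ph]
      · simp [Function.update_of_ne hk]

theorem str_piece {G : SimpleGraph (Pt d)} (hG : Piece univ G) : Piece univ (g.str G) ∧
    (g.str G).support.ncard ≤ G.support.ncard + 4 * (g.crs G.support).ncard := by
  have f1 := hG.fin.image g.Ph
  have f0 := (g.crs_finite hG.fin).prod (finite_Icc (1 : ℤ) 4)
  have f2 := f0.image (fun p : (Pt d × Pt d) × ℤ => g.Ph p.1.1 + p.2 • (p.1.2 - p.1.1))
  refine ⟨⟨g.str_le G, (f1.union f2).subset (g.str_supp_subset hG.le), fun y _ hy => ?_,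
    fun _ _ _ => Or.inl trivial⟩, ?_⟩
  · rcases g.str_supp hy with ⟨x, hx, rfl⟩ | ⟨x, i, t, h1, h2, h3, rfl⟩
    · obtain ⟨a, b, hab, e⟩ := hG.two x trivial hx
      refine ⟨g.Ph x + (a - x), g.Ph x + (b - x), fun h => hab (by simpa using h), fun w => ?_⟩
      rw [g.str_adj_node hG.le]
      simp only [e, or_and_right, exists_or, exists_eq_left]
    · refine ⟨_, _, fun h => ?_, g.str_adj_mid h1 h2 h3⟩
      have := congrFun h i
      simp only [Function.update_self] at this
      omega
  · refine (ncard_le_ncard (g.str_supp_subset hG.le) (f1.union f2)).trans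
      ((ncard_union_le _ _).trans (add_le_add (ncard_image_le hG.fin)
        ((ncard_image_le f0).trans ?_)))
    rw [ncard_prod, ← Finset.coe_Icc, ncard_coe_finset]
    simp [mul_comm]

end Grid

theorem exists_grid (l : ℕ) (hl : 0 < l) {S : Set (Pt d)} (hS : S.Finite) :
    ∃ z ∈ Finset.range l,
      l * ((Grid.mk l z (by exact_mod_cast hl)).crs S).ncard ≤ bonds S := by
  have hl' : (0 : ℤ) < l := by exact_mod_cast hl
  let C : ℕ → Finset (Pt d × Pt d) := fun z => ((Grid.mk l z hl').crs_finite hS).toFinset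
  have hdisj : (Finset.range l : Set ℕ).PairwiseDisjoint C := by
    intro z hz z' hz' hne
    rw [Function.onFun, Finset.disjoint_left]
    rintro ⟨x, y⟩ h1 h2
    simp only [C, Finite.mem_toFinset] at h1 h2
    simp only [Finset.coe_range, mem_Iio] at hz hz'
    obtain ⟨i, e1, e2⟩ := h1.1.2.2
    simp only at e1 e2
    have key : ∀ w : ℕ, (x, y) ∈ (Grid.mk l w hl').crs S → ∃ q : ℤ, max (x i) (y i) = w + q * l := by
      intro w hw
      set g := Grid.mk l w hl' with hg
      have hne : g.bq (x i) ≠ g.bq (y i) := fun e => hw.2 (funext fun k => by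
        by_cases hk : k = i
        · subst hk; exact e
        · simp only [Grid.box, e2 k hk])
      rcases e1 with e1 | e1
      · rcases g.bq_succ (x i) with h | h
        · exact absurd (e1 ▸ h.symm) hne
        · refine ⟨g.bq (x i) + 1, ?_⟩
          have h2 := h.2
          rw [← g.lo_succ] at h2
          rw [max_eq_right (by omega), e1, h2]; rfl
      · rcases g.bq_succ (y i) with h | h
        · exact absurd (e1 ▸ h) hne
        · refine ⟨g.bq (y i) + 1, ?_⟩
          have h2 := h.2
          rw [← g.lo_succ] at h2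
          rw [max_eq_left (by omega), e1, h2]; rfl
    obtain ⟨q, hq⟩ := key z h1
    obtain ⟨q', hq'⟩ := key z' h2
    have h3 : (z : ℤ) + q * l = z' + q' * l := hq.symm.trans hq'
    rcases lt_trichotomy q q' with h | h | h
    · have : (q + 1) * l ≤ q' * l := mul_le_mul_of_nonneg_right (by omega) hl'.le
      rw [add_mul] at this; omega
    · subst h; omega
    · have : (q' + 1) * l ≤ q * l := mul_le_mul_of_nonneg_right (by omega) hl'.le
      rw [add_mul] at this; omega
  have hsum : ∑ z ∈ Finset.range l, (C z).card ≤ bonds S := by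
    rw [← Finset.card_biUnion hdisj, bonds, ncard_eq_toFinset_card _ (bondSet_finite hS)]
    refine Finset.card_le_card fun p hp => ?_
    obtain ⟨z, _, hz⟩ := Finset.mem_biUnion.1 hp
    simp only [C, Finite.mem_toFinset] at hz ⊢
    exact hz.1
  obtain ⟨z, hz, h⟩ := Finset.exists_le_of_sum_le (s := Finset.range l)
    (f := fun z => l * (C z).card) (g := fun _ => bonds S) ⟨0, Finset.mem_range.2 hl⟩
    (by rw [← Finset.mul_sum]; simpa using Nat.mul_le_mul_left l hsum)
  exact ⟨z, hz, by rw [ncard_eq_toFinset_card _ (Grid.crs_finite _ hS)]; exact h⟩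

end Pool.Agent.P.MP_86995c_pr
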