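import Pool.Agent.P.MP_86995c_pr.Cut

/-!
The upper bound for the partition function of walks.
-/

set_option autoImplicit false
open Classical Set Filter

namespace Pool.Agent.P.MP_86995c_pr

variable {d : ℕ}

theorem exists_small {α : Type*} {B : Finset α} {S : Set α} {m : ℕ} (h : S ⊆ ↑B)
    (hm : S.ncard ≤ m) : ∃ T ∈ small B m, (↑T : Set α) = S := by
  have hf : S.Finite := B.finite_toSet.subset h
  refine ⟨hf.toFinset, mem_small.2 ⟨fun x hx => h (by simpa using hx), ?_⟩, by simp⟩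
  rwa [← ncard_eq_toFinset_card _ hf]

/-- the data and pieces obtained from cutting a walk -/
def CutData (n m : ℕ) (w : Fin (n + 1) → Pt d) (a b : Fin d × ℤ) (E : Finset (Pt d × Pt d))
    (T : Bool × Bool → Finset (Pt d × Pt d)) (N : Bool × Bool → ℕ)
    (G : Bool × Bool → SimpleGraph (Pt d)) : Prop :=
  (∀ r, Piece {x | reg a b x = r} (G r) ∧ cross {x | reg a b x = r} (G r) = ↑(T r) ∧
    ((G r).support ∩ {x | reg a b x = r}).ncard = N r ∧ Anch (Prod.snd '' (T r : Set (Pt d × Pt d))) (G r)) ∧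
  ∑ r, N r ≤ n + 1 ∧ (∀ x y, (pg (sq w) 0 n).Adj x y ↔ (x, y) ∈ E ∨ ∃ r, (G r).Adj x y) ∧
  bonds (range w) ≤ ∑ r, bonds ((G r).support ∩ {x | reg a b x = r}) + 3 * m

noncomputable def bx (d n : ℕ) : Finset (Pt d) :=
  Fintype.piFinset fun _ => Finset.Icc (-(n : ℤ)) n

theorem exists_cutData {n l m : ℕ} (hl : 0 < l) (hm : 2 * d * (n + 1) ≤ l * m)
    (hn : (l + 4) ^ d ≤ n) (hm' : 4 * d * (l + 4) ^ d ≤ m) {w : Fin (n + 1) → Pt d}
    (hw : w ∈ saw d n) :
    ∃ a b : Fin d × ℤ, a.2 ∈ Finset.Icc (-(n : ℤ)) n ∧ b.2 ∈ Finset.Icc (-(n : ℤ)) n ∧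
      ∃ E ∈ small (bx d n ×ˢ bx d n) m, ∃ T : Bool × Bool → Finset (Pt d × Pt d),
        (∀ r, T r ∈ small (bx d n ×ˢ bx d n) m) ∧ ∃ N G, CutData n m w a b E T N G := by
  obtain ⟨a, b, Co, ha, hb, c1, c2, c3, c4, c5, c6⟩ := exists_cut hl hm hn hw
  obtain ⟨hi, hadj, hbox, hr⟩ := saw_seq hw
  set P := pg (sq w) 0 n with hP
  have hPb : ∀ x y, P.Adj x y → (x, y) ∈ bondSet (range w) := by
    intro x y h
    rw [hr]
    obtain ⟨k, h1, h2, ⟨rfl, rfl⟩ | ⟨rfl, rfl⟩⟩ := (pg_adj hi).1 h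
    · exact ⟨⟨k, ⟨h1, h2.le⟩, rfl⟩, ⟨k + 1, ⟨by omega, h2⟩, rfl⟩, hadj k h2⟩
    · exact ⟨⟨k + 1, ⟨by omega, h2⟩, rfl⟩, ⟨k, ⟨h1, h2.le⟩, rfl⟩, (hadj k h2).symm⟩
  have hbx : bondSet (range w) ⊆ ↑(bx d n ×ˢ bx d n) := by
    have : ∀ x ∈ range w, x ∈ bx d n := by
      rw [hr]
      rintro _ ⟨k, hk, rfl⟩
      simp only [bx, Fintype.mem_piFinset, Finset.mem_Icc]
      exact hbox k hk.2
    intro p hp
    exact Finset.mem_coe.2 (Finset.mem_product.2 ⟨this _ hp.1, this _ hp.2.1⟩)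
  have hfP : P.support.Finite := (finite_range w).subset fun v hv => by
    obtain ⟨y, h⟩ := mem_supp.1 hv
    exact (hPb _ _ h).1
  have hfC : Co.Finite := (finite_range w).subset c1
  have hft : (range w \ Co).Finite := (finite_range w).subset sdiff_subset
  have hfc : {p | p ∈ bondSet (range w) ∧ reg a b p.1 ≠ reg a b p.2}.Finite :=
    (bondSet_finite (finite_range w)).subset fun _ h => h.1
  have hout : (outPairs (range w \ Co)).ncard ≤ m :=
    (outPairs_ncard hft).trans ((Nat.mul_le_mul_left _ c6).trans (by linarith))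
  have F := fun r : Bool × Bool => cut_facts (R := {x | reg a b x = r}) (Co := Co)
    (fun x y h => (hPb x y h).2.2) hfP c2
    (fun x hx y hy h => c3 x hx.2 y h (Eq.trans hy hx.1.symm)) c4
  obtain ⟨E, hE, eE⟩ := exists_small (B := bx d n ×ˢ bx d n) (m := m)
    (S := {p | P.Adj p.1 p.2 ∧ p.1 ∉ Co}) (fun p hp => hbx (hPb _ _ hp.1))
    ((ncard_le_ncard (fun p hp => show p ∈ outPairs (range w \ Co) from
      ⟨⟨(hPb _ _ hp.1).1, hp.2⟩, (hPb _ _ hp.1).2.2⟩) (outPairs_finite hft)).trans hout)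
  have hT := fun r : Bool × Bool => exists_small (B := bx d n ×ˢ bx d n) (m := m)
    (S := cross {x | reg a b x = r} (cutG P ({x | reg a b x = r} ∩ Co)))
    (fun p hp => hbx (hPb _ _ hp.1.1))
    ((ncard_le_ncard (fun p hp => show p ∈ {p | p ∈ bondSet (range w) ∧ reg a b p.1 ≠ reg a b p.2}
      from ⟨hPb _ _ hp.1.1, fun e => hp.2 (by
      rcases hp.1.2 with h | h
      · exact e.symm.trans h.1
      · exact h.1)⟩) hfc).trans c5)
  choose T hT eT using hT
  refine ⟨a, b, ha, hb, E, hE, T, hT, fun r => ({x | reg a b x = r} ∩ Co).ncard,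
    fun r => cutG P ({x | reg a b x = r} ∩ Co), fun r => ⟨(F r).1, (eT r).symm,
      by rw [(F r).2.1], by rw [eT r]; exact (F r).2.2⟩, ?_, fun x y => ?_, ?_⟩
  · have h1 := Finset.card_eq_sum_card_fiberwise (s := hfC.toFinset) (t := Finset.univ)
      (f := reg a b) fun _ _ => Finset.mem_univ _
    rw [← ncard_eq_toFinset_card _ hfC] at h1
    refine le_trans (le_of_eq ?_) (h1.ge.trans ((ncard_le_ncard c1 (finite_range w)).trans
      (ncard_range_le w)))
    refine Finset.sum_congr rfl fun r _ => ?_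
    rw [← ncard_coe_finset]
    refine congrArg ncard ?_
    ext x; simp [and_comm]
  · rw [← Finset.mem_coe, eE]
    constructor
    · intro h
      by_cases hx : x ∈ Co
      · exact Or.inr ⟨reg a b x, h, Or.inl ⟨rfl, hx⟩⟩
      · exact Or.inl ⟨h, hx⟩
    · rintro (h | ⟨r, h⟩) <;> exact h.1
  · simp only [(F _).2.1]
    have f1 : (⋃ r ∈ (Finset.univ : Finset (Bool × Bool)),
        bondSet ({x | reg a b x = r} ∩ Co)).Finite :=
      Finset.univ.finite_toSet.biUnion fun r _ => bondSet_finite (hfC.inter_of_right _)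
    have f2 := outPairs_finite hft
    have sub : bondSet (range w) ⊆ (⋃ r ∈ (Finset.univ : Finset (Bool × Bool)),
        bondSet ({x | reg a b x = r} ∩ Co)) ∪
        ({p | p ∈ bondSet (range w) ∧ reg a b p.1 ≠ reg a b p.2} ∪
        (outPairs (range w \ Co) ∪ Prod.swap '' outPairs (range w \ Co))) := by
      rintro ⟨x, y⟩ hp
      by_cases h1 : x ∈ Co
      swap
      · exact Or.inr (Or.inr (Or.inl ⟨⟨hp.1, h1⟩, hp.2.2⟩))
      by_cases h2 : y ∈ Co
      swap
      · exact Or.inr (Or.inr (Or.inr ⟨(y, x), ⟨⟨hp.2.1, h2⟩, hp.2.2.symm⟩, rfl⟩))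
      by_cases h3 : reg a b x = reg a b y
      · exact Or.inl (mem_iUnion₂.2 ⟨reg a b x, Finset.mem_univ _, ⟨rfl, h1⟩, ⟨h3.symm, h2⟩,
          hp.2.2⟩)
      · exact Or.inr (Or.inl ⟨hp, h3⟩)
    refine (ncard_le_ncard sub (f1.union (hfc.union (f2.union (f2.image _))))).trans
      ((ncard_union_le _ _).trans (add_le_add (Finset.set_ncard_biUnion_le _ _) ?_))
    have h1 := ncard_union_le {p | p ∈ bondSet (range w) ∧ reg a b p.1 ≠ reg a b p.2}
      (outPairs (range w \ Co) ∪ Prod.swap '' outPairs (range w \ Co))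
    have h2 := ncard_union_le (outPairs (range w \ Co)) (Prod.swap '' outPairs (range w \ Co))
    have h3 := ncard_image_le (f := Prod.swap) f2
    omega

theorem Z_upper (hd : 2 ≤ d) {γ K g C : ℝ} (hγ : 0 ≤ γ) (hK : 1 ≤ K) (hg : 0 ≤ g) (hC : 0 ≤ C)
    (hB : Bd γ K g C (univ : Set (Pt d))) {n l m : ℕ} (hl : 0 < l)
    (hm : 2 * d * (n + 1) ≤ l * m) (hn : (l + 4) ^ d ≤ n) (hm' : 4 * d * (l + 4) ^ d ≤ m) :
    Z d γ n ≤ ((d * (2 * n + 1)) ^ 2 * (((2 * n + 1) ^ d) ^ 2 + 1) ^ (5 * m) * (n + 2) ^ 4 : ℕ) *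
      (K ^ 4 * Real.exp (g * (n + 1) + (4 * C + 3 * γ) * m)) := by
  set Wl : Finset (Fin d × ℤ) := Finset.univ ×ˢ Finset.Icc (-(n : ℤ)) n with hWl
  set Sm := small (bx d n ×ˢ bx d n) m with hSm
  have cI : (Finset.Icc (-(n : ℤ)) n).card = 2 * n + 1 := by rw [Int.card_Icc]; omega
  have cW : Wl.card = d * (2 * n + 1) := by simp [hWl, cI, -Int.card_Icc]
  have cS : Sm.card ≤ (((2 * n + 1) ^ d) ^ 2 + 1) ^ m := by
    refine (small_card _ _).trans (le_of_eq ?_)
    simp [bx, cI, pow_two, -Int.card_Icc]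
  have key := sum_le_of_fibers (saw d n) (Wl ×ˢ Wl ×ˢ Sm ×ˢ
      (Fintype.piFinset fun _ : Bool × Bool => Sm) ×ˢ
      (Fintype.piFinset fun _ : Bool × Bool => Finset.range (n + 2)))
    (fun w => Real.exp (γ * bonds (range w)))
    (fun w y => ∃ G, CutData n m w y.1 y.2.1 y.2.2.1 y.2.2.2.1 y.2.2.2.2 G) ?_
    (K ^ 4 * Real.exp (g * (n + 1) + (4 * C + 3 * γ) * m)) ?_
  · refine key.trans (mul_le_mul_of_nonneg_right ?_ (by positivity))
    rw [Nat.cast_le]
    simp only [Finset.card_product, Fintype.card_piFinset, Finset.prod_const, Finset.card_univ,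
      Fintype.card_prod, Fintype.card_bool, Finset.card_range, cW]
    calc _ = (d * (2 * n + 1)) ^ 2 * Sm.card ^ 5 * (n + 2) ^ 4 := by ring
      _ ≤ _ := by
        rw [mul_comm 5 m, pow_mul _ m 5]
        gcongr
  · intro w hw
    obtain ⟨a, b, ha, hb, E, hE, T, hT, N, G, h⟩ := exists_cutData hl hm hn hm' hw
    refine ⟨(a, b, E, T, N), ?_, G, h⟩
    simp only [hWl, Finset.mem_product, Finset.mem_univ, true_and, Fintype.mem_piFinset,
      Finset.mem_range]
    refine ⟨ha, hb, hE, hT, fun r => ?_⟩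
    have := Finset.single_le_sum (f := N) (fun _ _ => Nat.zero_le _) (Finset.mem_univ r)
    have := h.2.1
    omega
  · rintro ⟨a, b, E, T, N⟩ hy S hS hQ
    simp only [Finset.mem_product, Fintype.mem_piFinset] at hy
    simp only at hQ
    rcases S.eq_empty_or_nonempty with rfl | ⟨w₀, hw₀⟩
    · rw [Finset.sum_empty]; positivity
    choose! φ hφ using hQ
    let F : Bool × Bool → Finset (SimpleGraph (Pt d)) := fun r => S.image fun w => φ w r
    have hF : ∀ r, Fam {x | reg a b x = r} ↑(T r) (N r) (Prod.snd '' (T r : Set (Pt d × Pt d))) (F r) := fun r => by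
      constructor <;> intro G hG <;> obtain ⟨w, hw, rfl⟩ := Finset.mem_image.1 hG
      · exact ((hφ w hw).1 r).1
      · exact ((hφ w hw).1 r).2.1
      · exact ((hφ w hw).1 r).2.2.1
      · exact ((hφ w hw).1 r).2.2.2
    have h1 := sum_le_of_rel S (Fintype.piFinset F) (fun w => Real.exp (γ * bonds (range w)))
      (fun G => (∏ r, Real.exp (γ * bonds ((G r).support ∩ {x | reg a b x = r}))) *
        Real.exp (γ * (3 * m))) (fun w G => G = φ w) (fun _ _ => by positivity) ?_ ?_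
    · refine h1.trans ?_
      rw [← Finset.sum_mul, ← Finset.prod_univ_sum F
        fun r G => Real.exp (γ * bonds (G.support ∩ {x | reg a b x = r}))]
      have h2 : ∀ r, W γ {x | reg a b x = r} (F r) ≤ K * Real.exp (g * N r + C * m) := fun r => by
        refine (bd_reg hd hγ hK hg hC hB a b r _ _ _ _ ((T r).finite_toSet.image _) (hF r)).trans
          (mul_le_mul_of_nonneg_left (Real.exp_le_exp.2 (add_le_add le_rfl
            (mul_le_mul_of_nonneg_left ?_ hC))) (by linarith))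
        have h3 := ncard_image_le (f := Prod.snd) (T r).finite_toSet
        rw [ncard_coe_finset] at h3
        exact_mod_cast h3.trans (mem_small.1 (hy.2.2.2.1 r)).2
      refine (mul_le_mul_of_nonneg_right (Finset.prod_le_prod (fun r _ => W_nonneg _ _ _)
        fun r _ => h2 r) (Real.exp_pos _).le).trans ?_
      rw [Finset.prod_mul_distrib, ← Real.exp_sum, Finset.sum_add_distrib, ← Finset.mul_sum,
        mul_assoc, ← Real.exp_add]
      simp only [Finset.prod_const, Finset.sum_const, Finset.card_univ, Fintype.card_prod,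
        Fintype.card_bool, nsmul_eq_mul]
      refine mul_le_mul_of_nonneg_left (Real.exp_le_exp.2 ?_) (by positivity)
      have h4 : ∑ r, (N r : ℝ) ≤ n + 1 := by exact_mod_cast (hφ w₀ hw₀).2.1
      have := mul_le_mul_of_nonneg_left h4 hg
      push_cast
      linarith
    · intro w hw
      refine ⟨φ w, Fintype.mem_piFinset.2 fun r => Finset.mem_image_of_mem _ hw, rfl, ?_⟩
      rw [← Real.exp_sum, ← Real.exp_add, Real.exp_le_exp, ← Finset.mul_sum, ← mul_add]
      refine mul_le_mul_of_nonneg_left ?_ hγ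
      exact_mod_cast (hφ w hw).2.2.2
    · intro w hw w' hw' G e e'
      refine eq_of_pg_eq (hS hw) (hS hw') ?_
      ext x y
      rw [(hφ w hw).2.2.1, (hφ w' hw').2.2.1, ← e, ← e']

end Pool.Agent.P.MP_86995c_pr
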