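import Pool.Agent.P.MP_86995c_pr.Merge
import Pool.Agent.P.MP_86995c_pr.Chain

/-!
Self-avoiding walks, their partition function, and walks obtained from connected pieces.
-/

set_option autoImplicit false
open Classical Set

namespace Pool.Agent.P.MP_86995c_pr

theorem sum_le_of_rel {α β : Type*} (S : Finset α) (T : Finset β) (f : α → ℝ) (g : β → ℝ)
    (Q : α → β → Prop) (hg : ∀ b ∈ T, 0 ≤ g b)
    (h : ∀ a ∈ S, ∃ b ∈ T, Q a b ∧ f a ≤ g b)
    (hinj : ∀ a ∈ S, ∀ a' ∈ S, ∀ b, Q a b → Q a' b → a = a') :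
    ∑ a ∈ S, f a ≤ ∑ b ∈ T, g b := by
  rcases S.eq_empty_or_nonempty with rfl | ⟨a₀, ha₀⟩
  · simpa using Finset.sum_nonneg hg
  have : Nonempty β := ⟨(h a₀ ha₀).choose⟩
  choose! φ hφ using h
  calc ∑ a ∈ S, f a ≤ ∑ a ∈ S, g (φ a) := Finset.sum_le_sum fun a ha => (hφ a ha).2.2
    _ = ∑ b ∈ S.image φ, g b := by
        rw [Finset.sum_image]
        intro a ha a' ha' e
        exact hinj a ha a' ha' (φ a) (hφ a ha).2.1 (e ▸ (hφ a' ha').2.1)
    _ ≤ ∑ b ∈ T, g b := by
        refine Finset.sum_le_sum_of_subset_of_nonneg ?_ fun b hb _ => hg b hb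
        intro b hb
        obtain ⟨a, ha, rfl⟩ := Finset.mem_image.1 hb
        exact (hφ a ha).1

section general
variable {V : Type*}

def One (G : SimpleGraph V) (v : V) : Prop := ∃ a, ∀ w, G.Adj v w ↔ w = a

theorem One.not_two {G : SimpleGraph V} {v : V} (h : One G v) : ¬ Two G v := by
  rintro ⟨a, b, hab, e⟩
  obtain ⟨c, hc⟩ := h
  exact hab (((hc a).1 ((e a).2 (Or.inl rfl))).trans ((hc b).1 ((e b).2 (Or.inr rfl))).symm)

theorem exists_spanning_path {G : SimpleGraph V} (hf : G.support.Finite) {u : V} (hu : One G u)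
    (h12 : ∀ v ∈ G.support, One G v ∨ Two G v) (hc : ∀ v ∈ G.support, G.Reachable u v) :
    ∃ (n : ℕ) (ω : ℕ → V), 0 < n ∧ ω 0 = u ∧ InjOn ω (Icc 0 n) ∧ G = pg ω 0 n ∧
      One G (ω n) ∧ G.support = ω '' Icc 0 n := by
  let Q : ℕ → Prop := fun n => ∃ ω : ℕ → V, ω 0 = u ∧ InjOn ω (Icc 0 n) ∧
    ∀ k < n, G.Adj (ω k) (ω (k + 1))
  obtain ⟨u', hu'⟩ := hu
  have huu : G.Adj u u' := (hu' _).2 rfl
  have Q1 : Q 1 := by
    refine ⟨fun k => if k = 0 then u else u', by simp, ?_, ?_⟩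
    · intro i hi j hj e
      have := huu.ne
      obtain rfl | rfl : i = 0 ∨ i = 1 := by have := hi.2; omega
      all_goals obtain rfl | rfl : j = 0 ∨ j = 1 := by have := hj.2; omega
      all_goals simp_all
    · intro k hk
      obtain rfl : k = 0 := by omega
      simpa using huu
  have hsub : ∀ n ω, 0 < n → (∀ k < n, G.Adj (ω k) (ω (k + 1))) → ω '' Icc 0 n ⊆ G.support := by
    rintro n ω hn hadj _ ⟨k, hk, rfl⟩
    rcases Nat.eq_zero_or_pos k with rfl | hk0
    · exact mem_supp.2 ⟨_, hadj 0 hn⟩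
    · have := hadj (k - 1) (by have := hk.2; omega)
      rw [Nat.sub_add_cancel hk0] at this
      exact mem_supp.2 ⟨_, this.symm⟩
  have Qb : ∀ n, 0 < n → Q n → n ≤ G.support.ncard := by
    rintro n hn ⟨ω, _, hi, hadj⟩
    have := ncard_le_ncard (hsub n ω hn hadj) hf
    rw [hi.ncard_image, ncard_Icc_nat] at this
    omega
  obtain ⟨n, hn, hQ, hmax⟩ : ∃ n, 0 < n ∧ Q n ∧ ¬ Q (n + 1) := by
    by_contra hcon
    push Not at hcon
    have : ∀ m, Q (m + 1) := fun m => by
      induction m with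
      | zero => exact Q1
      | succ m ih => exact hcon _ (Nat.succ_pos m) ih
    have := Qb _ (Nat.succ_pos _) (this G.support.ncard)
    omega
  obtain ⟨ω, h0, hi, hadj⟩ := hQ
  have hend : ∀ w, G.Adj (ω n) w → ∃ j ≤ n, w = ω j := by
    intro w hw
    by_contra hcon
    push Not at hcon
    refine hmax ⟨Function.update ω (n + 1) w, by simp [h0], ?_, ?_⟩
    · intro i hi' j hj e
      by_cases h1 : i = n + 1 <;> by_cases h2 : j = n + 1
      · rw [h1, h2]
      · rw [h1, Function.update_self, Function.update_of_ne h2] at e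
        exact absurd e (hcon j (by have := hj.2; omega))
      · rw [h2, Function.update_self, Function.update_of_ne h1] at e
        exact absurd e.symm (hcon i (by have := hi'.2; omega))
      · rw [Function.update_of_ne h1, Function.update_of_ne h2] at e
        exact hi ⟨hi'.1, by have := hi'.2; omega⟩ ⟨hj.1, by have := hj.2; omega⟩ e
    · intro k hk
      rw [Function.update_of_ne (by omega)]
      by_cases h1 : k = n
      · subst h1; rw [Function.update_self]; exact hw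
      · rw [Function.update_of_ne (by omega)]; exact hadj k (by omega)
  have hprev : ∀ k, 0 < k → k ≤ n → G.Adj (ω k) (ω (k - 1)) := fun k h1 h2 => by
    have := hadj (k - 1) (by omega)
    rw [Nat.sub_add_cancel h1] at this
    exact this.symm
  have hmid : ∀ k, 0 < k → k < n → ∀ w, G.Adj (ω k) w ↔ w = ω (k - 1) ∨ w = ω (k + 1) := by
    intro k h1 h2
    have hne : ω (k - 1) ≠ ω (k + 1) := fun e => by
      have := hi ⟨Nat.zero_le _, by omega⟩ ⟨Nat.zero_le _, by omega⟩ e; omega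
    rcases h12 (ω k) (mem_supp.2 ⟨_, hadj k h2⟩) with ⟨a, ha⟩ | h
    · exact absurd (((ha _).1 (hprev k h1 h2.le)).trans ((ha _).1 (hadj k h2)).symm) hne
    · obtain ⟨a, _, e⟩ := h.other (hprev k h1 h2.le)
      rcases (e _).1 (hadj k h2) with h' | h'
      · exact absurd h'.symm hne
      · rw [← h'] at e; exact e
  have hfirst : ∀ w, G.Adj (ω 0) w ↔ w = ω 1 := by
    have := (hu' _).1 (h0 ▸ hadj 0 hn)
    intro w; rw [h0, hu', ← this]
  have hlast : ∀ w, G.Adj (ω n) w ↔ w = ω (n - 1) := by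
    intro w
    refine ⟨fun hw => ?_, fun e => e ▸ hprev n hn le_rfl⟩
    obtain ⟨j, hj, rfl⟩ := hend w hw
    have hjn : j ≠ n := fun e => hw.ne (by rw [e])
    rcases Nat.eq_zero_or_pos j with rfl | hj0
    · have := hi ⟨Nat.zero_le _, le_rfl⟩ ⟨Nat.zero_le _, hn⟩ ((hfirst _).1 hw.symm)
      rw [this]
    · rcases (hmid j hj0 (by omega) _).1 hw.symm with e | e
      · have := hi ⟨Nat.zero_le _, le_rfl⟩ ⟨Nat.zero_le _, by omega⟩ e; omega
      · have := hi ⟨Nat.zero_le _, le_rfl⟩ ⟨Nat.zero_le _, by omega⟩ e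
        rw [show j = n - 1 by omega]
  have hall : ∀ k ≤ n, ∀ w, G.Adj (ω k) w ↔ (pg ω 0 n).Adj (ω k) w := by
    intro k hk w
    rw [pg_adj_at hi (Nat.zero_le _) hk]
    rcases Nat.eq_zero_or_pos k with rfl | hk0
    · rw [hfirst]; simp [hn]
    · rcases hk.eq_or_lt with rfl | hkn
      · rw [hlast]; simp [hn]
      · rw [hmid k hk0 hkn]; simp [hk0, hkn]
  have hsupp : G.support = ω '' Icc 0 n := by
    refine Subset.antisymm (fun v hv => ?_) (hsub n ω hn hadj)
    refine reach_induction (hc v hv) (Q := fun x => x ∈ ω '' Icc 0 n)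
      ⟨0, ⟨le_rfl, hn.le⟩, h0⟩ ?_
    rintro _ c _ ⟨k, hk, rfl⟩ hbc
    obtain ⟨j, h1, h2, rfl⟩ := pg_mem hi ((hall k hk.2 c).1 hbc).symm
    exact ⟨j, ⟨h1, h2⟩, rfl⟩
  refine ⟨n, ω, hn, h0, hi, ?_, ⟨_, hlast⟩, hsupp⟩
  ext x y
  constructor
  · intro h
    obtain ⟨k, hk, rfl⟩ := hsupp ▸ (mem_supp.2 ⟨y, h⟩ : x ∈ G.support)
    exact (hall k hk.2 y).1 h
  · intro h
    obtain ⟨k, _, hk, rfl⟩ := pg_mem hi h
    exact (hall k hk y).2 h

theorem pg_congr {ω ω' : ℕ → V} {s t : ℕ} (h : ∀ k, s ≤ k → k ≤ t → ω k = ω' k) :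
    pg ω s t = pg ω' s t := by
  unfold pg
  congr 1
  ext x y
  refine exists_congr fun k => and_congr_right fun h1 => and_congr_right fun h2 => ?_
  rw [h k h1 h2.le, h (k + 1) (by omega) h2]

end general

variable {d : ℕ}

theorem sum_abs_eq_one {x y : Pt d} : ∑ k, |y k - x k| = 1 ↔ (lat d).Adj x y := by
  constructor
  · intro h
    obtain ⟨i, hi⟩ : ∃ i, y i - x i ≠ 0 := by
      by_contra hcon
      push Not at hcon
      simp [hcon] at h
    rw [← Finset.add_sum_erase _ _ (Finset.mem_univ i)] at h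
    have h1 : 0 ≤ ∑ k ∈ Finset.univ.erase i, |y k - x k| :=
      Finset.sum_nonneg fun _ _ => abs_nonneg _
    have h2 : 0 < |y i - x i| := abs_pos.2 hi
    have h3 : ∑ k ∈ Finset.univ.erase i, |y k - x k| = 0 := by omega
    have h4 : |y i - x i| = 1 := by omega
    refine ⟨i, ?_, fun k hk => ?_⟩
    · rcases abs_eq (zero_le_one) |>.1 h4 with h | h <;> omega
    · have := (Finset.sum_eq_zero_iff_of_nonneg fun _ _ => abs_nonneg _).1 h3 k
        (Finset.mem_erase.2 ⟨hk, Finset.mem_univ _⟩)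
      have := abs_eq_zero.1 this
      omega
  · rintro ⟨i, h1, h2⟩
    rw [Finset.sum_eq_single i]
    · rcases h1 with h | h <;> rw [h] <;> simp
    · intro k _ hk; rw [h2 k hk]; simp
    · simp

/-- the n-step self-avoiding walks from the origin -/
noncomputable def saw (d n : ℕ) : Finset (Fin (n + 1) → Pt d) :=
  (Fintype.piFinset (fun _ : Fin (n + 1) =>
    Fintype.piFinset (fun _ : Fin d => Finset.Icc (-(n : ℤ)) (n : ℤ)))).filter
    (fun w : Fin (n + 1) → Fin d → ℤ =>
      w 0 = 0 ∧ (∀ i j : Fin (n + 1), w i = w j → i = j) ∧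
      (∀ i : Fin n, ∑ k : Fin d, |w i.succ k - w i.castSucc k| = 1))

theorem seq_bound {ω : ℕ → Pt d} {n : ℕ} (hadj : ∀ k < n, (lat d).Adj (ω k) (ω (k + 1)))
    (i : Fin d) : ∀ k ≤ n, -(k : ℤ) ≤ ω k i - ω 0 i ∧ ω k i - ω 0 i ≤ k := by
  intro k hk
  induction k with
  | zero => simp
  | succ k ih =>
    have := ih (by omega)
    have := lat_adj_coord (hadj k (by omega)) i
    push_cast; omega

theorem mem_saw_of_seq {ω : ℕ → Pt d} {n : ℕ} (h0 : ω 0 = 0) (hi : InjOn ω (Icc 0 n))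
    (hadj : ∀ k < n, (lat d).Adj (ω k) (ω (k + 1))) :
    (fun j : Fin (n + 1) => ω j) ∈ saw d n := by
  simp only [saw, Finset.mem_filter, Fintype.mem_piFinset, Finset.mem_Icc]
  refine ⟨fun j k => ?_, h0, fun i j e => ?_, fun i => ?_⟩
  · have := seq_bound hadj k j (Nat.lt_succ_iff.1 j.2)
    have hj : (j : ℤ) ≤ n := by exact_mod_cast Nat.lt_succ_iff.1 j.2
    rw [h0] at this
    simp only [Pi.zero_apply, sub_zero] at this
    omega
  · exact Fin.ext (hi ⟨Nat.zero_le _, Nat.lt_succ_iff.1 i.2⟩ ⟨Nat.zero_le _, Nat.lt_succ_iff.1 j.2⟩ e)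
  · exact sum_abs_eq_one.2 (hadj i i.2)

/-- a walk as a sequence indexed by natural numbers -/
def sq {n : ℕ} (w : Fin (n + 1) → Pt d) (k : ℕ) : Pt d :=
  if h : k < n + 1 then w ⟨k, h⟩ else 0

theorem sq_val {n : ℕ} (w : Fin (n + 1) → Pt d) (j : Fin (n + 1)) : sq w j = w j := by
  simp [sq, j.2]

theorem saw_seq {n : ℕ} {w : Fin (n + 1) → Pt d} (hw : w ∈ saw d n) :
    InjOn (sq w) (Icc 0 n) ∧ (∀ k < n, (lat d).Adj (sq w k) (sq w (k + 1))) ∧
      (∀ k ≤ n, ∀ i, -(n : ℤ) ≤ sq w k i ∧ sq w k i ≤ n) ∧ range w = sq w '' Icc 0 n := by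
  simp only [saw, Finset.mem_filter, Fintype.mem_piFinset, Finset.mem_Icc] at hw
  obtain ⟨h1, _, h3, h4⟩ := hw
  refine ⟨fun i hi j hj e => ?_, fun k hk => ?_, fun k hk i => ?_, ?_⟩
  · have hi' : i < n + 1 := Nat.lt_succ_iff.2 hi.2
    have hj' : j < n + 1 := Nat.lt_succ_iff.2 hj.2
    simp only [sq, hi', hj', dif_pos] at e
    exact congrArg Fin.val (h3 _ _ e)
  · have := sum_abs_eq_one.1 (h4 ⟨k, hk⟩)
    have h1 : k < n + 1 := by omega
    have h2 : k + 1 < n + 1 := by omega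
    simp only [sq, h1, h2, dif_pos]
    exact this
  · have h1' : k < n + 1 := by omega
    simp only [sq, h1', dif_pos]
    exact h1 _ _
  · ext x
    constructor
    · rintro ⟨j, rfl⟩
      exact ⟨j, ⟨Nat.zero_le _, Nat.lt_succ_iff.1 j.2⟩, sq_val w j⟩
    · rintro ⟨k, hk, rfl⟩
      exact ⟨⟨k, Nat.lt_succ_iff.2 hk.2⟩, (sq_val w ⟨k, Nat.lt_succ_iff.2 hk.2⟩).symm⟩

/-- partition function weighted by the number of ordered adjacent pairs of visited sites -/
noncomputable def Z (d : ℕ) (γ : ℝ) (n : ℕ) : ℝ :=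
  ∑ w ∈ saw d n, Real.exp (γ * bonds (range w))

theorem add_aut (u : Pt d) : IsAut (fun x : Pt d => x + u) where
  bij := (Equiv.addRight u).bijective
  adj := fun x y => by
    simp only [lat_adj, Pi.add_apply]
    refine exists_congr fun i => and_congr (by omega) (forall_congr' fun k => ?_)
    simp

theorem W_le_Z {γ : ℝ} (hγ : 0 ≤ γ) {i : Fin d} {a : ℤ} {T : Set (Pt d × Pt d)} {M : ℕ}
    {x₀ u : Pt d} {F : Finset (SimpleGraph (Pt d))} (hF : Fam (lft univ i a) T M {x₀} F)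
    (hu : u ∉ lft univ i a) (huF : ∀ G ∈ F, u ∈ G.support) (r : ℕ) :
    W γ (lft univ i a) F ≤ Z d γ (M + 1 + r) := by
  have memR : ∀ x : Pt d, x ∈ lft univ i a ↔ x i < a := fun x => by simp [lft]
  refine sum_le_of_rel _ _ _ _ (fun G w => G = pg (fun k => sq w k + u) 0 (M + 1))
    (fun _ _ => (Real.exp_pos _).le) ?_ (fun G _ G' _ w e e' => e.trans e'.symm)
  intro G hG
  have hP := hF.piece G hG
  have tip : ∀ v ∈ G.support, v ∉ lft univ i a → One G v ∧ v i = a := by
    intro v hv hvR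
    have key : ∀ w, G.Adj v w → w = Function.update v i (a - 1) ∧ v i = a := by
      intro w hw
      have h1 := (memR w).1 ((hP.inR v w hw).resolve_left hvR)
      have h2 := mt (memR v).2 hvR
      have h3 := lat_adj_coord (hP.le hw) i
      have h4 := eq_update_of (lat_adj_other (hP.le hw) (i := i) (by omega))
      rw [show w i = a - 1 by omega] at h4
      exact ⟨h4, by omega⟩
    obtain ⟨w, hw⟩ := mem_supp.1 hv
    exact ⟨⟨w, fun w' => ⟨fun h => (key w' h).1.trans (key w hw).1.symm, fun e => e ▸ hw⟩⟩,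
      (key w hw).2⟩
  have conn : ∀ v ∈ G.support, G.Reachable u v := by
    intro v hv
    obtain ⟨x, hx, h1⟩ := hF.anch G hG v hv
    obtain ⟨y, hy, h2⟩ := hF.anch G hG u (huF G hG)
    rw [mem_singleton_iff.1 hx] at h1
    rw [mem_singleton_iff.1 hy] at h2
    exact h2.trans h1.symm
  obtain ⟨n, ω, hn, h0, hi, hGω, hone, hsupp⟩ := exists_spanning_path hP.fin
    (tip u (huF G hG) hu).1 (fun v hv => by
      by_cases h : v ∈ lft univ i a
      · exact Or.inr (hP.two v h hv)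
      · exact Or.inl (tip v hv h).1) conn
  have hmem : ∀ k ≤ n, ω k ∈ G.support := fun k hk => hsupp ▸ ⟨k, ⟨Nat.zero_le _, hk⟩, rfl⟩
  have hnR : ω n ∉ lft univ i a := fun h => hone.not_two (hP.two _ h (hmem n le_rfl))
  have hcore : G.support ∩ lft univ i a = ω '' Icc 1 (n - 1) := by
    ext x
    constructor
    · rintro ⟨hx, hxR⟩
      obtain ⟨k, hk, rfl⟩ := hsupp ▸ hx
      have : k ≠ 0 := fun e => hu (by rw [← h0, ← e]; exact hxR)
      have : k ≠ n := fun e => hnR (e ▸ hxR)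
      exact ⟨k, ⟨by omega, by have := hk.2; omega⟩, rfl⟩
    · rintro ⟨k, hk, rfl⟩
      have h1 := hk.1
      have h2 := hk.2
      refine ⟨hmem k (by omega), ?_⟩
      by_contra h
      exact (tip _ (hmem k (by omega)) h).1.not_two (hGω ▸ pg_two hi (by omega) (by omega))
  have hM : n = M + 1 := by
    have := hF.mass G hG
    rw [hcore, (hi.mono (Icc_subset_Icc (Nat.zero_le _) (Nat.sub_le _ _))).ncard_image,
      ncard_Icc_nat] at this
    omega
  subst hM
  have hle : ∀ k ≤ M + 1, ω k i ≤ a := fun k hk => by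
    by_cases h : ω k ∈ lft univ i a
    · exact ((memR _).1 h).le
    · exact (tip _ (hmem k hk) h).2.le
  have hlast : ω (M + 1) i = a := (tip _ (hmem _ le_rfl) hnR).2
  let ω' : ℕ → Pt d := fun k =>
    if k ≤ M + 1 then ω k else Function.update (ω (M + 1)) i (a + k - (M + 1))
  have e1 : ∀ k ≤ M + 1, ω' k = ω k := fun k hk => if_pos hk
  have e2 : ∀ k, M + 1 ≤ k → ω' k = Function.update (ω (M + 1)) i (a + k - (M + 1)) := by
    intro k hk
    rcases hk.eq_or_lt with rfl | hk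
    · rw [e1 _ le_rfl]; push_cast; rw [add_sub_cancel_right, ← hlast]; simp
    · exact if_neg (by omega)
  have hi' : InjOn ω' (Icc 0 (M + 1 + r)) := by
    intro k _ j _ e
    rcases le_or_gt k (M + 1) with hk | hk <;> rcases le_or_gt j (M + 1) with hj | hj
    · rw [e1 k hk, e1 j hj] at e
      exact hi ⟨Nat.zero_le _, hk⟩ ⟨Nat.zero_le _, hj⟩ e
    · have := congrFun e i
      rw [e1 k hk, e2 j hj.le, Function.update_self] at this
      have := hle k hk; omega
    · have := congrFun e i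
      rw [e1 j hj, e2 k hk.le, Function.update_self] at this
      have := hle j hj; omega
    · have := congrFun e i
      rw [e2 k hk.le, e2 j hj.le, Function.update_self, Function.update_self] at this
      omega
  have hadj' : ∀ k < M + 1 + r, (lat d).Adj (ω' k) (ω' (k + 1)) := by
    intro k _
    rcases lt_or_ge k (M + 1) with hk | hk
    · rw [e1 k hk.le, e1 (k + 1) hk]
      exact hP.le (hGω ▸ pg_step hi (Nat.zero_le _) hk)
    · rw [e2 k hk, e2 (k + 1) (by omega)]
      refine ⟨i, ?_, fun j hj => ?_⟩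
      · simp only [Function.update_self]; push_cast; omega
      · rw [Function.update_of_ne hj, Function.update_of_ne hj]
  have hmemsaw := mem_saw_of_seq (ω := fun k => ω' k - u) (n := M + 1 + r)
    (by simp only [e1 0 (Nat.zero_le _), h0, sub_self])
    (fun k hk j hj e => hi' hk hj (sub_left_injective e))
    (fun k hk => ((add_aut u).adj _ _).1 (by simpa using hadj' k hk))
  refine ⟨_, hmemsaw, ?_, ?_⟩
  · rw [hGω]
    refine pg_congr fun k _ hk => ?_
    have : k < M + 1 + r + 1 := by omega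
    simp only [sq, this, dif_pos, e1 k hk, sub_add_cancel]
  · refine Real.exp_le_exp.2 (mul_le_mul_of_nonneg_left ?_ hγ)
    rw [← (add_aut u).bonds_preimage]
    refine Nat.cast_le.2 (bonds_mono ?_ (finite_range _))
    intro x hx
    rw [mem_preimage, hcore] at hx
    obtain ⟨k, hk, e⟩ := hx
    have h2 := hk.2
    refine ⟨⟨k, by omega⟩, ?_⟩
    simp only [e1 k (by omega), e, add_sub_cancel_right]

end Pool.Agent.P.MP_86995c_pr
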